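import Pool.Agent.U62.LD.Big
import Pool.Agent.U62.RB.Joint2

/-!
# Large deviations: the abstract theorem
-/

set_option autoImplicit false
set_option linter.unusedSectionVars false

namespace Pool.Agent.U62.LD

open Finset Filter Topology Pool.Agent.X280.BP
open Pool.Agent.Y722.HS (EM EB red)
open Pool.Agent.U62.RB (EB_add2)

variable {n k : ℕ}

/-- Linear forms. -/
def lin {α : Type} {k : ℕ} (s : Fin k → ℝ) (X : Fin k → α → ℝ) (c : α) : ℝ := ∑ j, s j * X j c

/-- The quadratic form of the variances. -/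
def Qf {k : ℕ} (v s : Fin k → ℝ) : ℝ := ∑ j, v j * s j ^ 2

/-- The hypotheses: closeness of moments, exponential moments of the independent model. -/
structure Hyp {M : ℕ} [NeZero M] (X : Fin k → (Fin n → ℤ) → ℝ) (X' : Fin k → (Fin n → ZMod M) → ℝ) (H : ℕ) (v : Fin k → ℝ)
    (l C S : ℝ) (m : ℕ) : Prop where
  mom : ∀ s : Fin k → ℝ, (∀ j, |s j| ≤ S) → ∀ i, i ≤ 4 * m →
    |EB H (fun c => lin s X c ^ i) - EM M (fun r => lin s X' r ^ i)| ≤ Real.exp (-l) / 9
  exp_le : ∀ s : Fin k → ℝ, (∀ j, |s j| ≤ S) → EM M (fun r => Real.exp (lin s X' r)) ≤ Real.exp (Qf v s / 2 * l + C)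
  exp_ge : ∀ s : Fin k → ℝ, (∀ j, |s j| ≤ S) → Real.exp (Qf v s / 2 * l - C) ≤ EM M (fun r => Real.exp (lin s X' r))

theorem lin_neg {α : Type} (s : Fin k → ℝ) (X : Fin k → α → ℝ) (c : α) : lin (fun j => - s j) X c = - lin s X c := by
  unfold lin
  rw [← Finset.sum_neg_distrib]
  exact Finset.sum_congr rfl fun j _ => by ring

theorem lin_two {α : Type} (s : Fin k → ℝ) (X : Fin k → α → ℝ) (c : α) : lin (fun j => 2 * s j) X c = 2 * lin s X c := by
  unfold lin
  rw [Finset.mul_sum]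
  exact Finset.sum_congr rfl fun j _ => by ring

theorem Qf_neg (v s : Fin k → ℝ) : Qf v (fun j => - s j) = Qf v s := by
  unfold Qf
  exact Finset.sum_congr rfl fun j _ => by ring

theorem Qf_two (v s : Fin k → ℝ) : Qf v (fun j => 2 * s j) = 4 * Qf v s := by
  unfold Qf
  rw [Finset.mul_sum]
  exact Finset.sum_congr rfl fun j _ => by ring

theorem Qf_nonneg {v : Fin k → ℝ} (hv : ∀ j, 0 ≤ v j) (s : Fin k → ℝ) : 0 ≤ Qf v s :=
  Finset.sum_nonneg fun j _ => mul_nonneg (hv j) (sq_nonneg _)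

section

variable {M : ℕ} [NeZero M] {X : Fin k → (Fin n → ℤ) → ℝ} {X' : Fin k → (Fin n → ZMod M) → ℝ} {H : ℕ} {v : Fin k → ℝ}
  {l C S : ℝ} {m : ℕ}

theorem Hyp.eta (_h : Hyp X X' H v l C S m) (hl : 0 ≤ l) : Real.exp (-l) / 9 ≤ 1 / 9 := by
  have : Real.exp (-l) ≤ 1 := Real.exp_le_one_iff.2 (by linarith)
  linarith

/-- Upper bound for the exponential moment of the absolute value. -/
theorem Hyp.abs_le (h : Hyp X X' H v l C S m) {s : Fin k → ℝ} (hs : ∀ j, |s j| ≤ S) :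
    EM M (fun r => Real.exp |lin s X' r|) ≤ 2 * Real.exp (Qf v s / 2 * l + C) := by
  calc EM M (fun r => Real.exp |lin s X' r|) ≤
      EM M (fun r => Real.exp (lin s X' r) + Real.exp (lin (fun j => - s j) X' r)) := by
        refine EM_mono2 M _ _ fun r => ?_
        rw [lin_neg]
        exact exp_abs_le _
    _ = EM M (fun r => Real.exp (lin s X' r)) + EM M (fun r => Real.exp (lin (fun j => - s j) X' r)) := EM_add2 M _ _
    _ ≤ _ := by
        have h1 := h.exp_le s hs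
        have h2 := h.exp_le (fun j => - s j) (fun j => by rw [abs_neg]; exact hs j)
        rw [Qf_neg] at h2
        linarith

theorem Hyp.wt_le (h : Hyp X X' H v l C S m) (hm : 1 ≤ m) (hl : 0 ≤ l) (hC : 0 ≤ C) (hv : ∀ j, 0 ≤ v j) {s : Fin k → ℝ}
    (hs : ∀ j, |s j| ≤ S) : EB H (fun c => wt m (lin s X c)) ≤ 3 * Real.exp (Qf v s / 2 * l + C) := by
  have h1 := (wt_close hm (lin s X) (lin s X') (by positivity) (h.mom s hs)).1
  have h2 : EM M (fun r => wt m (lin s X' r)) ≤ EM M (fun r => Real.exp |lin s X' r|) :=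
    EM_mono2 M _ _ fun r => wt_le_exp_abs hm _
  have h3 := h.abs_le hs
  have h4 := h.eta hl
  have h5 : 1 ≤ Real.exp (Qf v s / 2 * l + C) := by
    have := Qf_nonneg hv s
    exact Real.one_le_exp (by positivity)
  have h6 := (_root_.abs_le.1 h1).2
  linarith

theorem Hyp.wt_sq (h : Hyp X X' H v l C S m) (hm : 1 ≤ m) (hl : 0 ≤ l) (hC : 0 ≤ C) (hv : ∀ j, 0 ≤ v j) {s : Fin k → ℝ}
    (hs : ∀ j, |s j| ≤ S) (hs2 : ∀ j, |2 * s j| ≤ S) :
    EB H (fun c => wt m (lin s X c) ^ 2) ≤ 3 * Real.exp (2 * Qf v s * l + C) := by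
  have h1 := (wt_close hm (lin s X) (lin s X') (by positivity) (h.mom s hs)).2
  have h2 : EM M (fun r => wt m (lin s X' r) ^ 2) ≤ EM M (fun r => Real.exp |lin (fun j => 2 * s j) X' r|) := by
    refine EM_mono2 M _ _ fun r => (wt_sq_le hm _).trans (le_of_eq ?_)
    rw [lin_two, abs_mul, abs_two]
  have h3 := h.abs_le (s := fun j => 2 * s j) hs2
  rw [Qf_two, show 4 * Qf v s / 2 = 2 * Qf v s by ring] at h3
  have h4 := h.eta hl
  have h5 : 1 ≤ Real.exp (2 * Qf v s * l + C) := by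
    have := Qf_nonneg hv s
    exact Real.one_le_exp (by positivity)
  have h6 := (_root_.abs_le.1 h1).2
  linarith

/-- Lower bound for the weights. -/
theorem wt_pt {m : ℕ} (hm : 1 ≤ m) {a : ℝ} (ham : a ≤ m) (x : ℝ) :
    Real.exp (-(a ^ 2 / m)) * (Real.exp x - Real.exp (-a) * (Real.exp (2 * x) + 1)) ≤ wt m x := by
  have hm0 : (0 : ℝ) < m := by
    have : (1 : ℝ) ≤ m := by exact_mod_cast hm
    linarith
  rcases le_or_gt |x| a with h | h
  · have h1 : -(m : ℝ) ≤ x := by linarith [(_root_.abs_le.1 h).1]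
    refine le_trans ?_ (wt_ge hm h1)
    have h2 : x ^ 2 / m ≤ a ^ 2 / m := by
      refine div_le_div_of_nonneg_right ?_ hm0.le
      rw [← sq_abs]
      exact pow_le_pow_left₀ (abs_nonneg _) h 2
    calc Real.exp (-(a ^ 2 / m)) * (Real.exp x - Real.exp (-a) * (Real.exp (2 * x) + 1)) ≤
        Real.exp (-(a ^ 2 / m)) * Real.exp x := by
          refine mul_le_mul_of_nonneg_left ?_ (Real.exp_pos _).le
          have : 0 ≤ Real.exp (-a) * (Real.exp (2 * x) + 1) := by positivity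
          linarith
      _ = Real.exp (x - a ^ 2 / m) := by rw [← Real.exp_add]; congr 1; ring
      _ ≤ _ := Real.exp_le_exp.2 (by linarith)
  · have h1 : Real.exp x ≤ Real.exp (-a) * (Real.exp (2 * x) + 1) := by
      rw [mul_add, mul_one, ← Real.exp_add]
      rcases lt_abs.1 h with h2 | h2
      · have h3 : Real.exp x ≤ Real.exp (-a + 2 * x) := Real.exp_le_exp.2 (by linarith)
        have := Real.exp_pos (-a)
        linarith
      · have h3 : Real.exp x ≤ Real.exp (-a) := Real.exp_le_exp.2 (by linarith)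
        have := Real.exp_pos (-a + 2 * x)
        linarith
    refine le_trans ?_ (wt_nonneg m x)
    exact mul_nonpos_of_nonneg_of_nonpos (Real.exp_pos _).le (by linarith)

theorem Hyp.wt_low (h : Hyp X X' H v l C S m) (hm : 1 ≤ m) {s : Fin k → ℝ}
    (hs : ∀ j, |s j| ≤ S) (hs2 : ∀ j, |2 * s j| ≤ S) {a : ℝ} (ham : a ≤ m) :
    Real.exp (-(a ^ 2 / m)) * (Real.exp (Qf v s / 2 * l - C) - Real.exp (-a) * (Real.exp (2 * Qf v s * l + C) + 1)) -
      Real.exp (-l) ≤ EB H (fun c => wt m (lin s X c)) := by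
  have h1 := (wt_close hm (lin s X) (lin s X') (by positivity) (h.mom s hs)).1
  have h2 : EM M (fun r => Real.exp (-(a ^ 2 / m)) * (Real.exp (lin s X' r) - Real.exp (-a) * (Real.exp (2 * lin s X' r) + 1))) ≤
      EM M (fun r => wt m (lin s X' r)) := EM_mono2 M _ _ fun r => wt_pt hm ham _
  have e : EM M (fun r => Real.exp (-(a ^ 2 / m)) * (Real.exp (lin s X' r) - Real.exp (-a) * (Real.exp (2 * lin s X' r) + 1))) =
      Real.exp (-(a ^ 2 / m)) * (EM M (fun r => Real.exp (lin s X' r)) -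
        Real.exp (-a) * (EM M (fun r => Real.exp (lin (fun j => 2 * s j) X' r)) + 1)) := by
    have e1 : (fun r : Fin n → ZMod M => Real.exp (-(a ^ 2 / m)) * (Real.exp (lin s X' r) -
        Real.exp (-a) * (Real.exp (2 * lin s X' r) + 1))) = fun r => Real.exp (-(a ^ 2 / m)) *
        (Real.exp (lin s X' r) + (-Real.exp (-a)) * (Real.exp (lin (fun j => 2 * s j) X' r) + 1)) := by
      funext r
      rw [lin_two]
      ring
    rw [e1, EM_mul2, EM_add2, EM_mul2, EM_add2, EM_one2]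
    ring
  rw [e] at h2
  have h3 := h.exp_ge s hs
  have h4 := h.exp_le (fun j => 2 * s j) hs2
  rw [Qf_two, show 4 * Qf v s / 2 = 2 * Qf v s by ring] at h4
  have h5 : Real.exp (-(a ^ 2 / m)) * (Real.exp (Qf v s / 2 * l - C) - Real.exp (-a) * (Real.exp (2 * Qf v s * l + C) + 1)) ≤
      Real.exp (-(a ^ 2 / m)) * (EM M (fun r => Real.exp (lin s X' r)) -
        Real.exp (-a) * (EM M (fun r => Real.exp (lin (fun j => 2 * s j) X' r)) + 1)) := by
    refine mul_le_mul_of_nonneg_left ?_ (Real.exp_pos _).le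
    have h6 : Real.exp (-a) * (EM M (fun r => Real.exp (lin (fun j => 2 * s j) X' r)) + 1) ≤
        Real.exp (-a) * (Real.exp (2 * Qf v s * l + C) + 1) :=
      mul_le_mul_of_nonneg_left (by linarith) (Real.exp_pos _).le
    linarith
  have h6 := (_root_.abs_le.1 h1).1
  have h7 := Real.exp_pos (-l)
  linarith

/-- Moments of one variable. -/
theorem Hyp.pow_le (h : Hyp X X' H v l C S m) (hl : 0 ≤ l) (hC : 0 ≤ C) (hS : 1 ≤ S) (hv : ∀ j, 0 ≤ v j) (j : Fin k) {q : ℕ}
    (hq : 2 * q ≤ 4 * m) : EB H (fun c => X j c ^ (2 * q)) ≤ ((2 * q).factorial : ℝ) * (3 * Real.exp (v j / 2 * l + C)) := by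
  obtain ⟨s, hs⟩ : ∃ s : Fin k → ℝ, s = fun i => if i = j then 1 else 0 := ⟨_, rfl⟩
  have hl1 : ∀ {α : Type} (Y : Fin k → α → ℝ) (c : α), lin s Y c = Y j c := by
    intro α Y c
    unfold lin
    rw [hs]
    simp
  have hQ : Qf v s = v j := by
    unfold Qf
    rw [hs]
    simp
  have hsS : ∀ i, |s i| ≤ S := by
    intro i
    rw [hs]
    dsimp only
    split_ifs
    · rw [abs_one]; exact hS
    · rw [abs_zero]; linarith
  have h1 := h.mom s hsS (2 * q) hq
  simp only [hl1] at h1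
  have h2 : EM M (fun r => X' j r ^ (2 * q)) ≤ EM M (fun r => ((2 * q).factorial : ℝ) * Real.exp |lin s X' r|) := by
    refine EM_mono2 M _ _ fun r => ?_
    rw [hl1]
    have h3 := Real.pow_div_factorial_le_exp |X' j r| (abs_nonneg _) (2 * q)
    rw [(even_two_mul q).pow_abs, div_le_iff₀ (by positivity)] at h3
    linarith
  rw [EM_mul2] at h2
  have h3 := h.abs_le hsS
  rw [hQ] at h3
  have h4 := h.eta hl
  have h5 : 1 ≤ Real.exp (v j / 2 * l + C) := by
    have := hv j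
    exact Real.one_le_exp (by positivity)
  have hf : (1 : ℝ) ≤ ((2 * q).factorial : ℝ) := by exact_mod_cast Nat.one_le_iff_ne_zero.2 (Nat.factorial_ne_zero _)
  have h6 := (_root_.abs_le.1 h1).2
  have h7 : ((2 * q).factorial : ℝ) * EM M (fun r => Real.exp |lin s X' r|) ≤
      ((2 * q).factorial : ℝ) * (2 * Real.exp (v j / 2 * l + C)) := mul_le_mul_of_nonneg_left h3 (by positivity)
  have h8 : (1 : ℝ) ≤ ((2 * q).factorial : ℝ) * Real.exp (v j / 2 * l + C) := one_le_mul_of_one_le_of_one_le hf h5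
  have e9 : ((2 * q).factorial : ℝ) * (3 * Real.exp (v j / 2 * l + C)) =
      ((2 * q).factorial : ℝ) * (2 * Real.exp (v j / 2 * l + C)) + ((2 * q).factorial : ℝ) * Real.exp (v j / 2 * l + C) := by ring
  rw [e9]
  linarith

open Classical in
/-- **The upper bound.** -/
theorem Hyp.upper (h : Hyp X X' H v l C S m) (hm : 1 ≤ m) (hl : 0 ≤ l) (hC : 0 ≤ C) (hv : ∀ j, 0 ≤ v j) {s : Fin k → ℝ}
    (hs : ∀ j, |s j| ≤ S) (hs0 : ∀ j, 0 ≤ s j) (γ : Fin k → ℝ) (hγ : 0 ≤ ∑ j, s j * γ j) :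
    EB H (fun c => if ∀ j, γ j * l ≤ X j c then (1 : ℝ) else 0) ≤
      3 * Real.exp (Qf v s / 2 * l + C) * Real.exp (-((∑ j, s j * γ j) * l) + ((∑ j, s j * γ j) * l) ^ 2 / m) := by
  obtain ⟨B, hB⟩ : ∃ B : ℝ, B = (∑ j, s j * γ j) * l := ⟨_, rfl⟩
  have hB0 : 0 ≤ B := hB ▸ mul_nonneg hγ hl
  rw [← hB]
  have h1 : ∀ c, (if ∀ j, γ j * l ≤ X j c then (1 : ℝ) else 0) ≤ Real.exp (-B + B ^ 2 / m) * wt m (lin s X c) := by
    intro c
    split_ifs with hc
    · have h2 : B ≤ lin s X c := by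
        rw [hB, Finset.sum_mul]
        unfold lin
        refine Finset.sum_le_sum fun j _ => ?_
        calc s j * γ j * l = s j * (γ j * l) := by ring
          _ ≤ s j * X j c := mul_le_mul_of_nonneg_left (hc j) (hs0 j)
      have h3 : Real.exp (B - B ^ 2 / m) ≤ wt m (lin s X c) :=
        (wt_ge hm (by have : (0 : ℝ) ≤ m := Nat.cast_nonneg m; linarith)).trans (wt_mono hB0 h2)
      calc (1 : ℝ) = Real.exp (-B + B ^ 2 / m) * Real.exp (B - B ^ 2 / m) := by
            rw [← Real.exp_add, ← Real.exp_zero]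
            congr 1
            ring
        _ ≤ _ := mul_le_mul_of_nonneg_left h3 (Real.exp_pos _).le
    · exact mul_nonneg (Real.exp_pos _).le (wt_nonneg _ _)
  refine (Pool.Agent.X280.BP.EB_mono H _ _ h1).trans ?_
  rw [EB_mul_left]
  calc Real.exp (-B + B ^ 2 / m) * EB H (fun c => wt m (lin s X c)) ≤
      Real.exp (-B + B ^ 2 / m) * (3 * Real.exp (Qf v s / 2 * l + C)) :=
        mul_le_mul_of_nonneg_left (h.wt_le hm hl hC hv hs) (Real.exp_pos _).le
    _ = _ := by ring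

end

end Pool.Agent.U62.LD
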