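import Mathlib

/-!
# Large deviations: polynomial weights
-/

set_option autoImplicit false

namespace Pool.Agent.U62.LD

open Finset

/-- The weight `(1 + x / (2 m)) ^ (2 m)`. -/
noncomputable def wt (m : ℕ) (x : ℝ) : ℝ := (1 + x / (2 * m)) ^ (2 * m)

theorem wt_nonneg (m : ℕ) (x : ℝ) : 0 ≤ wt m x := (even_two_mul m).pow_nonneg _

theorem abs_base_le {m : ℕ} (hm : 1 ≤ m) (x : ℝ) : |1 + x / (2 * m)| ≤ Real.exp (|x| / (2 * m)) := by
  have hm0 : (0 : ℝ) < 2 * m := by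
    have : (1 : ℝ) ≤ m := by exact_mod_cast hm
    linarith
  calc |1 + x / (2 * m)| ≤ |(1 : ℝ)| + |x / (2 * m)| := abs_add_le _ _
    _ = |x| / (2 * m) + 1 := by rw [abs_one, abs_div, abs_of_pos hm0]; ring
    _ ≤ _ := Real.add_one_le_exp _

theorem wt_le_exp_abs {m : ℕ} (hm : 1 ≤ m) (x : ℝ) : wt m x ≤ Real.exp |x| := by
  have hm0 : (0 : ℝ) < 2 * m := by
    have : (1 : ℝ) ≤ m := by exact_mod_cast hm
    linarith
  calc wt m x ≤ |wt m x| := le_abs_self _
    _ = |1 + x / (2 * m)| ^ (2 * m) := by unfold wt; rw [abs_pow]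
    _ ≤ Real.exp (|x| / (2 * m)) ^ (2 * m) := pow_le_pow_left₀ (abs_nonneg _) (abs_base_le hm x) _
    _ = Real.exp |x| := by
        rw [← Real.exp_nat_mul]
        congr 1
        push_cast
        field_simp

theorem wt_sq_le {m : ℕ} (hm : 1 ≤ m) (x : ℝ) : wt m x ^ 2 ≤ Real.exp (2 * |x|) := by
  calc wt m x ^ 2 ≤ Real.exp |x| ^ 2 := pow_le_pow_left₀ (wt_nonneg m x) (wt_le_exp_abs hm x) 2
    _ = Real.exp (2 * |x|) := by
        rw [← Real.exp_nat_mul]
        norm_num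

theorem wt_le_exp {m : ℕ} (hm : 1 ≤ m) {x : ℝ} (hx : |x| ≤ 2 * m) : wt m x ≤ Real.exp x := by
  have hm0 : (0 : ℝ) < 2 * m := by
    have : (1 : ℝ) ≤ m := by exact_mod_cast hm
    linarith
  have h1 : 0 ≤ 1 + x / (2 * m) := by
    have h2 : -1 ≤ x / (2 * m) := by
      rw [le_div_iff₀ hm0]
      linarith [(abs_le.1 hx).1]
    linarith
  calc wt m x ≤ Real.exp (x / (2 * m)) ^ (2 * m) := by
        refine pow_le_pow_left₀ h1 ?_ _
        rw [add_comm]
        exact Real.add_one_le_exp _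
    _ = Real.exp x := by
        rw [← Real.exp_nat_mul]
        congr 1
        push_cast
        field_simp

theorem exp_le_base {y : ℝ} (hy : -(1 / 2) ≤ y) : Real.exp (y - 2 * y ^ 2) ≤ 1 + y := by
  have hpos : 0 < 1 + y := by linarith
  rw [← Real.le_log_iff_exp_le hpos]
  rcases le_or_gt 0 y with h | h
  · have h1 := Real.one_sub_inv_le_log_of_pos hpos
    refine le_trans ?_ h1
    have e : 1 - (1 + y)⁻¹ = y / (1 + y) := by field_simp; ring
    rw [e, le_div_iff₀ hpos]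
    nlinarith [pow_nonneg h 2, pow_nonneg h 3]
  · have hz : |(-y)| < 1 := by rw [abs_neg, abs_of_neg h]; linarith
    have h1 := Real.abs_log_sub_add_sum_range_le hz 1
    rw [Finset.sum_range_one] at h1
    norm_num at h1
    have h2 := (abs_le.1 h1).1
    have h3 : |y| = -y := abs_of_neg h
    have h4 : y ^ 2 / (1 - |y|) ≤ 2 * y ^ 2 := by
      rw [h3, div_le_iff₀ (by linarith)]
      nlinarith [sq_nonneg y]
    have h5 : |y| ^ 2 = y ^ 2 := sq_abs y
    nlinarith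

theorem wt_ge {m : ℕ} (hm : 1 ≤ m) {x : ℝ} (hx : -(m : ℝ) ≤ x) : Real.exp (x - x ^ 2 / m) ≤ wt m x := by
  have hm1 : (0 : ℝ) < m := by
    have : (1 : ℝ) ≤ m := by exact_mod_cast hm
    linarith
  have h1 : -(1 / 2) ≤ x / (2 * m) := by
    rw [le_div_iff₀ (by linarith)]
    linarith
  have h2 := exp_le_base h1
  calc Real.exp (x - x ^ 2 / m) = Real.exp (x / (2 * m) - 2 * (x / (2 * m)) ^ 2) ^ (2 * m) := by
        rw [← Real.exp_nat_mul]
        congr 1
        push_cast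
        field_simp
    _ ≤ (1 + x / (2 * m)) ^ (2 * m) := pow_le_pow_left₀ (Real.exp_pos _).le h2 _

theorem wt_mono {m : ℕ} {x y : ℝ} (hx : 0 ≤ x) (h : x ≤ y) : wt m x ≤ wt m y := by
  unfold wt
  have : (0 : ℝ) ≤ 2 * m := by positivity
  have h1 : x / (2 * m) ≤ y / (2 * m) := div_le_div_of_nonneg_right h this
  have h2 : 0 ≤ x / (2 * m) := by positivity
  exact pow_le_pow_left₀ (by linarith) (by linarith) _

theorem base_e {m : ℕ} (hm : 1 ≤ m) : (1 + 1 / (2 * m : ℝ)) ^ (2 * m) ≤ 3 := by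
  have h := wt_le_exp_abs hm 1
  unfold wt at h
  rw [abs_one] at h
  exact h.trans (by linarith [Real.exp_one_lt_d9])

/-- The expansion of the weight. -/
theorem wt_expand (m : ℕ) (x : ℝ) : wt m x = ∑ i ∈ range (2 * m + 1), (((2 * m).choose i : ℝ) * (1 / (2 * m : ℝ)) ^ i) * x ^ i := by
  unfold wt
  rw [add_comm, add_pow]
  refine Finset.sum_congr rfl fun i _ => ?_
  rw [one_pow, mul_one, div_eq_mul_one_div, mul_pow]
  ring

theorem wt_sum {m : ℕ} (hm : 1 ≤ m) : ∑ i ∈ range (2 * m + 1), ((2 * m).choose i : ℝ) * (1 / (2 * m : ℝ)) ^ i ≤ 3 := by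
  have h := wt_expand m 1
  simp only [one_pow, mul_one] at h
  rw [← h]
  unfold wt
  exact base_e hm

theorem wt_sq_expand (m : ℕ) (x : ℝ) : wt m x ^ 2 =
    ∑ i ∈ range (2 * (2 * m) + 1), (((2 * (2 * m)).choose i : ℝ) * (1 / (2 * m : ℝ)) ^ i) * x ^ i := by
  unfold wt
  rw [← pow_mul, add_comm, mul_comm (2 * m) 2, add_pow]
  refine Finset.sum_congr rfl fun i _ => ?_
  rw [one_pow, mul_one, div_eq_mul_one_div, mul_pow]
  ring

theorem wt_sq_sum {m : ℕ} (hm : 1 ≤ m) :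
    ∑ i ∈ range (2 * (2 * m) + 1), ((2 * (2 * m)).choose i : ℝ) * (1 / (2 * m : ℝ)) ^ i ≤ 9 := by
  have h := wt_sq_expand m 1
  simp only [one_pow, mul_one] at h
  rw [← h]
  have h1 := base_e hm
  have h0 := wt_nonneg m 1
  have h2 : wt m 1 ≤ 3 := by
    unfold wt
    exact h1
  nlinarith

theorem pow_le_exp (q : ℕ) (x : ℝ) : x ^ (2 * q) ≤ ((2 * q).factorial : ℝ) * (Real.exp x + Real.exp (-x)) := by
  have h1 := Real.pow_div_factorial_le_exp |x| (abs_nonneg x) (2 * q)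
  rw [(even_two_mul q).pow_abs, div_le_iff₀ (by positivity)] at h1
  have h2 : Real.exp |x| ≤ Real.exp x + Real.exp (-x) := by
    have e1 := Real.exp_pos x
    have e2 := Real.exp_pos (-x)
    rcases abs_cases x with ⟨h, _⟩ | ⟨h, _⟩ <;> rw [h] <;> linarith
  calc x ^ (2 * q) ≤ Real.exp |x| * ((2 * q).factorial : ℝ) := h1
    _ ≤ (Real.exp x + Real.exp (-x)) * ((2 * q).factorial : ℝ) := mul_le_mul_of_nonneg_right h2 (by positivity)
    _ = _ := mul_comm _ _

theorem exp_abs_le (x : ℝ) : Real.exp |x| ≤ Real.exp x + Real.exp (-x) := by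
  have e1 := Real.exp_pos x
  have e2 := Real.exp_pos (-x)
  rcases abs_cases x with ⟨h, _⟩ | ⟨h, _⟩ <;> rw [h] <;> linarith

/-- Comparison of exponentials. -/
theorem exp_beat (x y c : ℝ) (h : x < y) : ∃ l0 : ℝ, ∀ l : ℝ, l0 ≤ l → Real.exp (x * l + c) ≤ Real.exp (y * l) := by
  refine ⟨|c| / (y - x), fun l hl => ?_⟩
  rw [Real.exp_le_exp]
  rw [div_le_iff₀ (by linarith)] at hl
  have := le_abs_self c
  linarith

end Pool.Agent.U62.LD
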