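import Pool.Agent.X280.BP.Clt
import Pool.Agent.U62.LD.Wt

/-!
# Large deviations: the independent model
-/

set_option autoImplicit false
set_option linter.unusedSectionVars false

namespace Pool.Agent.U62.LD

open Finset Filter Topology Pool.Agent.X280.BP
open Pool.Agent.Y722.HS (EM EB red)

variable {n : ℕ}

/-- The product of the primes. -/
def MM (I : Finset ℕ) : ℕ := ∏ p ∈ I, p

theorem MM_ne {I : Finset ℕ} (hI : ∀ p ∈ I, p.Prime) : MM I ≠ 0 :=
  Finset.prod_ne_zero_iff.2 fun p hp => (hI p hp).ne_zero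

/-- Reduction from the big modulus. -/
def cst (I : Finset ℕ) (p : ℕ) (r : Fin n → ZMod (MM I)) : Fin n → ZMod p := fun j => ((r j).cast : ZMod p)

theorem cst_red {I : Finset ℕ} {p : ℕ} (hp : p ∈ I) (c : Fin n → ℤ) : cst I p (red (MM I) c) = red p c := by
  funext j
  unfold cst red
  have hd : p ∣ MM I := Finset.dvd_prod_of_mem (fun p => p) hp
  rw [ZMod.cast_intCast hd]

/-- The local mean. -/
noncomputable def lme (p : ℕ) (f : (Fin n → ZMod p) → ℝ) : ℝ :=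
  if h : p = 0 then 0 else haveI : NeZero p := ⟨h⟩; EM p f

theorem lme_eq (p : ℕ) [hp : NeZero p] (f : (Fin n → ZMod p) → ℝ) : lme p f = EM p f := by
  unfold lme
  rw [dif_neg hp.out]

theorem lim_big {M : ℕ} [NeZero M] (F : (Fin n → ZMod M) → ℝ) :
    Tendsto (fun H => EB H (fun c => F (red M c))) atTop (𝓝 (EM M F)) := by
  have h := lim_one_c M (fun r => (F r : ℂ))
  rw [EMc_ofReal] at h
  have e : ∀ H, EBc H (fun c : Fin n → ℤ => ((F (red M c) : ℝ) : ℂ)) = ((EB H (fun c => F (red M c)) : ℝ) : ℂ) := fun H => EBc_ofReal H _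
  simp only [e] at h
  exact_mod_cast (Complex.continuous_re.tendsto _).comp h

theorem Ep_ofReal (p : ℕ) (f : (Fin n → ZMod p) → ℝ) : Ep p (fun c => (f c : ℂ)) = ((lme p f : ℝ) : ℂ) := by
  unfold Ep lme
  split_ifs with h
  · simp
  · have : NeZero p := ⟨h⟩
    exact EMc_ofReal p f

/-- **The mean value of a product over the primes.** -/
theorem EM_prod {I : Finset ℕ} (hI : ∀ p ∈ I, p.Prime) [NeZero (MM I)] (f : ∀ p : ℕ, (Fin n → ZMod p) → ℝ) :
    EM (MM I) (fun r => ∏ p ∈ I, f p (cst I p r)) = ∏ p ∈ I, lme p (f p) := by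
  have h1 := lim_big (M := MM I) (fun r : Fin n → ZMod (MM I) => ∏ p ∈ I, f p (cst I p r))
  have h2 := lim_prod_c (ι := Fin n) I hI (fun p c => (f p c : ℂ))
  have e1 : ∀ H, EBc H (fun c : Fin n → ℤ => ∏ p ∈ I, (f p (red p c) : ℂ)) =
      ((EB H (fun c => ∏ p ∈ I, f p (red p c)) : ℝ) : ℂ) := by
    intro H
    rw [← EBc_ofReal]
    congr 1
    funext c
    push_cast
    rfl
  have e2 : ∏ p ∈ I, Ep p (fun c : Fin n → ZMod p => (f p c : ℂ)) = ((∏ p ∈ I, lme p (f p) : ℝ) : ℂ) := by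
    push_cast
    exact Finset.prod_congr rfl fun p _ => Ep_ofReal p (f p)
  simp only [e1] at h2
  rw [e2] at h2
  have h3 : Tendsto (fun H => EB H (fun c => ∏ p ∈ I, f p (red p c))) atTop (𝓝 (∏ p ∈ I, lme p (f p))) := by
    exact_mod_cast (Complex.continuous_re.tendsto _).comp h2
  have e3 : ∀ c : Fin n → ℤ, ∏ p ∈ I, f p (cst I p (red (MM I) c)) = ∏ p ∈ I, f p (red p c) := by
    intro c
    exact Finset.prod_congr rfl fun p hp => by rw [cst_red hp]
  simp only [e3] at h1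
  exact tendsto_nhds_unique h1 h3

/-- **The moments over a box.** -/
theorem mom_big {I : Finset ℕ} (hI : ∀ p ∈ I, p.Prime) [NeZero (MM I)] {x : ℕ} (hx : ∀ p ∈ I, p ≤ x)
    (Z : ∀ p : ℕ, (Fin n → ZMod p) → ℝ) {b : ℝ} (hb : ∀ p ∈ I, ∀ c, |Z p c| ≤ b) (i H : ℕ) (hH : x ^ i ≤ 2 * H + 1) :
    |EB H (fun c => (∑ p ∈ I, Z p (red p c)) ^ i) - EM (MM I) (fun r => (∑ p ∈ I, Z p (cst I p r)) ^ i)| ≤
      2 ^ n * ((x : ℝ) ^ i / (2 * H + 1)) * (I.card * b) ^ i := by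
  have h1 := lim_big (M := MM I) (fun r : Fin n → ZMod (MM I) => (∑ p ∈ I, Z p (cst I p r)) ^ i)
  have e3 : ∀ c : Fin n → ℤ, (∑ p ∈ I, Z p (cst I p (red (MM I) c))) ^ i = (∑ p ∈ I, Z p (red p c)) ^ i := by
    intro c
    congr 1
    exact Finset.sum_congr rfl fun p hp => by rw [cst_red hp]
  simp only [e3] at h1
  have h2 : Tendsto (fun H' : ℕ => |EB H (fun c => (∑ p ∈ I, Z p (red p c)) ^ i) - EB H' (fun c => (∑ p ∈ I, Z p (red p c)) ^ i)|)
      atTop (𝓝 |EB H (fun c => (∑ p ∈ I, Z p (red p c)) ^ i) - EM (MM I) (fun r => (∑ p ∈ I, Z p (cst I p r)) ^ i)|) :=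
    (tendsto_const_nhds.sub h1).abs
  have h3 : Tendsto (fun H' : ℕ => 2 ^ n * ((x : ℝ) ^ i / (2 * H + 1) + (x : ℝ) ^ i / (2 * H' + 1)) * (∑ _p ∈ I, b) ^ i)
      atTop (𝓝 (2 ^ n * ((x : ℝ) ^ i / (2 * H + 1) + 0) * (∑ _p ∈ I, b) ^ i)) :=
    ((tendsto_const_nhds.add (tendsto_ratio ((x : ℝ) ^ i))).const_mul _).mul_const _
  have h4 := le_of_tendsto_of_tendsto h2 h3 (by
    filter_upwards [eventually_ge_atTop (x ^ i)] with H' hH'
    have h := mom_diff I x (fun p hp => ⟨(hI p hp).ne_zero, hx p hp⟩) Z (fun _ => b) hb i H H' hH (by omega)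
    rw [Fintype.card_fin] at h
    exact h)
  rw [add_zero, Finset.sum_const, nsmul_eq_mul] at h4
  exact h4

theorem EM_mono2 (p : ℕ) [NeZero p] (f g : (Fin n → ZMod p) → ℝ) (h : ∀ c, f c ≤ g c) : EM p f ≤ EM p g := by
  unfold EM
  gcongr
  exact h _

theorem EM_sum2 {κ : Type*} (s : Finset κ) (p : ℕ) [NeZero p] (f : κ → (Fin n → ZMod p) → ℝ) :
    EM p (fun c => ∑ i ∈ s, f i c) = ∑ i ∈ s, EM p (f i) := by
  unfold EM
  rw [Finset.sum_comm, Finset.sum_div]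

theorem EM_mul2 (p : ℕ) [NeZero p] (t : ℝ) (f : (Fin n → ZMod p) → ℝ) : EM p (fun c => t * f c) = t * EM p f := by
  unfold EM
  rw [← Finset.mul_sum, mul_div_assoc]

theorem EM_add2 (p : ℕ) [NeZero p] (f g : (Fin n → ZMod p) → ℝ) : EM p (fun c => f c + g c) = EM p f + EM p g := by
  unfold EM
  rw [Finset.sum_add_distrib, add_div]

theorem EM_one2 (p : ℕ) [NeZero p] : EM p (fun _ : Fin n → ZMod p => (1 : ℝ)) = 1 := by
  unfold EM
  have hp : (0 : ℝ) < p := by exact_mod_cast Nat.pos_of_ne_zero (NeZero.ne p)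
  rw [Finset.sum_const, nsmul_eq_mul, mul_one, Finset.card_univ, Fintype.card_fun, ZMod.card, Fintype.card_fin]
  push_cast
  exact div_self (by positivity)

/-- Closeness of the moments gives closeness of the means of polynomials. -/
theorem poly_close {M H N : ℕ} [NeZero M] (L : (Fin n → ℤ) → ℝ) (L' : (Fin n → ZMod M) → ℝ) (a : ℕ → ℝ) (ha : ∀ i, 0 ≤ a i)
    {η : ℝ} (h : ∀ i, i < N → |EB H (fun c => L c ^ i) - EM M (fun r => L' r ^ i)| ≤ η) :
    |EB H (fun c => ∑ i ∈ range N, a i * L c ^ i) - EM M (fun r => ∑ i ∈ range N, a i * L' r ^ i)| ≤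
      (∑ i ∈ range N, a i) * η := by
  rw [EB_sum, EM_sum2, ← Finset.sum_sub_distrib, Finset.sum_mul]
  refine (Finset.abs_sum_le_sum_abs _ _).trans (Finset.sum_le_sum fun i hi => ?_)
  rw [EB_mul_left, EM_mul2, ← mul_sub, abs_mul, abs_of_nonneg (ha i)]
  exact mul_le_mul_of_nonneg_left (h i (Finset.mem_range.1 hi)) (ha i)

theorem wt_close {M H m : ℕ} [NeZero M] (hm : 1 ≤ m) (L : (Fin n → ℤ) → ℝ) (L' : (Fin n → ZMod M) → ℝ) {η : ℝ} (hη : 0 ≤ η)
    (h : ∀ i, i ≤ 4 * m → |EB H (fun c => L c ^ i) - EM M (fun r => L' r ^ i)| ≤ η) :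
    |EB H (fun c => wt m (L c)) - EM M (fun r => wt m (L' r))| ≤ 3 * η ∧
    |EB H (fun c => wt m (L c) ^ 2) - EM M (fun r => wt m (L' r) ^ 2)| ≤ 9 * η := by
  constructor
  · have h1 := poly_close (N := 2 * m + 1) L L' (fun i => ((2 * m).choose i : ℝ) * (1 / (2 * m : ℝ)) ^ i) (fun i => by positivity)
      (fun i hi => h i (by omega))
    simp only [← wt_expand] at h1
    exact h1.trans (mul_le_mul_of_nonneg_right (wt_sum hm) hη)
  · have h1 := poly_close (N := 2 * (2 * m) + 1) L L' (fun i => ((2 * (2 * m)).choose i : ℝ) * (1 / (2 * m : ℝ)) ^ i)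
      (fun i => by positivity) (fun i hi => h i (by omega))
    simp only [← wt_sq_expand] at h1
    exact h1.trans (mul_le_mul_of_nonneg_right (wt_sq_sum hm) hη)

end Pool.Agent.U62.LD
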