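import Pool.Agent.U62.LD.Tr
import Pool.Agent.X280.HG.LogW

/-!
# Several random hyperelliptic curves
-/

set_option autoImplicit false
set_option linter.unusedSectionVars false

namespace Pool.Agent.U62.LD

open Finset Filter Topology Pool.Agent.X280.BP Pool.Agent.U62.BM Polynomial
open Pool.Agent.Y722.HS (EM EB red)
open Pool.Agent.U62.RB (prop lmean lcov PerF lmean_red perF_red joint_std Lu gd gd_01 tr_poly_good poly_bound lmean_res res
  res_nat evF EM_evF usp_vals)
open Pool.Agent.Y57.FD.HM (tr tr_le)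
open Pool.Agent.Y57.FD.Mom (usp)

variable {N : ℕ} {S : Type} [DecidableEq S] [Fintype S]

/-- The representatives. -/
def vl {d p : ℕ} (x : Fin d → ZMod p) : Fin d → ℕ := fun i => (x i).val

theorem EM_val (d p : ℕ) [NeZero p] (G : (Fin d → ℕ) → ℝ) :
    EM p (fun x : Fin d → ZMod p => G (vl x)) = Pool.Agent.TH894.NE.mean d p G := by
  rw [← lmean_res, ← EM_evF (fun p c => G (res p c)) p]
  congr 1
  funext x
  show G (vl x) = G (res p fun i => ((x i).val : ℤ))
  rw [res_nat fun i => ZMod.val_lt (x i)]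
  rfl

/-- The functions of one curve. -/
noncomputable def hbl (g : Fin N → ℕ) (φ : S → ℝ[X]) (z : S) (b : Fin N) (s : S) (p : ℕ) (x : Fin (2 * g b + 1) → ZMod p) : ℝ :=
  if s = z then 1 else gd (g b) p (vl x) * (φ s).eval (tr (g b) p (vl x))

/-- The orthonormality. -/
structure Ort (g : Fin N → ℕ) (φ : S → ℝ[X]) (z : S) : Prop where
  deg : ∀ b s, s ≠ z → (φ s).natDegree ≤ g b + 1
  mean : ∀ b s, s ≠ z → Lu (g b) (φ s) = 0
  prod : ∀ b s t, s ≠ z → t ≠ z → Lu (g b) (φ s * φ t) = if s = t then 1 else 0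

theorem blk_of (g : Fin N → ℕ) (φ : S → ℝ[X]) (z : S) (h : Ort g φ z) :
    ∃ B C : ℝ, 1 ≤ B ∧ 0 ≤ C ∧ Blk (κ := fun b => Fin (2 * g b + 1)) B C z (hbl g φ z) := by
  classical
  have hch1 : ∀ b s, ∃ C : ℝ, 0 ≤ C ∧ (s ≠ z → ∀ p : ℕ, p.Prime →
      |Pool.Agent.TH894.NE.mean (2 * g b + 1) p (fun n => gd (g b) p n * (φ s).eval (tr (g b) p n))| ≤ C / p) := by
    intro b s
    by_cases hs : s = z
    · exact ⟨0, le_rfl, fun h' => absurd hs h'⟩
    · obtain ⟨C, hC, h1⟩ := tr_poly_good (g b) (φ s) ((h.deg b s hs).trans (by omega))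
      refine ⟨C, hC, fun _ p hp => ?_⟩
      have h2 := h1 p hp
      rwa [h.mean b s hs, sub_zero] at h2
  have hch2 : ∀ b s t, ∃ C : ℝ, 0 ≤ C ∧ (s ≠ z → t ≠ z → ∀ p : ℕ, p.Prime →
      |Pool.Agent.TH894.NE.mean (2 * g b + 1) p (fun n => gd (g b) p n * (φ s * φ t).eval (tr (g b) p n)) -
        if s = t then 1 else 0| ≤ C / p) := by
    intro b s t
    by_cases hs : s = z
    · exact ⟨0, le_rfl, fun h' => absurd hs h'⟩
    · by_cases ht : t = z
      · exact ⟨0, le_rfl, fun _ h' => absurd ht h'⟩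
      · obtain ⟨C, hC, h1⟩ := tr_poly_good (g b) (φ s * φ t) (by
          have h2 := natDegree_mul_le (p := φ s) (q := φ t)
          have h3 := h.deg b s hs
          have h4 := h.deg b t ht
          omega)
        refine ⟨C, hC, fun _ _ p hp => ?_⟩
        have h2 := h1 p hp
        rwa [h.prod b s t hs ht] at h2
  choose C1 hC1 hc1 using hch1
  choose C2 hC2 hc2 using hch2
  obtain ⟨S1, hS1⟩ : ∃ x : ℝ, x = ∑ b, ∑ s, C1 b s := ⟨_, rfl⟩
  obtain ⟨S2, hS2⟩ : ∃ x : ℝ, x = ∑ b, ∑ s, ∑ t, C2 b s t := ⟨_, rfl⟩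
  obtain ⟨BB, hBB⟩ : ∃ x : ℝ, x = ∑ b, ∑ s, ∑ m ∈ (φ s).support, |(φ s).coeff m| * (2 * g b : ℝ) ^ m := ⟨_, rfl⟩
  have hS10 : 0 ≤ S1 := hS1 ▸ Finset.sum_nonneg fun b _ => Finset.sum_nonneg fun s _ => hC1 b s
  have hS20 : 0 ≤ S2 := hS2 ▸ Finset.sum_nonneg fun b _ => Finset.sum_nonneg fun s _ => Finset.sum_nonneg fun t _ => hC2 b s t
  have hin : ∀ b s, 0 ≤ ∑ m ∈ (φ s).support, |(φ s).coeff m| * (2 * g b : ℝ) ^ m := fun b s =>
    Finset.sum_nonneg fun m _ => by positivity
  have hBB0 : 0 ≤ BB := hBB ▸ Finset.sum_nonneg fun b _ => Finset.sum_nonneg fun s _ => hin b s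
  have l1 : ∀ b s, C1 b s ≤ S1 := by
    intro b s
    rw [hS1]
    exact (Finset.single_le_sum (f := C1 b) (fun s _ => hC1 b s) (Finset.mem_univ s)).trans
      (Finset.single_le_sum (f := fun b => ∑ s, C1 b s) (fun b _ => Finset.sum_nonneg fun s _ => hC1 b s) (Finset.mem_univ b))
  have l2 : ∀ b s t, C2 b s t ≤ S2 := by
    intro b s t
    rw [hS2]
    refine (Finset.single_le_sum (f := C2 b s) (fun t _ => hC2 b s t) (Finset.mem_univ t)).trans ?_
    refine (Finset.single_le_sum (f := fun s => ∑ t, C2 b s t) (fun s _ => Finset.sum_nonneg fun t _ => hC2 b s t)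
      (Finset.mem_univ s)).trans ?_
    exact Finset.single_le_sum (f := fun b => ∑ s, ∑ t, C2 b s t) (fun b _ => Finset.sum_nonneg fun s _ =>
      Finset.sum_nonneg fun t _ => hC2 b s t) (Finset.mem_univ b)
  have l3 : ∀ b s, ∑ m ∈ (φ s).support, |(φ s).coeff m| * (2 * g b : ℝ) ^ m ≤ BB := by
    intro b s
    rw [hBB]
    exact (Finset.single_le_sum (f := fun s => ∑ m ∈ (φ s).support, |(φ s).coeff m| * (2 * g b : ℝ) ^ m) (fun s _ => hin b s)
      (Finset.mem_univ s)).trans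
      (Finset.single_le_sum (f := fun b => ∑ s, ∑ m ∈ (φ s).support, |(φ s).coeff m| * (2 * g b : ℝ) ^ m)
        (fun b _ => Finset.sum_nonneg fun s _ => hin b s) (Finset.mem_univ b))
  refine ⟨BB + 1, S1 + S2, by linarith, by positivity, ⟨by linarith, ?_, ?_, ?_⟩⟩
  · intro b p x
    unfold hbl
    rw [if_pos rfl]
  · intro b s p hp x
    unfold hbl
    split_ifs with hs
    · rw [abs_one]
      linarith
    · have h2 := (poly_bound (φ s) (2 * g b) (tr_le (g b) p (vl x))).trans (l3 b s)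
      rcases gd_01 (g b) p (vl x) with h3 | ⟨h3, _⟩
      · rw [h3, one_mul]
        linarith
      · rw [h3, zero_mul, abs_zero]
        linarith
  · intro b s t p hp _
    have hp0 : (0 : ℝ) < p := by exact_mod_cast hp.pos
    have hgood : ∀ {x : ℝ}, x ≤ S1 + S2 → x / p ≤ (S1 + S2) / p := fun hx => div_le_div_of_nonneg_right hx hp0.le
    by_cases hs : s = z
    · by_cases ht : t = z
      · have e : (fun x : Fin (2 * g b + 1) → ZMod p => hbl g φ z b s p x * hbl g φ z b t p x) = fun _ => 1 := by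
          funext x
          unfold hbl
          rw [if_pos hs, if_pos ht, one_mul]
        rw [e, EM_const', if_pos (hs.trans ht.symm), sub_self, abs_zero]
        positivity
      · have e : (fun x : Fin (2 * g b + 1) → ZMod p => hbl g φ z b s p x * hbl g φ z b t p x) =
            fun x => (fun n => gd (g b) p n * (φ t).eval (tr (g b) p n)) (vl x) := by
          funext x
          unfold hbl
          rw [if_pos hs, if_neg ht, one_mul]
        rw [e, EM_val (2 * g b + 1) p (fun n => gd (g b) p n * (φ t).eval (tr (g b) p n)),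
          if_neg (fun h' => ht (h'.symm.trans hs)), sub_zero]
        exact (hc1 b t ht p hp).trans (hgood (by linarith [l1 b t]))
    · by_cases ht : t = z
      · have e : (fun x : Fin (2 * g b + 1) → ZMod p => hbl g φ z b s p x * hbl g φ z b t p x) =
            fun x => (fun n => gd (g b) p n * (φ s).eval (tr (g b) p n)) (vl x) := by
          funext x
          unfold hbl
          rw [if_neg hs, if_pos ht, mul_one]
        rw [e, EM_val (2 * g b + 1) p (fun n => gd (g b) p n * (φ s).eval (tr (g b) p n)),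
          if_neg (fun h' => hs (h'.trans ht)), sub_zero]
        exact (hc1 b s hs p hp).trans (hgood (by linarith [l1 b s]))
      · have e : (fun x : Fin (2 * g b + 1) → ZMod p => hbl g φ z b s p x * hbl g φ z b t p x) =
            fun x => (fun n => gd (g b) p n * (φ s * φ t).eval (tr (g b) p n)) (vl x) := by
          funext x
          unfold hbl
          rw [if_neg hs, if_neg ht]
          dsimp only
          rw [eval_mul]
          rcases gd_01 (g b) p (vl x) with h3 | ⟨h3, _⟩ <;> rw [h3] <;> ring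
        rw [e, EM_val (2 * g b + 1) p (fun n => gd (g b) p n * (φ s * φ t).eval (tr (g b) p n))]
        exact (hc2 b s t hs ht p hp).trans (hgood (by linarith [l2 b s t]))

theorem Lu_mon (g m : ℕ) (a : ℝ) : Lu g (monomial m a) = a * usp g m := by
  unfold Lu
  rw [Polynomial.sum_monomial_index]
  rw [zero_mul]

theorem Lu_add (g : ℕ) (p q : ℝ[X]) : Lu g (p + q) = Lu g p + Lu g q := by
  unfold Lu
  rw [Polynomial.sum_add_index]
  · intro i
    rw [zero_mul]
  · intro i a b
    ring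

/-- The three polynomials `1`, `X` and `(X ^ 2 - 1) / √2`. -/
noncomputable def ph (s : Fin 3) : ℝ[X] :=
  if s = 0 then monomial 0 1 else if s = 1 then monomial 1 1 else monomial 2 (1 / √2) + monomial 0 (-(1 / √2))

theorem ph_ort {g : Fin N → ℕ} (hg : ∀ b, 2 ≤ g b) : Ort g ph 0 := by
  have hs : (1 / √2 : ℝ) * (1 / √2) = 1 / 2 := by
    rw [div_mul_div_comm, Real.mul_self_sqrt (by norm_num)]
    norm_num
  have c1 : ph 1 = monomial 1 1 := by
    unfold ph
    rw [if_neg (by decide), if_pos rfl]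
  have c2 : ph 2 = monomial 2 (1 / √2) + monomial 0 (-(1 / √2)) := by
    unfold ph
    rw [if_neg (by decide), if_neg (by decide)]
  refine ⟨?_, ?_, ?_⟩
  · intro b s hs0
    have := hg b
    fin_cases s
    · exact absurd rfl hs0
    · show (ph 1).natDegree ≤ _
      rw [c1]
      exact (natDegree_monomial_le _).trans (by omega)
    · show (ph 2).natDegree ≤ _
      rw [c2]
      refine (natDegree_add_le _ _).trans (max_le ?_ ?_)
      · exact (natDegree_monomial_le _).trans (by omega)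
      · exact (natDegree_monomial_le _).trans (by omega)
  · intro b s hs0
    obtain ⟨u0, u1, u2, u3, u4⟩ := usp_vals (hg b)
    fin_cases s
    · exact absurd rfl hs0
    · show Lu (g b) (ph 1) = 0
      rw [c1, Lu_mon, u1, mul_zero]
    · show Lu (g b) (ph 2) = 0
      rw [c2, Lu_add, Lu_mon, Lu_mon, u2, u0]
      ring
  · intro b s t hs0 ht0
    obtain ⟨u0, u1, u2, u3, u4⟩ := usp_vals (hg b)
    fin_cases s <;> fin_cases t
    · exact absurd rfl hs0
    · exact absurd rfl hs0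
    · exact absurd rfl hs0
    · exact absurd rfl ht0
    · show Lu (g b) (ph 1 * ph 1) = if (1 : Fin 3) = 1 then 1 else 0
      rw [if_pos rfl, c1, monomial_mul_monomial, Lu_mon, u2]
      norm_num
    · show Lu (g b) (ph 1 * ph 2) = if (1 : Fin 3) = 2 then 1 else 0
      rw [if_neg (by decide), c1, c2, mul_add, monomial_mul_monomial, monomial_mul_monomial, Lu_add, Lu_mon, Lu_mon, u3, u1]
      ring
    · exact absurd rfl ht0
    · show Lu (g b) (ph 2 * ph 1) = if (2 : Fin 3) = 1 then 1 else 0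
      rw [if_neg (by decide), c1, c2, add_mul, monomial_mul_monomial, monomial_mul_monomial, Lu_add, Lu_mon, Lu_mon, u3, u1]
      ring
    · show Lu (g b) (ph 2 * ph 2) = if (2 : Fin 3) = 2 then 1 else 0
      rw [if_pos rfl, c2, add_mul, mul_add, mul_add, monomial_mul_monomial, monomial_mul_monomial, monomial_mul_monomial,
        monomial_mul_monomial, Lu_add, Lu_add, Lu_add, Lu_mon, Lu_mon, Lu_mon, Lu_mon, u4, u2, u0]
      linear_combination (2 : ℝ) * hs

/-- The pairs. -/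
abbrev Prs (N : ℕ) : Type := {a : Fin N × Fin N // a.1 ≤ a.2}

/-- The multi-index of a pair. -/
def mi (i j b : Fin N) : Fin 3 := if i = b ∧ j = b then 2 else if i = b ∨ j = b then 1 else 0

theorem mi_two {i j b : Fin N} : mi i j b = 2 ↔ i = b ∧ j = b := by
  unfold mi
  split_ifs with h1 h2
  · exact ⟨fun _ => h1, fun _ => rfl⟩
  · exact ⟨fun h => absurd h (by decide), fun h => absurd h h1⟩
  · exact ⟨fun h => absurd h (by decide), fun h => absurd h h1⟩

theorem mi_zero {i j b : Fin N} : mi i j b = 0 ↔ i ≠ b ∧ j ≠ b := by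
  unfold mi
  split_ifs with h1 h2
  · exact ⟨fun h => absurd h (by decide), fun h => absurd h1.1 h.1⟩
  · refine ⟨fun h => absurd h (by decide), fun h => ?_⟩
    rcases h2 with h2 | h2
    · exact absurd h2 h.1
    · exact absurd h2 h.2
  · push Not at h2
    exact ⟨fun _ => h2, fun _ => rfl⟩

theorem mi_inj {a a' : Prs N} (h : mi a.1.1 a.1.2 = mi a'.1.1 a'.1.2) : a = a' := by
  obtain ⟨⟨i, j⟩, hij⟩ := a
  obtain ⟨⟨i', j'⟩, hij'⟩ := a'
  dsimp only at hij hij' h
  have hz : ∀ b, (i ≠ b ∧ j ≠ b) ↔ (i' ≠ b ∧ j' ≠ b) := fun b => by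
    rw [← mi_zero, ← mi_zero, h]
  have h1 : i' = i ∨ j' = i := by
    by_contra hc
    push Not at hc
    exact ((hz i).2 ⟨hc.1, hc.2⟩).1 rfl
  have h2 : i' = j ∨ j' = j := by
    by_contra hc
    push Not at hc
    exact ((hz j).2 ⟨hc.1, hc.2⟩).2 rfl
  have h3 : i = i' ∨ j = i' := by
    by_contra hc
    push Not at hc
    exact ((hz i').1 ⟨hc.1, hc.2⟩).1 rfl
  have h4 : i = j' ∨ j = j' := by
    by_contra hc
    push Not at hc
    exact ((hz j').1 ⟨hc.1, hc.2⟩).2 rfl
  have e1 : i = i' := by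
    rcases h1 with h1 | h1
    · exact h1.symm
    · rcases h3 with h3 | h3
      · exact h3
      · subst h1 h3
        exact le_antisymm hij hij'
  have e2 : j = j' := by
    rcases h2 with h2 | h2
    · rcases h4 with h4 | h4
      · subst h2 h4
        exact e1.symm
      · exact h4
    · exact h2.symm
  subst e1 e2
  rfl

/-- The functions of the pairs. -/
noncomputable def pairF (g : Fin N → ℕ) (i j : Fin N) (p : ℕ) (c : (Σ b, Fin (2 * g b + 1)) → ZMod p) : ℝ :=
  if i = j then gd (g i) p (vl fun k => c ⟨i, k⟩) * ((1 / √2) * (tr (g i) p (vl fun k => c ⟨i, k⟩) ^ 2 - 1)) else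
    tr (g i) p (vl fun k => c ⟨i, k⟩) * tr (g j) p (vl fun k => c ⟨j, k⟩)

theorem gd_tr (g p : ℕ) (n : Fin (2 * g + 1) → ℕ) : gd g p n * tr g p n = tr g p n := by
  rcases gd_01 g p n with h | ⟨h, h'⟩
  · rw [h, one_mul]
  · rw [h', mul_zero]

theorem PF_pair (g : Fin N → ℕ) (i j : Fin N) (p : ℕ) (c : (Σ b, Fin (2 * g b + 1)) → ZMod p) :
    PF (κ := fun b => Fin (2 * g b + 1)) (hbl g ph 0) (mi i j) p c = pairF g i j p c := by
  have c1 : ph 1 = monomial 1 1 := by
    unfold ph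
    rw [if_neg (by decide), if_pos rfl]
  have c2 : ph 2 = monomial 2 (1 / √2) + monomial 0 (-(1 / √2)) := by
    unfold ph
    rw [if_neg (by decide), if_neg (by decide)]
  have hone : ∀ b, mi i j b = 0 → hbl g ph 0 b (mi i j b) p (fun k => c ⟨b, k⟩) = 1 := by
    intro b hb
    unfold hbl
    rw [if_pos hb]
  unfold PF pairF
  by_cases hij : i = j
  · subst hij
    rw [if_pos rfl, Finset.prod_eq_single i]
    · have h2 : mi i i i = 2 := mi_two.2 ⟨rfl, rfl⟩
      rw [h2]
      unfold hbl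
      rw [if_neg (by decide), c2, eval_add, eval_monomial, eval_monomial]
      ring
    · intro b _ hb
      exact hone b (mi_zero.2 ⟨Ne.symm hb, Ne.symm hb⟩)
    · intro h
      exact absurd (Finset.mem_univ i) h
  · rw [if_neg hij, Finset.prod_eq_mul i j hij]
    · have h1 : mi i j i = 1 := by
        unfold mi
        rw [if_neg (fun h => hij h.2.symm), if_pos (Or.inl rfl)]
      have h2 : mi i j j = 1 := by
        unfold mi
        rw [if_neg (fun h => hij h.1), if_pos (Or.inr rfl)]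
      rw [h1, h2]
      unfold hbl
      rw [if_neg (by decide), c1, eval_monomial, eval_monomial, if_neg (by decide), one_mul, one_mul, pow_one, pow_one, gd_tr, gd_tr]
    · intro b _ hb
      exact hone b (mi_zero.2 ⟨Ne.symm hb.1, Ne.symm hb.2⟩)
    · intro h
      exact absurd (Finset.mem_univ i) h
    · intro h
      exact absurd (Finset.mem_univ j) h

/-- The index type. -/
abbrev Ig (g : Fin N → ℕ) : Type := Σ b : Fin N, Fin (2 * g b + 1)

theorem pair_loc {g : Fin N → ℕ} (hg : ∀ b, 2 ≤ g b) : ∃ B C : ℝ, 0 < B ∧ 0 < C ∧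
    Loc (ι := Ig g) (Fintype.card (Prs N)) B C (fun i p c => pairF g ((Fintype.equivFin (Prs N)).symm i).1.1
      ((Fintype.equivFin (Prs N)).symm i).1.2 p c) := by
  obtain ⟨B, C, hB, hC, hb⟩ := blk_of g ph 0 (ph_ort hg)
  have h := PF_loc (k := Fintype.card (Prs N)) hC hb (fun i => mi ((Fintype.equivFin (Prs N)).symm i).1.1
    ((Fintype.equivFin (Prs N)).symm i).1.2) (fun i j hij => by
      exact (Fintype.equivFin (Prs N)).symm.injective (mi_inj hij)) (fun i h0 => by
      have h1 := congrFun h0 ((Fintype.equivFin (Prs N)).symm i).1.1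
      exact (mi_zero.1 h1).1 rfl)
  have hM : 0 ≤ (N : ℝ) * (1 + C) ^ N * C := by positivity
  refine ⟨B ^ N, N * (1 + C) ^ N * C + 1, by positivity, by linarith, ⟨?_, ?_, ?_⟩⟩
  · intro i p hp x
    have := h.bd i p hp x
    rwa [PF_pair] at this
  · intro i p hp _
    have hp0 : (0 : ℝ) < p := by exact_mod_cast hp.pos
    have h1 := h.mean i p hp
    have e : PF (κ := fun b => Fin (2 * g b + 1)) (hbl g ph 0) (mi ((Fintype.equivFin (Prs N)).symm i).1.1
      ((Fintype.equivFin (Prs N)).symm i).1.2) p = fun c => pairF g ((Fintype.equivFin (Prs N)).symm i).1.1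
      ((Fintype.equivFin (Prs N)).symm i).1.2 p c := funext fun c => PF_pair g _ _ p c
    rw [e] at h1
    exact h1.trans (div_le_div_of_nonneg_right (by linarith) hp0.le)
  · intro i j p hp _
    have hp0 : (0 : ℝ) < p := by exact_mod_cast hp.pos
    have h1 := h.cov2 i j p hp
    simp only [PF_pair] at h1
    exact h1.trans (div_le_div_of_nonneg_right (by linarith) hp0.le)

theorem forall_pairs {Q : Fin N → Fin N → Prop} :
    (∀ i : Fin (Fintype.card (Prs N)), Q ((Fintype.equivFin (Prs N)).symm i).1.1 ((Fintype.equivFin (Prs N)).symm i).1.2) ↔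
      ∀ i j, i ≤ j → Q i j := by
  constructor
  · intro h i j hij
    have := h (Fintype.equivFin (Prs N) ⟨(i, j), hij⟩)
    rwa [Equiv.symm_apply_apply] at this
  · intro h i
    exact h _ _ ((Fintype.equivFin (Prs N)).symm i).2

theorem sum_pairs {M : Type} [AddCommMonoid M] (f : Fin N → Fin N → M) :
    ∑ i : Fin (Fintype.card (Prs N)), f ((Fintype.equivFin (Prs N)).symm i).1.1 ((Fintype.equivFin (Prs N)).symm i).1.2 =
      ∑ i, ∑ j, if i ≤ j then f i j else 0 := by
  classical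
  rw [Equiv.sum_comp (Fintype.equivFin (Prs N)).symm (fun a : Prs N => f a.1.1 a.1.2)]
  rw [← Finset.sum_product', ← Finset.sum_filter]
  exact (Finset.sum_subtype (Finset.univ.filter fun x : Fin N × Fin N => x.1 ≤ x.2) (fun x => by simp)
    (fun x => f x.1 x.2)).symm

theorem prod_pairs {M : Type} [CommMonoid M] (f : Fin N → Fin N → M) :
    ∏ i : Fin (Fintype.card (Prs N)), f ((Fintype.equivFin (Prs N)).symm i).1.1 ((Fintype.equivFin (Prs N)).symm i).1.2 =
      ∏ i, ∏ j, if i ≤ j then f i j else 1 := by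
  classical
  rw [Equiv.prod_comp (Fintype.equivFin (Prs N)).symm (fun a : Prs N => f a.1.1 a.1.2)]
  rw [← Finset.prod_product', ← Finset.prod_filter]
  exact (Finset.prod_subtype (Finset.univ.filter fun x : Fin N × Fin N => x.1 ≤ x.2) (fun x => by simp)
    (fun x => f x.1 x.2)).symm

/-- The joint normal law for the pairs. -/
theorem pair_joint {g : Fin N → ℕ} (hg : ∀ b, 2 ≤ g b) (u : Fin N → Fin N → ℝ) {δ ε : ℝ} (hδ : 0 < δ) (hε : 0 < ε) :
    ∃ K : ℕ, ∀ (P : Finset ℕ) (w : ℕ → ℝ) (y H : ℕ), (∀ p ∈ P, p.Prime ∧ p ≤ y) → K ≤ P.card → (∀ p ∈ P, |w p| ≤ 1) →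
    δ * P.card ≤ ∑ p ∈ P, w p ^ 2 → y ^ K ≤ H →
    |propG H (fun c : Ig g → ℤ => ∀ i j, i ≤ j → ∑ p ∈ P, w p * pairF g i j p (red p c) ≤ u i j * √(∑ p ∈ P, w p ^ 2)) -
      ∏ i, ∏ j, if i ≤ j then (ProbabilityTheory.gaussianReal 0 1).real (Set.Iic (u i j)) else 1| ≤ ε := by
  obtain ⟨B, C, hB, hC, h⟩ := pair_loc hg
  obtain ⟨K, hK⟩ := joint_loc (fun i => u ((Fintype.equivFin (Prs N)).symm i).1.1 ((Fintype.equivFin (Prs N)).symm i).1.2) hδ hε hB hC h
  refine ⟨K, fun P w y H hP hPc hw hws hH => ?_⟩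
  have h1 := hK P w y H hP hPc hw hws hH
  have e1 : (fun c : Ig g → ℤ => ∀ i j, i ≤ j → ∑ p ∈ P, w p * pairF g i j p (red p c) ≤ u i j * √(∑ p ∈ P, w p ^ 2)) =
      fun c => ∀ i : Fin (Fintype.card (Prs N)), ∑ p ∈ P, w p * pairF g ((Fintype.equivFin (Prs N)).symm i).1.1
        ((Fintype.equivFin (Prs N)).symm i).1.2 p (red p c) ≤
        u ((Fintype.equivFin (Prs N)).symm i).1.1 ((Fintype.equivFin (Prs N)).symm i).1.2 * √(∑ p ∈ P, w p ^ 2) := by
    funext c
    exact propext (forall_pairs (Q := fun i j => ∑ p ∈ P, w p * pairF g i j p (red p c) ≤ u i j * √(∑ p ∈ P, w p ^ 2))).symm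
  rw [e1, ← prod_pairs (fun i j => (ProbabilityTheory.gaussianReal 0 1).real (Set.Iic (u i j)))]
  exact h1

/-- The moderate deviations for the pairs. -/
theorem pair_mdp {g : Fin N → ℕ} (hg : ∀ b, 2 ≤ g b) (β : Fin N → Fin N → ℝ) (hβ : ∀ i j, 0 ≤ β i j) {δ ε : ℝ} (hδ : 0 < δ) (hε : 0 < ε) :
    ∃ K : ℕ, ∀ (P : Finset ℕ) (w : ℕ → ℝ) (σ : Fin N → Fin N → ℝ) (y H l : ℕ), (∀ p ∈ P, p.Prime ∧ p ≤ y) → (∀ p ∈ P, |w p| ≤ 1) →
    δ * P.card ≤ ∑ p ∈ P, w p ^ 2 → (∀ i j, σ i j = 1 ∨ σ i j = -1) → K ≤ l → l ^ 3 ≤ P.card → y ^ (K * l) ≤ H →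
    Real.exp (-((∑ i, ∑ j, if i ≤ j then β i j ^ 2 / 2 else 0) + ε) * l) ≤
      propG H (fun c : Ig g → ℤ => ∀ i j, i ≤ j → β i j * √(l * ∑ p ∈ P, w p ^ 2) ≤ σ i j * ∑ p ∈ P, w p * pairF g i j p (red p c)) ∧
    propG H (fun c : Ig g → ℤ => ∀ i j, i ≤ j → β i j * √(l * ∑ p ∈ P, w p ^ 2) ≤ σ i j * ∑ p ∈ P, w p * pairF g i j p (red p c)) ≤
      Real.exp (-((∑ i, ∑ j, if i ≤ j then β i j ^ 2 / 2 else 0) - ε) * l) := by
  obtain ⟨B, C, hB, hC, h⟩ := pair_loc hg
  obtain ⟨K, hK⟩ := mdp_loc (β := fun i => β ((Fintype.equivFin (Prs N)).symm i).1.1 ((Fintype.equivFin (Prs N)).symm i).1.2)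
    (fun i => hβ _ _) hδ hε hB hC h
  refine ⟨K, fun P w σ y H l hP hw hws hσ hl hlP hH => ?_⟩
  have h1 := hK P w y H l (fun i => σ ((Fintype.equivFin (Prs N)).symm i).1.1 ((Fintype.equivFin (Prs N)).symm i).1.2) hP hw hws
    (fun i => hσ _ _) hl hlP hH
  have e1 : (fun c : Ig g → ℤ => ∀ i j, i ≤ j → β i j * √(l * ∑ p ∈ P, w p ^ 2) ≤ σ i j * ∑ p ∈ P, w p * pairF g i j p (red p c)) =
      fun c => ∀ i : Fin (Fintype.card (Prs N)), β ((Fintype.equivFin (Prs N)).symm i).1.1
        ((Fintype.equivFin (Prs N)).symm i).1.2 * √(l * ∑ p ∈ P, w p ^ 2) ≤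
        σ ((Fintype.equivFin (Prs N)).symm i).1.1 ((Fintype.equivFin (Prs N)).symm i).1.2 *
        ∑ p ∈ P, w p * pairF g ((Fintype.equivFin (Prs N)).symm i).1.1
        ((Fintype.equivFin (Prs N)).symm i).1.2 p (red p c) := by
    funext c
    exact propext (forall_pairs (Q := fun i j => β i j * √(l * ∑ p ∈ P, w p ^ 2) ≤
      σ i j * ∑ p ∈ P, w p * pairF g i j p (red p c))).symm
  rw [sum_pairs (fun i j => β i j ^ 2 / 2)] at h1
  rw [e1]
  exact h1

end Pool.Agent.U62.LD
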