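import Pool.Agent.U62.LD.Cur

/-!
# Several random hyperelliptic curves: the logarithmic weights
-/

set_option autoImplicit false
set_option linter.unusedSectionVars false

namespace Pool.Agent.U62.LD

open Finset Filter Topology Pool.Agent.X280.BP Pool.Agent.U62.BM Polynomial
open Pool.Agent.Y722.HS (EM EB red)
open Pool.Agent.X280.HG (primesUpTo mem_primesUpTo many_primes log_weights)

variable {N : ℕ}

theorem log_bd {T : ℕ} (hlog : 0 < Real.log T) {p : ℕ} (hp : p ∈ primesUpTo T) : |Real.log p / Real.log T| ≤ 1 := by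
  have h3 := mem_primesUpTo.1 hp
  have hp1 : (1 : ℝ) ≤ p := by exact_mod_cast h3.2.one_lt.le
  rw [abs_of_nonneg (div_nonneg (Real.log_nonneg hp1) hlog.le), div_le_one hlog]
  exact Real.log_le_log (by linarith) (by exact_mod_cast h3.1)

theorem log_var {T : ℕ} : ∑ p ∈ primesUpTo T, (Real.log p / Real.log T) ^ 2 =
    (∑ p ∈ primesUpTo T, Real.log p ^ 2) / Real.log T ^ 2 := by
  simp only [div_pow]
  rw [← Finset.sum_div]

theorem log_sum {T : ℕ} (f : ℕ → ℝ) : ∑ p ∈ primesUpTo T, Real.log p / Real.log T * f p =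
    (∑ p ∈ primesUpTo T, Real.log p * f p) / Real.log T := by
  rw [Finset.sum_div]
  exact Finset.sum_congr rfl fun p _ => by ring

/-- The joint normal law for the pairs with the weights `log p`. -/
theorem pair_joint_log {g : Fin N → ℕ} (hg : ∀ b, 2 ≤ g b) (u : Fin N → Fin N → ℝ) {ε : ℝ} (hε : 0 < ε) :
    ∃ K : ℕ, ∀ T H : ℕ, K ≤ T → T ^ K ≤ H →
    |propG H (fun c : Ig g → ℤ => ∀ i j, i ≤ j → ∑ p ∈ primesUpTo T, Real.log p * pairF g i j p (red p c) ≤
        u i j * √(∑ p ∈ primesUpTo T, Real.log p ^ 2)) -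
      ∏ i, ∏ j, if i ≤ j then (ProbabilityTheory.gaussianReal 0 1).real (Set.Iic (u i j)) else 1| ≤ ε := by
  obtain ⟨K1, hK1⟩ := pair_joint hg u (by norm_num : (0 : ℝ) < 1 / 8) hε
  obtain ⟨K2, hK2⟩ := eventually_atTop.1 (many_primes.and log_weights)
  refine ⟨max (max K1 K2) (K1 ^ 2 + 3), fun T H hT hH => ?_⟩
  have hT1 : K2 ≤ T := (le_max_right _ _).trans ((le_max_left _ _).trans hT)
  have hT2 : K1 ^ 2 + 3 ≤ T := (le_max_right _ _).trans hT
  obtain ⟨h1, h2⟩ := hK2 T hT1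
  have hlog : 0 < Real.log T := Real.log_pos (by exact_mod_cast (by omega : 1 < T))
  have hcard : K1 ≤ (primesUpTo T).card := by
    have h3 : (K1 : ℝ) ≤ √(T : ℝ) := by
      apply Real.le_sqrt_of_sq_le
      exact_mod_cast (by omega : K1 ^ 2 ≤ T)
    have h4 : 0 ≤ √(T : ℝ) := Real.sqrt_nonneg _
    have h5 : (K1 : ℝ) ≤ ((primesUpTo T).card : ℝ) := by linarith
    exact_mod_cast h5
  have hfin := hK1 (primesUpTo T) (fun p => Real.log p / Real.log T) T H
    (fun p hp => ((mem_primesUpTo.1 hp).symm)) hcard (fun p hp => log_bd hlog hp) h2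
    ((Nat.pow_le_pow_right (by omega) ((le_max_left _ _).trans (le_max_left _ _))).trans hH)
  have e3 : √(∑ p ∈ primesUpTo T, (Real.log p / Real.log T) ^ 2) =
      √(∑ p ∈ primesUpTo T, Real.log p ^ 2) / Real.log T := by
    rw [log_var, Real.sqrt_div' _ (sq_nonneg _), Real.sqrt_sq hlog.le]
  have e : (fun c : Ig g → ℤ => ∀ i j, i ≤ j → ∑ p ∈ primesUpTo T, Real.log p * pairF g i j p (red p c) ≤
        u i j * √(∑ p ∈ primesUpTo T, Real.log p ^ 2)) =
      fun c : Ig g → ℤ => ∀ i j, i ≤ j → ∑ p ∈ primesUpTo T, Real.log p / Real.log T * pairF g i j p (red p c) ≤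
        u i j * √(∑ p ∈ primesUpTo T, (Real.log p / Real.log T) ^ 2) := by
    funext c
    refine propext (forall_congr' fun i => forall_congr' fun j => imp_congr_right fun _ => ?_)
    rw [log_sum (fun p => pairF g i j p (red p c)), e3, mul_div_assoc', div_le_div_iff_of_pos_right hlog]
  rw [e]
  exact hfin

/-- The moderate deviations for the pairs with the weights `log p`. -/
theorem pair_mdp_log {g : Fin N → ℕ} (hg : ∀ b, 2 ≤ g b) (β : Fin N → Fin N → ℝ) (hβ : ∀ i j, 0 ≤ β i j) {ε : ℝ} (hε : 0 < ε) :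
    ∃ K : ℕ, ∀ (σ : Fin N → Fin N → ℝ) (T H l : ℕ), (∀ i j, σ i j = 1 ∨ σ i j = -1) → K ≤ l → l ^ 3 ≤ (primesUpTo T).card →
    T ^ (K * l) ≤ H →
    Real.exp (-((∑ i, ∑ j, if i ≤ j then β i j ^ 2 / 2 else 0) + ε) * l) ≤
      propG H (fun c : Ig g → ℤ => ∀ i j, i ≤ j → β i j * √(l * ∑ p ∈ primesUpTo T, Real.log p ^ 2) ≤
        σ i j * ∑ p ∈ primesUpTo T, Real.log p * pairF g i j p (red p c)) ∧
    propG H (fun c : Ig g → ℤ => ∀ i j, i ≤ j → β i j * √(l * ∑ p ∈ primesUpTo T, Real.log p ^ 2) ≤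
        σ i j * ∑ p ∈ primesUpTo T, Real.log p * pairF g i j p (red p c)) ≤
      Real.exp (-((∑ i, ∑ j, if i ≤ j then β i j ^ 2 / 2 else 0) - ε) * l) := by
  obtain ⟨K1, hK1⟩ := pair_mdp hg β hβ (by norm_num : (0 : ℝ) < 1 / 8) hε
  obtain ⟨K2, hK2⟩ := eventually_atTop.1 (many_primes.and log_weights)
  refine ⟨max K1 (K2 + 3), fun σ T H l hσ hl hlP hH => ?_⟩
  have hl1 : K1 ≤ l := (le_max_left _ _).trans hl
  have hl2 : K2 + 3 ≤ l := (le_max_right _ _).trans hl
  have hTl : l ≤ T + 1 := by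
    have h1 : l ≤ l ^ 3 := Nat.le_self_pow (by norm_num) l
    have h2 : (primesUpTo T).card ≤ T + 1 := by
      unfold primesUpTo
      exact (Finset.card_filter_le _ _).trans (Finset.card_range _).le
    omega
  obtain ⟨h1, h2⟩ := hK2 T (by omega)
  have hlog : 0 < Real.log T := Real.log_pos (by exact_mod_cast (by omega : 1 < T))
  have hfin := hK1 (primesUpTo T) (fun p => Real.log p / Real.log T) σ T H l
    (fun p hp => ((mem_primesUpTo.1 hp).symm)) (fun p hp => log_bd hlog hp) h2 hσ hl1 hlP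
    ((Nat.pow_le_pow_right (by omega) (Nat.mul_le_mul_right l (le_max_left _ _))).trans hH)
  have e3 : √(l * ∑ p ∈ primesUpTo T, (Real.log p / Real.log T) ^ 2) =
      √(l * ∑ p ∈ primesUpTo T, Real.log p ^ 2) / Real.log T := by
    rw [log_var, mul_div_assoc', Real.sqrt_div' _ (sq_nonneg _), Real.sqrt_sq hlog.le]
  have e : (fun c : Ig g → ℤ => ∀ i j, i ≤ j → β i j * √(l * ∑ p ∈ primesUpTo T, Real.log p ^ 2) ≤
        σ i j * ∑ p ∈ primesUpTo T, Real.log p * pairF g i j p (red p c)) =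
      fun c : Ig g → ℤ => ∀ i j, i ≤ j → β i j * √(l * ∑ p ∈ primesUpTo T, (Real.log p / Real.log T) ^ 2) ≤
        σ i j * ∑ p ∈ primesUpTo T, Real.log p / Real.log T * pairF g i j p (red p c) := by
    funext c
    refine propext (forall_congr' fun i => forall_congr' fun j => imp_congr_right fun _ => ?_)
    rw [log_sum (fun p => pairF g i j p (red p c)), e3, mul_div_assoc', mul_div_assoc', div_le_div_iff_of_pos_right hlog]
  rw [e]
  exact hfin

end Pool.Agent.U62.LD
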