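import Pool.Agent.U62.LD.Abs

/-!
# Large deviations: the lower bound
-/

set_option autoImplicit false
set_option linter.unusedSectionVars false

namespace Pool.Agent.U62.LD

open Finset Filter Topology Pool.Agent.X280.BP
open Pool.Agent.Y722.HS (EM EB red)
open Pool.Agent.U62.RB (EB_add2)

variable {n k : ℕ}

/-- Change of one coefficient. -/
def bump (s : Fin k → ℝ) (j : Fin k) (x : ℝ) : Fin k → ℝ := fun i => s i + if i = j then x else 0

theorem lin_bump {α : Type} (s : Fin k → ℝ) (j : Fin k) (x : ℝ) (X : Fin k → α → ℝ) (c : α) :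
    lin (bump s j x) X c = lin s X c + x * X j c := by
  unfold lin bump
  have e : ∀ i, (s i + if i = j then x else 0) * X i c = s i * X i c + if i = j then x * X i c else 0 := by
    intro i
    split_ifs <;> ring
  rw [Finset.sum_congr rfl fun i _ => e i, Finset.sum_add_distrib, Finset.sum_ite_eq' Finset.univ j]
  simp

theorem Qf_bump (v s : Fin k → ℝ) (j : Fin k) (x : ℝ) : Qf v (bump s j x) = Qf v s + 2 * x * (v j * s j) + x ^ 2 * v j := by
  unfold Qf bump
  have e : ∀ i, v i * (s i + if i = j then x else 0) ^ 2 = v i * s i ^ 2 + if i = j then (2 * x * (v i * s i) + x ^ 2 * v i) else 0 := by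
    intro i
    split_ifs <;> ring
  rw [Finset.sum_congr rfl fun i _ => e i, Finset.sum_add_distrib, Finset.sum_ite_eq' Finset.univ j]
  simp
  ring

open Classical in
/-- The pointwise inequality. -/
theorem low_pt {X : Fin k → (Fin n → ℤ) → ℝ} {m : ℕ} (hm : 1 ≤ m) {l : ℝ} (hl : 0 < l) {s : Fin k → ℝ} (hs0 : ∀ j, 0 ≤ s j)
    {β : Fin k → ℝ} {δ : ℝ} (hδ : 0 < δ) (hδ1 : δ ≤ 1) {A A2 : ℝ} (hA : 0 < A) (hA2 : A2 = (∑ j, s j + 1) * A)
    (hAm : A2 * l ≤ m) {θ : ℝ} (hθ : 0 < θ) (q : ℕ) (c : Fin n → ℤ) :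
    wt m (lin s X c) ≤ Real.exp ((∑ j, s j * β j + δ * ∑ j, s j) * l) * (if ∀ j, |X j c - β j * l| ≤ δ * l then (1 : ℝ) else 0) +
      ∑ j, (Real.exp (-(δ * (β j + δ) * l) + (A2 * l) ^ 2 / m) * wt m (lin (bump s j δ) X c) +
        Real.exp (δ * (β j - δ) * l + (A2 * l) ^ 2 / m) * wt m (lin (bump s j (-δ)) X c)) +
      ∑ j, (θ / 2 * wt m (lin s X c) ^ 2 + 1 / (2 * θ) * (X j c ^ (2 * q) / (A * l) ^ (2 * q))) := by
  have hm0 : (0 : ℝ) < m := by
    have : (1 : ℝ) ≤ m := by exact_mod_cast hm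
    linarith
  have t1 : 0 ≤ Real.exp ((∑ j, s j * β j + δ * ∑ j, s j) * l) * (if ∀ j, |X j c - β j * l| ≤ δ * l then (1 : ℝ) else 0) := by
    split_ifs
    · positivity
    · exact le_of_eq (mul_zero _).symm
  have t2' : ∀ j, 0 ≤ Real.exp (-(δ * (β j + δ) * l) + (A2 * l) ^ 2 / m) * wt m (lin (bump s j δ) X c) +
        Real.exp (δ * (β j - δ) * l + (A2 * l) ^ 2 / m) * wt m (lin (bump s j (-δ)) X c) := fun j =>
    add_nonneg (mul_nonneg (Real.exp_pos _).le (wt_nonneg _ _)) (mul_nonneg (Real.exp_pos _).le (wt_nonneg _ _))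
  have hAl : 0 < A * l := mul_pos hA hl
  have t3' : ∀ j, 0 ≤ θ / 2 * wt m (lin s X c) ^ 2 + 1 / (2 * θ) * (X j c ^ (2 * q) / (A * l) ^ (2 * q)) := fun j => by
    have h1 : 0 ≤ X j c ^ (2 * q) := (even_two_mul q).pow_nonneg _
    have h2 : 0 ≤ wt m (lin s X c) ^ 2 := sq_nonneg _
    positivity
  have t2 := Finset.sum_nonneg fun j (_ : j ∈ (Finset.univ : Finset (Fin k))) => t2' j
  have t3 := Finset.sum_nonneg fun j (_ : j ∈ (Finset.univ : Finset (Fin k))) => t3' j
  by_cases hbig : ∃ j, A * l < |X j c|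
  · obtain ⟨j, hj⟩ := hbig
    have h1 : (1 : ℝ) ≤ X j c ^ (2 * q) / (A * l) ^ (2 * q) := by
      rw [le_div_iff₀ (by positivity), one_mul, ← (even_two_mul q).pow_abs (X j c)]
      exact pow_le_pow_left₀ hAl.le hj.le _
    have h2 : wt m (lin s X c) ≤ θ / 2 * wt m (lin s X c) ^ 2 + 1 / (2 * θ) * (X j c ^ (2 * q) / (A * l) ^ (2 * q)) := by
      have h3 : 1 / (2 * θ) * 1 ≤ 1 / (2 * θ) * (X j c ^ (2 * q) / (A * l) ^ (2 * q)) :=
        mul_le_mul_of_nonneg_left h1 (by positivity)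
      have h4 : 0 ≤ (θ * wt m (lin s X c) - 1) ^ 2 / (2 * θ) := by positivity
      have e : (θ * wt m (lin s X c) - 1) ^ 2 / (2 * θ) = θ / 2 * wt m (lin s X c) ^ 2 - wt m (lin s X c) + 1 / (2 * θ) * 1 := by
        field_simp
        ring
      rw [e] at h4
      linarith
    have h5 := Finset.single_le_sum (f := fun j => θ / 2 * wt m (lin s X c) ^ 2 +
      1 / (2 * θ) * (X j c ^ (2 * q) / (A * l) ^ (2 * q))) (fun j _ => t3' j) (Finset.mem_univ j)
    linarith
  · push Not at hbig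
    -- all the variables are bounded
    have hS : ∀ (x : ℝ), |x| ≤ 1 → ∀ j, |lin s X c + x * X j c| ≤ A2 * l := by
      intro x hx j
      have h1 : |lin s X c| ≤ (∑ j, s j) * (A * l) := by
        unfold lin
        rw [Finset.sum_mul]
        refine (Finset.abs_sum_le_sum_abs _ _).trans (Finset.sum_le_sum fun i _ => ?_)
        rw [abs_mul, abs_of_nonneg (hs0 i)]
        exact mul_le_mul_of_nonneg_left (hbig i) (hs0 i)
      have h2 : |x * X j c| ≤ 1 * (A * l) := by
        rw [abs_mul]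
        exact mul_le_mul hx (hbig j) (abs_nonneg _) (by norm_num)
      calc |lin s X c + x * X j c| ≤ |lin s X c| + |x * X j c| := abs_add_le _ _
        _ ≤ A2 * l := by rw [hA2]; linarith
    have hexp : ∀ x : ℝ, |x| ≤ A2 * l → Real.exp x ≤ Real.exp ((A2 * l) ^ 2 / m) * wt m x := by
      intro x hx
      have h1 : -(m : ℝ) ≤ x := by linarith [(abs_le.1 hx).1]
      have h2 := wt_ge hm h1
      have h3 : x ^ 2 / m ≤ (A2 * l) ^ 2 / m := by
        refine div_le_div_of_nonneg_right ?_ hm0.le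
        rw [← sq_abs]
        exact pow_le_pow_left₀ (abs_nonneg _) hx 2
      calc Real.exp x = Real.exp (x ^ 2 / m) * Real.exp (x - x ^ 2 / m) := by rw [← Real.exp_add]; congr 1; ring
        _ ≤ Real.exp ((A2 * l) ^ 2 / m) * wt m x :=
          mul_le_mul (Real.exp_le_exp.2 h3) h2 (Real.exp_pos _).le (Real.exp_pos _).le
    by_cases hG : ∀ j, |X j c - β j * l| ≤ δ * l
    · rw [if_pos hG, mul_one]
      have h1 : wt m (lin s X c) ≤ Real.exp (lin s X c) := by
        refine wt_le_exp hm ?_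
        have hb : |lin s X c| ≤ (∑ j, s j) * (A * l) := by
          unfold lin
          rw [Finset.sum_mul]
          refine (Finset.abs_sum_le_sum_abs _ _).trans (Finset.sum_le_sum fun i _ => ?_)
          rw [abs_mul, abs_of_nonneg (hs0 i)]
          exact mul_le_mul_of_nonneg_left (hbig i) (hs0 i)
        have : (∑ j, s j) * (A * l) ≤ A2 * l := by
          rw [hA2]
          nlinarith
        linarith
      have h2 : lin s X c ≤ (∑ j, s j * β j + δ * ∑ j, s j) * l := by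
        rw [Finset.mul_sum, ← Finset.sum_add_distrib, Finset.sum_mul]
        unfold lin
        refine Finset.sum_le_sum fun i _ => ?_
        have h3 := (abs_le.1 (hG i)).2
        calc s i * X i c ≤ s i * (β i * l + δ * l) := mul_le_mul_of_nonneg_left (by linarith) (hs0 i)
          _ = (s i * β i + δ * s i) * l := by ring
      have h3 := h1.trans (Real.exp_le_exp.2 h2)
      linarith
    · rw [if_neg hG, mul_zero, zero_add]
      push Not at hG
      obtain ⟨j, hj⟩ := hG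
      have hbase : wt m (lin s X c) ≤ Real.exp (lin s X c) := by
        refine wt_le_exp hm ?_
        have := hS 0 (by norm_num) j
        rw [zero_mul, add_zero] at this
        linarith
      have hd : |δ| ≤ 1 := by rw [abs_of_pos hδ]; exact hδ1
      have key : wt m (lin s X c) ≤ Real.exp (-(δ * (β j + δ) * l) + (A2 * l) ^ 2 / m) * wt m (lin (bump s j δ) X c) +
        Real.exp (δ * (β j - δ) * l + (A2 * l) ^ 2 / m) * wt m (lin (bump s j (-δ)) X c) := by
        rcases lt_abs.1 hj with h | h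
        · have h1 := hexp _ (hS δ hd j)
          have h2 : lin s X c ≤ -(δ * (β j + δ) * l) + (lin s X c + δ * X j c) := by
            have : δ * ((β j + δ) * l) ≤ δ * X j c := mul_le_mul_of_nonneg_left (by linarith) hδ.le
            linarith
          have h3 : Real.exp (lin s X c) ≤ Real.exp (-(δ * (β j + δ) * l)) * (Real.exp ((A2 * l) ^ 2 / m) *
              wt m (lin s X c + δ * X j c)) := by
            calc Real.exp (lin s X c) ≤ Real.exp (-(δ * (β j + δ) * l) + (lin s X c + δ * X j c)) := Real.exp_le_exp.2 h2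
              _ = Real.exp (-(δ * (β j + δ) * l)) * Real.exp (lin s X c + δ * X j c) := Real.exp_add _ _
              _ ≤ _ := mul_le_mul_of_nonneg_left h1 (Real.exp_pos _).le
          rw [← mul_assoc, ← Real.exp_add] at h3
          rw [lin_bump]
          have h4 := mul_nonneg (Real.exp_pos (δ * (β j - δ) * l + (A2 * l) ^ 2 / m)).le (wt_nonneg m (lin (bump s j (-δ)) X c))
          linarith
        · have h1 := hexp _ (hS (-δ) (by rw [abs_neg]; exact hd) j)
          have h2 : lin s X c ≤ δ * (β j - δ) * l + (lin s X c + -δ * X j c) := by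
            have : δ * X j c ≤ δ * ((β j - δ) * l) := mul_le_mul_of_nonneg_left (by linarith) hδ.le
            linarith
          have h3 : Real.exp (lin s X c) ≤ Real.exp (δ * (β j - δ) * l) * (Real.exp ((A2 * l) ^ 2 / m) *
              wt m (lin s X c + -δ * X j c)) := by
            calc Real.exp (lin s X c) ≤ Real.exp (δ * (β j - δ) * l + (lin s X c + -δ * X j c)) := Real.exp_le_exp.2 h2
              _ = Real.exp (δ * (β j - δ) * l) * Real.exp (lin s X c + -δ * X j c) := Real.exp_add _ _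
              _ ≤ _ := mul_le_mul_of_nonneg_left h1 (Real.exp_pos _).le
          rw [← mul_assoc, ← Real.exp_add] at h3
          rw [lin_bump s j (-δ)]
          have h4 := mul_nonneg (Real.exp_pos (-(δ * (β j + δ) * l) + (A2 * l) ^ 2 / m)).le (wt_nonneg m (lin (bump s j δ) X c))
          linarith
      have h5 := Finset.single_le_sum (f := fun j => Real.exp (-(δ * (β j + δ) * l) + (A2 * l) ^ 2 / m) * wt m (lin (bump s j δ) X c) +
        Real.exp (δ * (β j - δ) * l + (A2 * l) ^ 2 / m) * wt m (lin (bump s j (-δ)) X c)) (fun j _ => t2' j) (Finset.mem_univ j)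
      linarith

open Classical in
/-- **The lower bound.** -/
theorem low_final {v : Fin k → ℝ} (hv0 : ∀ j, 0 < v j) (hv1 : ∀ j, v j ≤ 1) {β : Fin k → ℝ} (hβ : ∀ j, 0 ≤ β j) {δ : ℝ}
    (hδ : 0 < δ) (hδ1 : δ ≤ 1) : ∃ K0 S : ℝ, 1 ≤ K0 ∧ 1 ≤ S ∧ ∀ C : ℝ, 0 ≤ C → ∃ l0 : ℝ, 1 ≤ l0 ∧
      ∀ (n M : ℕ) [NeZero M] (X : Fin k → (Fin n → ℤ) → ℝ) (X' : Fin k → (Fin n → ZMod M) → ℝ) (H m : ℕ) (l : ℝ),
      Hyp X X' H v l C S m → l0 ≤ l → K0 * l ≤ m →
      Real.exp (-((∑ j, β j ^ 2 / (2 * v j) + δ * ∑ j, β j / v j + δ) * l)) ≤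
        EB H (fun c => if ∀ j, |X j c - β j * l| ≤ δ * l then (1 : ℝ) else 0) := by
  obtain ⟨s, hs⟩ : ∃ s : Fin k → ℝ, s = fun j => β j / v j := ⟨_, rfl⟩
  have hs0 : ∀ j, 0 ≤ s j := fun j => by rw [hs]; exact div_nonneg (hβ j) (hv0 j).le
  have hvs : ∀ j, v j * s j = β j := fun j => by
    rw [hs]
    exact mul_div_cancel₀ _ (hv0 j).ne'
  obtain ⟨σ, hσ⟩ : ∃ σ : ℝ, σ = ∑ j, s j := ⟨_, rfl⟩
  have hσ0 : 0 ≤ σ := hσ ▸ Finset.sum_nonneg fun j _ => hs0 j
  have hsσ : ∀ j, s j ≤ σ := fun j => by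
    rw [hσ]
    exact Finset.single_le_sum (f := s) (fun j _ => hs0 j) (Finset.mem_univ j)
  obtain ⟨y, hy⟩ : ∃ y : ℝ, y = ∑ j, β j ^ 2 / (2 * v j) := ⟨_, rfl⟩
  have hQ : Qf v s = 2 * y := by
    unfold Qf
    rw [hy, Finset.mul_sum, hs]
    refine Finset.sum_congr rfl fun j _ => ?_
    have := (hv0 j).ne'
    field_simp
  have hsb : ∑ j, s j * β j = 2 * y := by
    rw [hy, Finset.mul_sum, hs]
    refine Finset.sum_congr rfl fun j _ => ?_
    have := (hv0 j).ne'
    field_simp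
  have hy0 : 0 ≤ y := by
    rw [hy]
    refine Finset.sum_nonneg fun j _ => ?_
    have := hv0 j
    positivity
  obtain ⟨A, hA⟩ : ∃ A : ℝ, A = 4 * Real.exp (y + 2) := ⟨_, rfl⟩
  have hA0 : 0 < A := by rw [hA]; positivity
  obtain ⟨A2, hA2⟩ : ∃ A2 : ℝ, A2 = (∑ j, s j + 1) * A := ⟨_, rfl⟩
  have hA20 : 0 ≤ A2 := by
    rw [hA2, ← hσ]
    positivity
  obtain ⟨A3, hA3⟩ : ∃ A3 : ℝ, A3 = 4 * y + 1 := ⟨_, rfl⟩
  have hA30 : 0 ≤ A3 := by rw [hA3]; positivity
  refine ⟨1 + A2 + A3 + 16 * A3 ^ 2 / δ ^ 2 + 8 * A2 ^ 2 / δ ^ 2, 2 * σ + 2, ?_, by linarith, fun C hC => ?_⟩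
  · have : 0 ≤ 16 * A3 ^ 2 / δ ^ 2 := by positivity
    have : 0 ≤ 8 * A2 ^ 2 / δ ^ 2 := by positivity
    linarith
  obtain ⟨c1, hc1⟩ : ∃ c1 : ℝ, c1 = Real.log 8 + C := ⟨_, rfl⟩
  obtain ⟨c2, hc2⟩ : ∃ c2 : ℝ, c2 = Real.log 4 + 2 * C := ⟨_, rfl⟩
  obtain ⟨c3, hc3⟩ : ∃ c3 : ℝ, c3 = Real.log (6 * k + 1) + C := ⟨_, rfl⟩
  have hδ2 : 0 < δ ^ 2 := by positivity
  have hδ21 : δ ^ 2 ≤ 1 := pow_le_one₀ hδ.le hδ1
  obtain ⟨l1, hl1⟩ := exp_beat (y - δ ^ 2 / 4) (y - δ ^ 2 / 16) c1 (by linarith)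
  obtain ⟨l2, hl2⟩ := exp_beat (-1) y c2 (by linarith)
  obtain ⟨l3, hl3⟩ := exp_beat (y - 3 * δ ^ 2 / 8) (y - δ ^ 2 / 4) c3 (by linarith)
  obtain ⟨l4, hl4⟩ := exp_beat (y - 1) (y - δ ^ 2 / 4) c3 (by linarith)
  refine ⟨max 1 (max (max l1 l2) (max l3 l4)), le_max_left _ _, fun n M _ X X' H m l h hl hml => ?_⟩
  have g1 : 1 ≤ l := (le_max_left _ _).trans hl
  have g2 := (le_max_right _ _).trans hl
  have k1 := hl1 l (((le_max_left _ _).trans (le_max_left _ _)).trans g2)
  have k2 := hl2 l (((le_max_right _ _).trans (le_max_left _ _)).trans g2)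
  have k3 := hl3 l (((le_max_left _ _).trans (le_max_right _ _)).trans g2)
  have k4 := hl4 l (((le_max_right _ _).trans (le_max_right _ _)).trans g2)
  have hl0 : 0 < l := by linarith
  have p1 : 0 ≤ 16 * A3 ^ 2 / δ ^ 2 := by positivity
  have p2 : 0 ≤ 8 * A2 ^ 2 / δ ^ 2 := by positivity
  obtain ⟨z1, hz1⟩ : ∃ z : ℝ, z = 16 * A3 ^ 2 / δ ^ 2 := ⟨_, rfl⟩
  obtain ⟨z2, hz2⟩ : ∃ z : ℝ, z = 8 * A2 ^ 2 / δ ^ 2 := ⟨_, rfl⟩
  rw [← hz1] at p1 hml
  rw [← hz2] at p2 hml
  have hexp : l + A2 * l + A3 * l + z1 * l + z2 * l ≤ m := by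
    refine le_trans (le_of_eq ?_) hml
    ring
  have y1 := mul_nonneg hA20 hl0.le
  have y2 := mul_nonneg hA30 hl0.le
  have y3 := mul_nonneg p1 hl0.le
  have y4 := mul_nonneg p2 hl0.le
  have hlm : l ≤ m := by linarith
  have hm1 : 1 ≤ m := by
    have : (1 : ℝ) ≤ m := g1.trans hlm
    exact_mod_cast this
  have hm0 : (0 : ℝ) < m := by linarith
  have hA2m : A2 * l ≤ m := by linarith
  have hA3m : A3 * l ≤ m := by linarith
  have hD2 : (A2 * l) ^ 2 / m ≤ δ ^ 2 / 8 * l := by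
    rw [div_le_iff₀ hm0]
    have h1 : 8 * A2 ^ 2 / δ ^ 2 * l ≤ m := by
      rw [← hz2]
      linarith
    calc (A2 * l) ^ 2 = δ ^ 2 / 8 * l * (8 * A2 ^ 2 / δ ^ 2 * l) := by field_simp
      _ ≤ δ ^ 2 / 8 * l * m := mul_le_mul_of_nonneg_left h1 (by positivity)
  have hD3 : (A3 * l) ^ 2 / m ≤ δ ^ 2 / 16 * l := by
    rw [div_le_iff₀ hm0]
    have h1 : 16 * A3 ^ 2 / δ ^ 2 * l ≤ m := by
      rw [← hz1]
      linarith
    calc (A3 * l) ^ 2 = δ ^ 2 / 16 * l * (16 * A3 ^ 2 / δ ^ 2 * l) := by field_simp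
      _ ≤ δ ^ 2 / 16 * l * m := mul_le_mul_of_nonneg_left h1 (by positivity)
  have hsS : ∀ j, |s j| ≤ 2 * σ + 2 := fun j => by
    rw [abs_of_nonneg (hs0 j)]
    linarith [hsσ j]
  have hsS2 : ∀ j, |2 * s j| ≤ 2 * σ + 2 := fun j => by
    rw [abs_of_nonneg (by linarith [hs0 j])]
    linarith [hsσ j]
  have hbS : ∀ (x : ℝ), |x| ≤ 1 → ∀ j i, |bump s j x i| ≤ 2 * σ + 2 := by
    intro x hx j i
    unfold bump
    refine (abs_add_le _ _).trans ?_
    rw [abs_of_nonneg (hs0 i)]
    have : |if i = j then x else 0| ≤ 1 := by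
      split_ifs
      · exact hx
      · simp
    linarith [hsσ i]
  have hv : ∀ j, 0 ≤ v j := fun j => (hv0 j).le
  -- the mean of the weights from below
  have hE : 3 * Real.exp ((y - δ ^ 2 / 4) * l) ≤ EB H (fun c => wt m (lin s X c)) := by
    have h1 := h.wt_low hm1 hsS hsS2 (a := A3 * l) hA3m
    rw [hQ, show 2 * y / 2 * l = y * l by ring, show 2 * (2 * y) * l = 4 * y * l by ring] at h1
    have h2 : Real.exp (-(A3 * l)) * (Real.exp (4 * y * l + C) + 1) ≤ 2 * Real.exp (-l + C) := by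
      have e1 : Real.exp (-(A3 * l)) * Real.exp (4 * y * l + C) = Real.exp (-l + C) := by
        rw [← Real.exp_add, hA3]
        congr 1
        ring
      have e2 : Real.exp (-(A3 * l)) ≤ Real.exp (-l + C) := by
        rw [Real.exp_le_exp, hA3]
        have e3 : (4 * y + 1) * l = 4 * (y * l) + l := by ring
        have := mul_nonneg hy0 hl0.le
        rw [e3]
        linarith
      rw [mul_add, mul_one, e1]
      linarith
    have h3 : 2 * Real.exp (-l + C) ≤ 1 / 2 * Real.exp (y * l - C) := by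
      rw [hc2, ← add_assoc, Real.exp_add, Real.exp_add, Real.exp_log (by norm_num)] at k2
      have e1 : Real.exp (y * l - C) = Real.exp (y * l) * Real.exp (-C) := by rw [← Real.exp_add]; congr 1
      have e2 : Real.exp (-l + C) = Real.exp (-1 * l) * Real.exp (2 * C) * Real.exp (-C) := by
        rw [← Real.exp_add, ← Real.exp_add]
        congr 1
        ring
      rw [e1, e2]
      have h0 := Real.exp_pos (-C)
      have h5 := mul_le_mul_of_nonneg_right k2 h0.le
      calc 2 * (Real.exp (-1 * l) * Real.exp (2 * C) * Real.exp (-C)) =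
          1 / 2 * (Real.exp (-1 * l) * 4 * Real.exp (2 * C) * Real.exp (-C)) := by ring
        _ ≤ 1 / 2 * (Real.exp (y * l) * Real.exp (-C)) := mul_le_mul_of_nonneg_left h5 (by norm_num)
    have h4 : 1 / 2 * Real.exp (y * l - C) ≤ Real.exp (y * l - C) - Real.exp (-(A3 * l)) * (Real.exp (4 * y * l + C) + 1) := by
      linarith
    have h5 : Real.exp (-(δ ^ 2 / 16 * l)) * (1 / 2 * Real.exp (y * l - C)) ≤ Real.exp (-((A3 * l) ^ 2 / m)) *
        (Real.exp (y * l - C) - Real.exp (-(A3 * l)) * (Real.exp (4 * y * l + C) + 1)) :=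
      mul_le_mul (Real.exp_le_exp.2 (by linarith)) h4 (by positivity) (Real.exp_pos _).le
    have h6 : 4 * Real.exp ((y - δ ^ 2 / 4) * l) ≤ Real.exp (-(δ ^ 2 / 16 * l)) * (1 / 2 * Real.exp (y * l - C)) := by
      rw [hc1, ← add_assoc, Real.exp_add, Real.exp_add, Real.exp_log (by norm_num)] at k1
      have e1 : Real.exp (-(δ ^ 2 / 16 * l)) * (1 / 2 * Real.exp (y * l - C)) =
          1 / 2 * (Real.exp ((y - δ ^ 2 / 16) * l) * Real.exp (-C)) := by
        rw [← Real.exp_add]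
        have : Real.exp (-(δ ^ 2 / 16 * l)) * (1 / 2 * Real.exp (y * l - C)) =
            1 / 2 * (Real.exp (-(δ ^ 2 / 16 * l)) * Real.exp (y * l - C)) := by ring
        rw [this, ← Real.exp_add]
        congr 2
        ring
      rw [e1]
      have e2 : Real.exp C * Real.exp (-C) = 1 := by rw [← Real.exp_add]; simp
      have := Real.exp_pos (-C)
      calc 4 * Real.exp ((y - δ ^ 2 / 4) * l) = 1 / 2 * ((Real.exp ((y - δ ^ 2 / 4) * l) * 8 * Real.exp C) * Real.exp (-C)) := by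
            rw [mul_assoc (Real.exp ((y - δ ^ 2 / 4) * l) * 8), e2]
            ring
        _ ≤ 1 / 2 * (Real.exp ((y - δ ^ 2 / 16) * l) * Real.exp (-C)) := by
            refine mul_le_mul_of_nonneg_left ?_ (by norm_num)
            exact mul_le_mul_of_nonneg_right k1 this.le
    have h7 : Real.exp (-l) ≤ Real.exp ((y - δ ^ 2 / 4) * l) := by
      rw [Real.exp_le_exp]
      have h8 := mul_nonneg hy0 hl0.le
      have h9 := mul_le_mul_of_nonneg_right hδ21 hl0.le
      have e3 : (y - δ ^ 2 / 4) * l = y * l - 1 / 4 * (δ ^ 2 * l) := by ring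
      rw [e3]
      linarith
    linarith
  -- the upper bounds of the other means
  obtain ⟨θ, hθ⟩ : ∃ θ : ℝ, θ = Real.exp (-((3 * y + 1) * l)) := ⟨_, rfl⟩
  have hθ0 : 0 < θ := hθ ▸ Real.exp_pos _
  obtain ⟨q, hq⟩ : ∃ q : ℕ, q = ⌈l⌉₊ := ⟨_, rfl⟩
  have hq1 : l ≤ q := hq ▸ Nat.le_ceil l
  have hq2 : (q : ℝ) ≤ 2 * l := by
    have := Nat.ceil_lt_add_one hl0.le
    rw [← hq] at this
    linarith
  have hqm : 2 * q ≤ 4 * m := by
    have : (q : ℝ) ≤ 2 * m := by linarith
    have : q ≤ 2 * m := by exact_mod_cast this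
    omega
  have hpt := fun c => low_pt (X := X) hm1 hl0 hs0 (β := β) hδ hδ1 hA0 hA2 hA2m hθ0 q c
  have hmean := Pool.Agent.X280.BP.EB_mono H _ _ hpt
  rw [EB_add2, EB_add2, EB_mul_left, Pool.Agent.X280.BP.EB_sum, Pool.Agent.X280.BP.EB_sum] at hmean
  have hT2 : ∑ j, EB H (fun c => Real.exp (-(δ * (β j + δ) * l) + (A2 * l) ^ 2 / m) * wt m (lin (bump s j δ) X c) +
        Real.exp (δ * (β j - δ) * l + (A2 * l) ^ 2 / m) * wt m (lin (bump s j (-δ)) X c)) ≤ Real.exp ((y - δ ^ 2 / 4) * l) := by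
    have hone : ∀ j, EB H (fun c => Real.exp (-(δ * (β j + δ) * l) + (A2 * l) ^ 2 / m) * wt m (lin (bump s j δ) X c) +
        Real.exp (δ * (β j - δ) * l + (A2 * l) ^ 2 / m) * wt m (lin (bump s j (-δ)) X c)) ≤
        6 * (Real.exp ((y - 3 * δ ^ 2 / 8) * l) * Real.exp C) := by
      intro j
      rw [EB_add2, EB_mul_left, EB_mul_left]
      have hvj := hv1 j
      have w1 := h.wt_le hm1 hl0.le hC hv (hbS δ (by rw [abs_of_pos hδ]; exact hδ1) j)
      have w2 := h.wt_le hm1 hl0.le hC hv (hbS (-δ) (by rw [abs_neg, abs_of_pos hδ]; exact hδ1) j)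
      rw [Qf_bump, hvs, hQ] at w1 w2
      have u1 : Real.exp (-(δ * (β j + δ) * l) + (A2 * l) ^ 2 / m) * EB H (fun c => wt m (lin (bump s j δ) X c)) ≤
          3 * (Real.exp ((y - 3 * δ ^ 2 / 8) * l) * Real.exp C) := by
        calc _ ≤ Real.exp (-(δ * (β j + δ) * l) + (A2 * l) ^ 2 / m) *
              (3 * Real.exp ((2 * y + 2 * δ * β j + δ ^ 2 * v j) / 2 * l + C)) := mul_le_mul_of_nonneg_left w1 (Real.exp_pos _).le
          _ = 3 * Real.exp ((-(δ * (β j + δ) * l) + (A2 * l) ^ 2 / m) + ((2 * y + 2 * δ * β j + δ ^ 2 * v j) / 2 * l + C)) := by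
              rw [Real.exp_add (-(δ * (β j + δ) * l) + (A2 * l) ^ 2 / m)]
              ring
          _ ≤ _ := by
              rw [← Real.exp_add]
              refine mul_le_mul_of_nonneg_left (Real.exp_le_exp.2 ?_) (by norm_num)
              have : δ ^ 2 * v j * l ≤ δ ^ 2 * 1 * l := by gcongr
              linarith
      have u2 : Real.exp (δ * (β j - δ) * l + (A2 * l) ^ 2 / m) * EB H (fun c => wt m (lin (bump s j (-δ)) X c)) ≤
          3 * (Real.exp ((y - 3 * δ ^ 2 / 8) * l) * Real.exp C) := by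
        calc _ ≤ Real.exp (δ * (β j - δ) * l + (A2 * l) ^ 2 / m) *
              (3 * Real.exp ((2 * y + 2 * -δ * β j + (-δ) ^ 2 * v j) / 2 * l + C)) := mul_le_mul_of_nonneg_left w2 (Real.exp_pos _).le
          _ = 3 * Real.exp ((δ * (β j - δ) * l + (A2 * l) ^ 2 / m) + ((2 * y + 2 * -δ * β j + (-δ) ^ 2 * v j) / 2 * l + C)) := by
              rw [Real.exp_add (δ * (β j - δ) * l + (A2 * l) ^ 2 / m)]
              ring
          _ ≤ _ := by
              rw [← Real.exp_add]
              refine mul_le_mul_of_nonneg_left (Real.exp_le_exp.2 ?_) (by norm_num)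
              have : δ ^ 2 * v j * l ≤ δ ^ 2 * 1 * l := by gcongr
              linarith
      linarith
    refine (Finset.sum_le_sum fun j _ => hone j).trans ?_
    rw [Finset.sum_const, Finset.card_univ, Fintype.card_fin, nsmul_eq_mul]
    have hk : (0 : ℝ) ≤ k := Nat.cast_nonneg k
    rw [hc3, ← add_assoc, Real.exp_add, Real.exp_add, Real.exp_log (by positivity)] at k3
    have hp : 0 < Real.exp ((y - 3 * δ ^ 2 / 8) * l) * Real.exp C := by positivity
    calc (k : ℝ) * (6 * (Real.exp ((y - 3 * δ ^ 2 / 8) * l) * Real.exp C)) ≤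
        (6 * k + 1) * (Real.exp ((y - 3 * δ ^ 2 / 8) * l) * Real.exp C) := by linarith
      _ = Real.exp ((y - 3 * δ ^ 2 / 8) * l) * (6 * k + 1) * Real.exp C := by ring
      _ ≤ _ := k3
  have hT3 : ∑ j, EB H (fun c => θ / 2 * wt m (lin s X c) ^ 2 + 1 / (2 * θ) * (X j c ^ (2 * q) / (A * l) ^ (2 * q))) ≤
      Real.exp ((y - δ ^ 2 / 4) * l) := by
    have hone : ∀ j, EB H (fun c => θ / 2 * wt m (lin s X c) ^ 2 + 1 / (2 * θ) * (X j c ^ (2 * q) / (A * l) ^ (2 * q))) ≤
        3 * (Real.exp ((y - 1) * l) * Real.exp C) := by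
      intro j
      have e0 : (fun c => θ / 2 * wt m (lin s X c) ^ 2 + 1 / (2 * θ) * (X j c ^ (2 * q) / (A * l) ^ (2 * q))) =
          fun c => θ / 2 * wt m (lin s X c) ^ 2 + 1 / (2 * θ) * (1 / (A * l) ^ (2 * q)) * X j c ^ (2 * q) := by
        funext c
        ring
      rw [e0, EB_add2, EB_mul_left, EB_mul_left]
      have u1 : θ / 2 * EB H (fun c => wt m (lin s X c) ^ 2) ≤ 3 / 2 * (Real.exp ((y - 1) * l) * Real.exp C) := by
        have h1 := h.wt_sq hm1 hl0.le hC hv hsS hsS2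
        rw [hQ] at h1
        calc θ / 2 * EB H (fun c => wt m (lin s X c) ^ 2) ≤ θ / 2 * (3 * Real.exp (2 * (2 * y) * l + C)) :=
              mul_le_mul_of_nonneg_left h1 (by positivity)
          _ = 3 / 2 * (θ * Real.exp (2 * (2 * y) * l + C)) := by ring
          _ = _ := by
              rw [hθ, ← Real.exp_add, ← Real.exp_add]
              congr 2
              ring
      have u2 : 1 / (2 * θ) * (1 / (A * l) ^ (2 * q)) * EB H (fun c => X j c ^ (2 * q)) ≤
          3 / 2 * (Real.exp ((y - 1) * l) * Real.exp C) := by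
        have h1 := h.pow_le hl0.le hC (by linarith) hv j hqm
        have hf : (((2 * q).factorial : ℕ) : ℝ) ≤ (2 * (q : ℝ)) ^ (2 * q) := by
          have := Nat.factorial_le_pow (2 * q)
          exact_mod_cast this
        have hr : (1 / (A * l) ^ (2 * q)) * (((2 * q).factorial : ℕ) : ℝ) ≤ Real.exp (-(2 * (y + 2) * l)) := by
          have hAl : 0 < A * l := mul_pos hA0 hl0
          calc (1 / (A * l) ^ (2 * q)) * (((2 * q).factorial : ℕ) : ℝ) ≤ (1 / (A * l) ^ (2 * q)) * (2 * (q : ℝ)) ^ (2 * q) :=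
                mul_le_mul_of_nonneg_left hf (by positivity)
            _ = (2 * q / (A * l)) ^ (2 * q) := by rw [div_pow]; ring
            _ ≤ (Real.exp (-(y + 2))) ^ (2 * q) := by
                refine pow_le_pow_left₀ (by positivity) ?_ _
                rw [div_le_iff₀ hAl, hA]
                have e1 : Real.exp (-(y + 2)) * (4 * Real.exp (y + 2) * l) = 4 * l := by
                  have : Real.exp (-(y + 2)) * Real.exp (y + 2) = 1 := by rw [← Real.exp_add]; simp
                  calc Real.exp (-(y + 2)) * (4 * Real.exp (y + 2) * l) = 4 * l * (Real.exp (-(y + 2)) * Real.exp (y + 2)) := by ring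
                    _ = _ := by rw [this, mul_one]
                rw [e1]
                linarith
            _ = Real.exp (-((y + 2) * (2 * q))) := by
                rw [← Real.exp_nat_mul]
                congr 1
                push_cast
                ring
            _ ≤ _ := by
                rw [Real.exp_le_exp]
                have h9 := mul_le_mul_of_nonneg_left hq1 (by linarith : 0 ≤ y + 2)
                linarith
        have hθi : 1 / (2 * θ) = 1 / 2 * Real.exp ((3 * y + 1) * l) := by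
          rw [hθ, Real.exp_neg]
          field_simp
        have hvj := hv1 j
        calc 1 / (2 * θ) * (1 / (A * l) ^ (2 * q)) * EB H (fun c => X j c ^ (2 * q)) ≤
            1 / (2 * θ) * (1 / (A * l) ^ (2 * q)) * ((((2 * q).factorial : ℕ) : ℝ) * (3 * Real.exp (v j / 2 * l + C))) :=
              mul_le_mul_of_nonneg_left h1 (by
                have : 0 < A * l := mul_pos hA0 hl0
                positivity)
          _ = 1 / (2 * θ) * ((1 / (A * l) ^ (2 * q)) * (((2 * q).factorial : ℕ) : ℝ)) * (3 * Real.exp (v j / 2 * l + C)) := by ring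
          _ ≤ 1 / (2 * θ) * Real.exp (-(2 * (y + 2) * l)) * (3 * Real.exp (v j / 2 * l + C)) := by
              refine mul_le_mul_of_nonneg_right (mul_le_mul_of_nonneg_left hr (by positivity)) (by positivity)
          _ = 3 / 2 * Real.exp ((3 * y + 1) * l + -(2 * (y + 2) * l) + (v j / 2 * l + C)) := by
              rw [hθi, Real.exp_add ((3 * y + 1) * l + -(2 * (y + 2) * l)), Real.exp_add ((3 * y + 1) * l)]
              ring
          _ ≤ 3 / 2 * (Real.exp ((y - 1) * l) * Real.exp C) := by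
              rw [← Real.exp_add]
              refine mul_le_mul_of_nonneg_left (Real.exp_le_exp.2 ?_) (by norm_num)
              have h9 := mul_le_mul_of_nonneg_right hvj hl0.le
              linarith
      linarith
    refine (Finset.sum_le_sum fun j _ => hone j).trans ?_
    rw [Finset.sum_const, Finset.card_univ, Fintype.card_fin, nsmul_eq_mul]
    have hk : (0 : ℝ) ≤ k := Nat.cast_nonneg k
    rw [hc3, ← add_assoc, Real.exp_add, Real.exp_add, Real.exp_log (by positivity)] at k4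
    have hp : 0 < Real.exp ((y - 1) * l) * Real.exp C := by positivity
    have hkp := mul_nonneg hk hp.le
    calc (k : ℝ) * (3 * (Real.exp ((y - 1) * l) * Real.exp C)) ≤
        (6 * k + 1) * (Real.exp ((y - 1) * l) * Real.exp C) := by linarith
      _ = Real.exp ((y - 1) * l) * (6 * k + 1) * Real.exp C := by ring
      _ ≤ _ := k4
  -- conclusion
  obtain ⟨G, hG⟩ : ∃ G : ℝ, G = EB H (fun c => if ∀ j, |X j c - β j * l| ≤ δ * l then (1 : ℝ) else 0) := ⟨_, rfl⟩
  rw [← hG] at hmean ⊢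
  have hfin : Real.exp ((y - δ ^ 2 / 4) * l) ≤ Real.exp ((2 * y + δ * σ) * l) * G := by
    rw [hsb, ← hσ] at hmean
    linarith
  have e1 : ∑ j, β j / v j = σ := by
    rw [hσ, hs]
  rw [← hy, e1]
  have hp := Real.exp_pos ((2 * y + δ * σ) * l)
  have h1 : Real.exp ((2 * y + δ * σ) * l) * Real.exp (-((y + δ * σ + δ) * l)) ≤ Real.exp ((2 * y + δ * σ) * l) * G := by
    refine le_trans ?_ hfin
    rw [← Real.exp_add, Real.exp_le_exp]
    have h9 : δ ^ 2 ≤ δ := by
      rw [sq]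
      exact mul_le_of_le_one_left hδ.le hδ1
    have h10 := mul_le_mul_of_nonneg_right h9 hl0.le
    have h11 := mul_nonneg hδ.le hl0.le
    linarith
  exact le_of_mul_le_mul_left h1 hp

end Pool.Agent.U62.LD
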