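import Pool.Agent.U62.LD.Mod
import Pool.Agent.U62.LD.Low

/-!
# Large deviations: the conclusion
-/

set_option autoImplicit false
set_option linter.unusedSectionVars false

namespace Pool.Agent.U62.LD

open Finset Filter Topology Pool.Agent.X280.BP Pool.Agent.U62.SC Pool.Agent.U62.BM
open Pool.Agent.Y722.HS (EM EB red)
open Pool.Agent.U62.RB (EB_add2 EM_nonneg' prop)

variable {n k : ℕ} {a : ∀ p : ℕ, (Fin n → ZMod p) → ℝ} {G : ∀ p : ℕ, (Fin n → ZMod p) → Prop} {r C : ℝ}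

theorem nu_pos (t : ℝ) : 0 < nu t := by
  unfold nu
  split_ifs <;> norm_num

theorem nu_le (t : ℝ) : nu t ≤ 1 := by
  unfold nu
  split_ifs <;> norm_num

/-- The centred logarithms are close to the logarithms with the drift. -/
theorem cen_close (D : Dat a G r C) (t : ℝ) : ∃ B : ℝ, 0 ≤ B ∧ ∀ (T : ℕ) (c : Fin n → ℤ), 3 ≤ T →
    |(lel a G T t c + cen r T t) - ∑ p ∈ PP T, zl a G t p (red p c)| ≤ B := by
  have hC := D.C1
  obtain ⟨C1, hC10, hC1⟩ := sum_three_half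
  obtain ⟨B1, hB10, hB1⟩ : ∃ B1 : ℝ, 0 ≤ B1 ∧ ∀ T : ℕ, 3 ≤ T →
      |cen r T t - (r * ∑ p ∈ PP T, kp t p / p + 1 / 2 * ∑ p ∈ PP T, kp (2 * t) p / p)| ≤ B1 := by
    by_cases ht : t = 0
    · obtain ⟨B, hB0, hB⟩ := PP_inv
      refine ⟨|r + 1 / 2| * B, by positivity, fun T hT => ?_⟩
      subst ht
      unfold cen
      rw [if_pos rfl, mul_zero]
      simp only [kp_zero]
      have e : (r + 1 / 2) * Real.log (Real.log T) - (r * ∑ p ∈ PP T, 1 / (p : ℝ) + 1 / 2 * ∑ p ∈ PP T, 1 / (p : ℝ)) =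
          -((r + 1 / 2) * (∑ p ∈ PP T, 1 / (p : ℝ) - Real.log (Real.log T))) := by ring
      rw [e, abs_neg, abs_mul]
      exact mul_le_mul_of_nonneg_left (hB T hT) (abs_nonneg _)
    · obtain ⟨B, hB0, hB⟩ := PP_cos ht
      obtain ⟨B', hB'0, hB'⟩ := PP_cos (t := 2 * t) (mul_ne_zero two_ne_zero ht)
      refine ⟨|r| * B + 1 / 2 * B', by positivity, fun T _ => ?_⟩
      unfold cen
      rw [if_neg ht, zero_sub, abs_neg]
      refine (abs_add_le _ _).trans ?_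
      rw [abs_mul, abs_mul, abs_of_pos (by norm_num : (0 : ℝ) < 1 / 2)]
      exact add_le_add (mul_le_mul_of_nonneg_left (hB T) (abs_nonneg _)) (mul_le_mul_of_nonneg_left (hB' T) (by norm_num))
  refine ⟨(2 + 5 * C) * C1 + B1, by positivity, fun T c hT => ?_⟩
  have h1 : |∑ p ∈ PP T, lme p (gl a G t p) + (r * ∑ p ∈ PP T, kp t p / p + 1 / 2 * ∑ p ∈ PP T, kp (2 * t) p / p)| ≤
      (2 + 5 * C) * C1 := by
    rw [Finset.mul_sum, Finset.mul_sum, ← Finset.sum_add_distrib, ← Finset.sum_add_distrib]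
    refine (Finset.abs_sum_le_sum_abs _ _).trans ?_
    refine le_trans ?_ (mul_le_mul_of_nonneg_left (hC1 (PP T)) (by linarith : 0 ≤ 2 + 5 * C))
    rw [Finset.mul_sum]
    refine Finset.sum_le_sum fun p hp => ?_
    obtain ⟨_, hpp, h5⟩ := mem_PP.1 hp
    exact gl_mean D hpp h5 t
  have h2 := hB1 T hT
  have e : (lel a G T t c + cen r T t) - ∑ p ∈ PP T, zl a G t p (red p c) =
      (cen r T t - (r * ∑ p ∈ PP T, kp t p / p + 1 / 2 * ∑ p ∈ PP T, kp (2 * t) p / p)) +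
      (∑ p ∈ PP T, lme p (gl a G t p) + (r * ∑ p ∈ PP T, kp t p / p + 1 / 2 * ∑ p ∈ PP T, kp (2 * t) p / p)) := by
    rw [lel_gl]
    unfold zl
    rw [Finset.sum_sub_distrib]
    ring
  rw [e]
  refine (abs_add_le _ _).trans ?_
  linarith

/-- The rate. -/
noncomputable def rate (t β : Fin k → ℝ) : ℝ := ∑ j, β j ^ 2 / (2 * nu (t j))

theorem rate_nonneg (t β : Fin k → ℝ) : 0 ≤ rate t β := Finset.sum_nonneg fun j _ => by
  have := nu_pos (t j)
  positivity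

/-- The large deviation event. -/
def Ev (a : ∀ p : ℕ, (Fin n → ZMod p) → ℝ) (G : ∀ p : ℕ, (Fin n → ZMod p) → Prop) (r : ℝ) (t σ β : Fin k → ℝ) (T : ℕ)
    (c : Fin n → ℤ) : Prop := ∀ j, β j * Real.log (Real.log T) ≤ σ j * (lel a G T (t j) c + cen r T (t j))

theorem pow_of_rpow {T H m : ℕ} {K l : ℝ} (hT : 1 ≤ T) (hm : (16 * m : ℕ) ≤ K * l) (hH : (T : ℝ) ^ (K * l) ≤ H) :
    T ^ (16 * m) ≤ H := by
  have h1 : (T : ℝ) ^ ((16 * m : ℕ) : ℝ) ≤ (T : ℝ) ^ (K * l) :=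
    Real.rpow_le_rpow_of_exponent_le (by exact_mod_cast hT) hm
  rw [Real.rpow_natCast] at h1
  exact_mod_cast h1.trans hH

open Classical in
/-- The upper bound. -/
theorem upper_final (D : Dat a G r C) (t σ : Fin k → ℝ) (ht0 : ∀ i, 0 ≤ t i) (hti : Function.Injective t) (hσ : ∀ i, |σ i| = 1)
    {β : Fin k → ℝ} (hβ : ∀ j, 0 ≤ β j) {ε : ℝ} (hε : 0 < ε) : ∃ K : ℕ, ∀ T H : ℕ, K ≤ T →
      (T : ℝ) ^ ((K : ℝ) * Real.log (Real.log T)) ≤ H →
      EB H (fun c => if Ev a G r t σ β T c then (1 : ℝ) else 0) ≤ Real.exp (-(rate t β - ε) * Real.log (Real.log T)) := by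
  obtain ⟨R, hR⟩ : ∃ R : ℝ, R = rate t β := ⟨_, rfl⟩
  have hR0 : 0 ≤ R := hR ▸ rate_nonneg t β
  obtain ⟨s, hs⟩ : ∃ s : Fin k → ℝ, s = fun j => β j / nu (t j) := ⟨_, rfl⟩
  have hs0 : ∀ j, 0 ≤ s j := fun j => by rw [hs]; exact div_nonneg (hβ j) (nu_pos _).le
  have hQ : Qf (fun j => nu (t j)) s = 2 * R := by
    unfold Qf
    rw [hR]
    unfold rate
    rw [Finset.mul_sum, hs]
    refine Finset.sum_congr rfl fun j _ => ?_
    have := (nu_pos (t j)).ne'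
    field_simp
  have hsb : ∑ j, s j * β j = 2 * R := by
    rw [hR]
    unfold rate
    rw [Finset.mul_sum, hs]
    refine Finset.sum_congr rfl fun j _ => ?_
    have := (nu_pos (t j)).ne'
    field_simp
  obtain ⟨σ1, hσ1⟩ : ∃ σ1 : ℝ, σ1 = ∑ j, s j := ⟨_, rfl⟩
  have hσ10 : 0 ≤ σ1 := hσ1 ▸ Finset.sum_nonneg fun j _ => hs0 j
  have hsσ : ∀ j, |s j| ≤ σ1 := fun j => by
    rw [abs_of_nonneg (hs0 j), hσ1]
    exact Finset.single_le_sum (f := s) (fun j _ => hs0 j) (Finset.mem_univ j)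
  obtain ⟨ε', hε'0, hε'1, hε'2⟩ : ∃ ε' : ℝ, 0 < ε' ∧ ε' * σ1 ≤ ε / 4 ∧ ε' * σ1 ≤ 2 * R := by
    by_cases h0 : σ1 = 0
    · exact ⟨1, one_pos, by rw [h0]; linarith, by rw [h0]; linarith⟩
    · have hpos : 0 < σ1 := lt_of_le_of_ne hσ10 (Ne.symm h0)
      have hRpos : 0 < R := by
        by_contra hneg
        have hR00 : R = 0 := le_antisymm (not_lt.1 hneg) hR0
        have hall : ∀ j ∈ Finset.univ, s j * β j = 0 := by
          apply (Finset.sum_eq_zero_iff_of_nonneg fun j _ => mul_nonneg (hs0 j) (hβ j)).1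
          rw [hsb, hR00, mul_zero]
        apply h0
        rw [hσ1]
        refine Finset.sum_eq_zero fun j hj => ?_
        have h1 := hall j hj
        rcases mul_eq_zero.1 h1 with h2 | h2
        · exact h2
        · rw [hs]
          dsimp only
          rw [h2, zero_div]
      refine ⟨min (ε / 4 / σ1) (2 * R / σ1), lt_min (by positivity) (by positivity), ?_, ?_⟩
      · calc min (ε / 4 / σ1) (2 * R / σ1) * σ1 ≤ ε / 4 / σ1 * σ1 := mul_le_mul_of_nonneg_right (min_le_left _ _) hσ10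
          _ = ε / 4 := div_mul_cancel₀ _ h0
      · calc min (ε / 4 / σ1) (2 * R / σ1) * σ1 ≤ 2 * R / σ1 * σ1 := mul_le_mul_of_nonneg_right (min_le_right _ _) hσ10
          _ = 2 * R := div_mul_cancel₀ _ h0
  obtain ⟨C2, hC20, T1, hT13, hT1⟩ := hyp_of D t σ ht0 hti hσ (S := σ1) hσ10
  choose Bc hBc0 hBc using fun j => cen_close D (t j)
  obtain ⟨Bs, hBs⟩ : ∃ Bs : ℝ, Bs = ∑ j, Bc j := ⟨_, rfl⟩
  have hBs1 : ∀ j, Bc j ≤ Bs := fun j => by
    rw [hBs]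
    exact Finset.single_le_sum (f := Bc) (fun j _ => hBc0 j) (Finset.mem_univ j)
  have hBs0 : 0 ≤ Bs := hBs ▸ Finset.sum_nonneg fun j _ => hBc0 j
  obtain ⟨K0, hK0⟩ : ∃ K0 : ℝ, K0 = 1 + 16 * R ^ 2 / ε := ⟨_, rfl⟩
  have hK01 : 1 ≤ K0 := by
    rw [hK0]
    have : 0 ≤ 16 * R ^ 2 / ε := by positivity
    linarith
  obtain ⟨T2, hT23, hT2⟩ := loglog_large (1 + Bs / ε' + 4 * (C2 + Real.log 3) / ε)
  refine ⟨max (max T1 T2) ⌈32 * K0⌉₊, fun T H hT hH => ?_⟩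
  have hTT1 : T1 ≤ T := ((le_max_left _ _).trans (le_max_left _ _)).trans hT
  have hTT2 : T2 ≤ T := ((le_max_right _ _).trans (le_max_left _ _)).trans hT
  have hT3 : 3 ≤ T := hT13.trans hTT1
  have hll := hT2 T hTT2
  obtain ⟨l, hl⟩ : ∃ l : ℝ, l = Real.log (Real.log T) := ⟨_, rfl⟩
  rw [← hl] at hll hH ⊢
  have hlog3 : 0 ≤ Real.log 3 := Real.log_nonneg (by norm_num)
  have q1 : 0 ≤ Bs / ε' := by positivity
  have q2 : 0 ≤ 4 * (C2 + Real.log 3) / ε := by positivity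
  have hl1 : 1 ≤ l := by linarith
  have hl0 : 0 < l := by linarith
  obtain ⟨m, hm⟩ : ∃ m : ℕ, m = ⌈K0 * l⌉₊ := ⟨_, rfl⟩
  have hm1 : K0 * l ≤ m := hm ▸ Nat.le_ceil _
  have hK0l : 1 ≤ K0 * l := by nlinarith
  have hm2 : (m : ℝ) ≤ 2 * (K0 * l) := by
    have h1 := Nat.ceil_lt_add_one (by positivity : 0 ≤ K0 * l)
    rw [← hm] at h1
    linarith
  have hmpos : 1 ≤ m := by
    have : (1 : ℝ) ≤ m := hK0l.trans hm1
    exact_mod_cast this
  have hm0 : (0 : ℝ) < m := by exact_mod_cast hmpos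
  obtain ⟨K, hK⟩ : ∃ K : ℕ, K = max (max T1 T2) ⌈32 * K0⌉₊ := ⟨_, rfl⟩
  rw [← hK] at hH
  have hK32 : 32 * K0 ≤ (K : ℝ) := by
    refine (Nat.le_ceil _).trans ?_
    rw [hK]
    exact_mod_cast le_max_right _ _
  have hpow : T ^ (16 * m) ≤ H := by
    refine pow_of_rpow (K := K) (l := l) (by omega) ?_ hH
    push_cast
    calc (16 : ℝ) * m ≤ 16 * (2 * (K0 * l)) := mul_le_mul_of_nonneg_left hm2 (by norm_num)
      _ = 32 * K0 * l := by ring
      _ ≤ K * l := mul_le_mul_of_nonneg_right hK32 hl0.le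
  have hne : NeZero (MM (PP T)) := ⟨MM_ne (PP_prime T)⟩
  have hyp := hT1 T H m hTT1 hmpos hpow
  rw [← hl] at hyp
  obtain ⟨γ, hγ⟩ : ∃ γ : Fin k → ℝ, γ = fun j => β j - ε' := ⟨_, rfl⟩
  have hsγ : ∑ j, s j * γ j = 2 * R - ε' * σ1 := by
    rw [← hsb, hσ1, Finset.mul_sum, ← Finset.sum_sub_distrib, hγ]
    exact Finset.sum_congr rfl fun j _ => by ring
  have hup := hyp.upper hmpos hl0.le hC20 (fun j => (nu_pos _).le) hsσ hs0 γ (by rw [hsγ]; linarith)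
  rw [hsγ, hQ] at hup
  have hmono : EB H (fun c => if Ev a G r t σ β T c then (1 : ℝ) else 0) ≤
      EB H (fun c => if ∀ j, γ j * l ≤ Xb a G t σ T j c then (1 : ℝ) else 0) := by
    refine Pool.Agent.X280.BP.EB_mono H _ _ fun c => ?_
    by_cases hc : Ev a G r t σ β T c
    · rw [if_pos hc, if_pos]
      intro j
      have h1 := hc j
      have h2 := hBc j T c hT3
      rw [← hl] at h1
      have h3 : Xb a G t σ T j c = σ j * ∑ p ∈ PP T, zl a G (t j) p (red p c) := by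
        unfold Xb
        rw [Finset.mul_sum]
      have h4 : |σ j * (lel a G T (t j) c + cen r T (t j)) - σ j * ∑ p ∈ PP T, zl a G (t j) p (red p c)| ≤ Bs := by
        rw [← mul_sub, abs_mul, hσ, one_mul]
        exact h2.trans (hBs1 j)
      have h5 := (abs_le.1 h4).2
      have h6 : Bs ≤ ε' * l := by
        have h7 : Bs / ε' ≤ l := by linarith
        rw [div_le_iff₀ hε'0] at h7
        linarith
      rw [h3, hγ]
      dsimp only
      linarith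
    · rw [if_neg hc]
      split_ifs <;> norm_num
  refine (hmono.trans hup).trans ?_
  have h1 : ((2 * R - ε' * σ1) * l) ^ 2 / m ≤ ε / 4 * l := by
    rw [div_le_iff₀ hm0]
    have h2 : (2 * R - ε' * σ1) ^ 2 ≤ 4 * R ^ 2 := by
      have h3 : 0 ≤ 2 * R - ε' * σ1 := by linarith
      have h4 : 2 * R - ε' * σ1 ≤ 2 * R := by
        have : 0 ≤ ε' * σ1 := by positivity
        linarith
      calc (2 * R - ε' * σ1) ^ 2 ≤ (2 * R) ^ 2 := pow_le_pow_left₀ h3 h4 2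
        _ = 4 * R ^ 2 := by ring
    have h3 : 16 * R ^ 2 / ε * l ≤ m := by
      refine le_trans ?_ hm1
      refine mul_le_mul_of_nonneg_right ?_ hl0.le
      rw [hK0]
      linarith
    calc ((2 * R - ε' * σ1) * l) ^ 2 = (2 * R - ε' * σ1) ^ 2 * l ^ 2 := by ring
      _ ≤ 4 * R ^ 2 * l ^ 2 := mul_le_mul_of_nonneg_right h2 (by positivity)
      _ = ε / 4 * l * (16 * R ^ 2 / ε * l) := by
          field_simp
          ring
      _ ≤ ε / 4 * l * m := mul_le_mul_of_nonneg_left h3 (by positivity)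
  have h2 : C2 + Real.log 3 ≤ ε / 4 * l := by
    have h3 : 4 * (C2 + Real.log 3) / ε ≤ l := by linarith
    rw [div_le_iff₀ hε] at h3
    linarith
  have h3 : ε' * σ1 * l ≤ ε / 4 * l := mul_le_mul_of_nonneg_right hε'1 hl0.le
  calc 3 * Real.exp (2 * R / 2 * l + C2) * Real.exp (-((2 * R - ε' * σ1) * l) + ((2 * R - ε' * σ1) * l) ^ 2 / m) =
      Real.exp (Real.log 3 + (2 * R / 2 * l + C2) + (-((2 * R - ε' * σ1) * l) + ((2 * R - ε' * σ1) * l) ^ 2 / m)) := by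
        rw [Real.exp_add (Real.log 3 + (2 * R / 2 * l + C2)), Real.exp_add (Real.log 3), Real.exp_log (by norm_num)]
    _ ≤ Real.exp (-(R - ε) * l) := by
        rw [Real.exp_le_exp]
        have h4 := mul_nonneg hε.le hl0.le
        linarith
    _ = _ := by rw [← hR]

open Classical in
/-- The lower bound. -/
theorem lower_final (D : Dat a G r C) (t σ : Fin k → ℝ) (ht0 : ∀ i, 0 ≤ t i) (hti : Function.Injective t) (hσ : ∀ i, |σ i| = 1)
    {β : Fin k → ℝ} (hβ : ∀ j, 0 ≤ β j) {ε : ℝ} (hε : 0 < ε) : ∃ K : ℕ, ∀ T H : ℕ, K ≤ T →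
      (T : ℝ) ^ ((K : ℝ) * Real.log (Real.log T)) ≤ H →
      Real.exp (-(rate t β + ε) * Real.log (Real.log T)) ≤ EB H (fun c => if Ev a G r t σ β T c then (1 : ℝ) else 0) := by
  obtain ⟨σ1, hσ1⟩ : ∃ σ1 : ℝ, σ1 = ∑ j, β j / nu (t j) := ⟨_, rfl⟩
  obtain ⟨σ2, hσ2⟩ : ∃ σ2 : ℝ, σ2 = ∑ j, 1 / nu (t j) := ⟨_, rfl⟩
  have hσ10 : 0 ≤ σ1 := hσ1 ▸ Finset.sum_nonneg fun j _ => div_nonneg (hβ j) (nu_pos _).le
  have hσ20 : 0 ≤ σ2 := hσ2 ▸ Finset.sum_nonneg fun j _ => div_nonneg zero_le_one (nu_pos _).le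
  -- the choice of the parameter
  obtain ⟨Q, hQ⟩ : ∃ Q : ℝ, Q = 3 * σ1 + 4 * σ2 + 1 := ⟨_, rfl⟩
  have hQ1 : 1 ≤ Q := by rw [hQ]; linarith
  obtain ⟨δ, hδ0, hδ1, hδ2⟩ : ∃ δ : ℝ, 0 < δ ∧ δ ≤ 1 ∧ δ * Q ≤ ε := by
    refine ⟨min 1 (ε / Q), lt_min one_pos (by positivity), min_le_left _ _, ?_⟩
    calc min 1 (ε / Q) * Q ≤ ε / Q * Q := mul_le_mul_of_nonneg_right (min_le_right _ _) (by linarith)
      _ = ε := div_mul_cancel₀ _ (by linarith)
  obtain ⟨β', hβ'⟩ : ∃ β' : Fin k → ℝ, β' = fun j => β j + 2 * δ := ⟨_, rfl⟩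
  have hβ'0 : ∀ j, 0 ≤ β' j := fun j => by
    rw [hβ']
    have := hβ j
    dsimp only
    linarith
  have hrate : ∑ j, β' j ^ 2 / (2 * nu (t j)) + δ * ∑ j, β' j / nu (t j) + δ ≤ rate t β + ε := by
    have e1 : ∑ j, β' j ^ 2 / (2 * nu (t j)) = rate t β + (2 * δ * σ1 + 2 * δ ^ 2 * σ2) := by
      unfold rate
      rw [hσ1, hσ2, Finset.mul_sum, Finset.mul_sum, ← Finset.sum_add_distrib, ← Finset.sum_add_distrib, hβ']
      refine Finset.sum_congr rfl fun j _ => ?_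
      have := (nu_pos (t j)).ne'
      field_simp
      ring
    have e2 : ∑ j, β' j / nu (t j) = σ1 + 2 * δ * σ2 := by
      rw [hσ1, hσ2, Finset.mul_sum, ← Finset.sum_add_distrib, hβ']
      refine Finset.sum_congr rfl fun j _ => ?_
      ring
    rw [e1, e2]
    have h1 : δ ^ 2 * σ2 ≤ δ * σ2 := by
      refine mul_le_mul_of_nonneg_right ?_ hσ20
      rw [sq]
      exact mul_le_of_le_one_left hδ0.le hδ1
    have e3 : δ * Q = 3 * δ * σ1 + 4 * (δ * σ2) + δ := by rw [hQ]; ring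
    have e4 : rate t β + (2 * δ * σ1 + 2 * δ ^ 2 * σ2) + δ * (σ1 + 2 * δ * σ2) + δ =
        rate t β + (3 * δ * σ1 + 4 * (δ ^ 2 * σ2) + δ) := by ring
    rw [e4]
    linarith
  obtain ⟨K0, S, hK01, hS1, hlow⟩ := low_final (v := fun j => nu (t j)) (fun j => nu_pos _) (fun j => nu_le _) hβ'0 hδ0 hδ1
  obtain ⟨C2, hC20, T1, hT13, hT1⟩ := hyp_of D t σ ht0 hti hσ (S := S) (by linarith)
  obtain ⟨l0, hl01, hl0⟩ := hlow C2 hC20
  choose Bc hBc0 hBc using fun j => cen_close D (t j)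
  obtain ⟨Bs, hBs⟩ : ∃ Bs : ℝ, Bs = ∑ j, Bc j := ⟨_, rfl⟩
  have hBs1 : ∀ j, Bc j ≤ Bs := fun j => by
    rw [hBs]
    exact Finset.single_le_sum (f := Bc) (fun j _ => hBc0 j) (Finset.mem_univ j)
  have hBs0 : 0 ≤ Bs := hBs ▸ Finset.sum_nonneg fun j _ => hBc0 j
  obtain ⟨T2, hT23, hT2⟩ := loglog_large (l0 + Bs / δ)
  refine ⟨max (max T1 T2) ⌈32 * K0⌉₊, fun T H hT hH => ?_⟩
  have hTT1 : T1 ≤ T := ((le_max_left _ _).trans (le_max_left _ _)).trans hT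
  have hTT2 : T2 ≤ T := ((le_max_right _ _).trans (le_max_left _ _)).trans hT
  have hT3 : 3 ≤ T := hT13.trans hTT1
  have hll := hT2 T hTT2
  obtain ⟨l, hl⟩ : ∃ l : ℝ, l = Real.log (Real.log T) := ⟨_, rfl⟩
  rw [← hl] at hll hH ⊢
  have q1 : 0 ≤ Bs / δ := by positivity
  have hll0 : l0 ≤ l := by linarith
  have hl1 : 1 ≤ l := by linarith
  have hlpos : 0 < l := by linarith
  obtain ⟨m, hm⟩ : ∃ m : ℕ, m = ⌈K0 * l⌉₊ := ⟨_, rfl⟩
  have hm1 : K0 * l ≤ m := hm ▸ Nat.le_ceil _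
  have hK0l : 1 ≤ K0 * l := by nlinarith
  have hm2 : (m : ℝ) ≤ 2 * (K0 * l) := by
    have h1 := Nat.ceil_lt_add_one (by positivity : 0 ≤ K0 * l)
    rw [← hm] at h1
    linarith
  have hmpos : 1 ≤ m := by
    have : (1 : ℝ) ≤ m := hK0l.trans hm1
    exact_mod_cast this
  obtain ⟨K, hK⟩ : ∃ K : ℕ, K = max (max T1 T2) ⌈32 * K0⌉₊ := ⟨_, rfl⟩
  rw [← hK] at hH
  have hK32 : 32 * K0 ≤ (K : ℝ) := by
    refine (Nat.le_ceil _).trans ?_
    rw [hK]
    exact_mod_cast le_max_right _ _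
  have hpow : T ^ (16 * m) ≤ H := by
    refine pow_of_rpow (K := K) (l := l) (by omega) ?_ hH
    push_cast
    calc (16 : ℝ) * m ≤ 16 * (2 * (K0 * l)) := mul_le_mul_of_nonneg_left hm2 (by norm_num)
      _ = 32 * K0 * l := by ring
      _ ≤ K * l := mul_le_mul_of_nonneg_right hK32 hlpos.le
  have hne : NeZero (MM (PP T)) := ⟨MM_ne (PP_prime T)⟩
  have hyp := hT1 T H m hTT1 hmpos hpow
  rw [← hl] at hyp
  have hres := hl0 n (MM (PP T)) (Xb a G t σ T) (Xm a G t σ T) H m l hyp hll0 hm1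
  have hmono : EB H (fun c => if ∀ j, |Xb a G t σ T j c - β' j * l| ≤ δ * l then (1 : ℝ) else 0) ≤
      EB H (fun c => if Ev a G r t σ β T c then (1 : ℝ) else 0) := by
    refine Pool.Agent.X280.BP.EB_mono H _ _ fun c => ?_
    by_cases hc : ∀ j, |Xb a G t σ T j c - β' j * l| ≤ δ * l
    · rw [if_pos hc, if_pos]
      intro j
      have h1 := (abs_le.1 (hc j)).1
      have h2 := hBc j T c hT3
      rw [← hl]
      have h3 : Xb a G t σ T j c = σ j * ∑ p ∈ PP T, zl a G (t j) p (red p c) := by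
        unfold Xb
        rw [Finset.mul_sum]
      have h4 : |σ j * (lel a G T (t j) c + cen r T (t j)) - σ j * ∑ p ∈ PP T, zl a G (t j) p (red p c)| ≤ Bs := by
        rw [← mul_sub, abs_mul, hσ, one_mul]
        exact h2.trans (hBs1 j)
      have h5 := (abs_le.1 h4).1
      have h6 : Bs ≤ δ * l := by
        have h7 : Bs / δ ≤ l := by linarith
        rw [div_le_iff₀ hδ0] at h7
        linarith
      rw [h3, hβ'] at h1
      dsimp only at h1
      linarith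
    · rw [if_neg hc]
      split_ifs <;> norm_num
  refine le_trans ?_ (hres.trans hmono)
  rw [Real.exp_le_exp]
  have := mul_le_mul_of_nonneg_right hrate hlpos.le
  linarith

theorem exp_rpow {T : ℕ} (hT : 3 ≤ T) (x : ℝ) : Real.exp (x * Real.log (Real.log T)) = Real.log T ^ x := by
  have hT0 : (3 : ℝ) ≤ T := by exact_mod_cast hT
  have hlog0 : 0 < Real.log T := Real.log_pos (by linarith)
  rw [Real.rpow_def_of_pos hlog0, mul_comm]

/-- **Large deviations.** -/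
theorem ldp (D : Dat a G r C) (t σ : Fin k → ℝ) (ht0 : ∀ i, 0 ≤ t i) (hti : Function.Injective t) (hσ : ∀ i, |σ i| = 1)
    {β : Fin k → ℝ} (hβ : ∀ j, 0 ≤ β j) {ε : ℝ} (hε : 0 < ε) : ∃ K : ℕ, ∀ T H : ℕ, K ≤ T →
      (T : ℝ) ^ ((K : ℝ) * Real.log (Real.log T)) ≤ H →
      Real.log T ^ (-(rate t β + ε)) ≤ prop H (Ev a G r t σ β T) ∧ prop H (Ev a G r t σ β T) ≤ Real.log T ^ (-(rate t β - ε)) := by
  classical
  obtain ⟨K1, hK1⟩ := upper_final D t σ ht0 hti hσ hβ hε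
  obtain ⟨K2, hK2⟩ := lower_final D t σ ht0 hti hσ hβ hε
  obtain ⟨T0, hT03, hT0⟩ := loglog_large 0
  refine ⟨max T0 (max K1 K2), fun T H hT hH => ?_⟩
  have hTT : T0 ≤ T := (le_max_left _ _).trans hT
  have hT1 := (le_max_right _ _).trans hT
  have hl := hT0 T hTT
  have hT3 : 3 ≤ T := hT03.trans hTT
  have hTr : (1 : ℝ) ≤ T := by
    have : (3 : ℝ) ≤ T := by exact_mod_cast hT3
    linarith
  have hp : ∀ K' : ℕ, K' ≤ max T0 (max K1 K2) → (T : ℝ) ^ ((K' : ℝ) * Real.log (Real.log T)) ≤ H := by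
    intro K' hK'
    refine le_trans ?_ hH
    refine Real.rpow_le_rpow_of_exponent_le hTr ?_
    exact mul_le_mul_of_nonneg_right (by exact_mod_cast hK') hl
  have h1 := hK1 T H ((le_max_left _ _).trans hT1) (hp K1 ((le_max_left _ _).trans (le_max_right _ _)))
  have h2 := hK2 T H ((le_max_right _ _).trans hT1) (hp K2 ((le_max_right _ _).trans (le_max_right _ _)))
  rw [exp_rpow hT3] at h1 h2
  have e : prop H (Ev a G r t σ β T) = EB H (fun c => if Ev a G r t σ β T c then (1 : ℝ) else 0) := by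
    rw [Pool.Agent.U62.RB.prop_eq]
  rw [e]
  exact ⟨h2, h1⟩

end Pool.Agent.U62.LD
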