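import Pool.Agent.U62.LD.Loc
import Pool.Agent.U62.LD.Low
import Pool.Agent.U62.RB.Std

/-!
# Moderate deviations: general systems of local functions
-/

set_option autoImplicit false
set_option linter.unusedSectionVars false

namespace Pool.Agent.U62.LD

open Finset Filter Topology Pool.Agent.X280.BP
open Pool.Agent.Y722.HS (EM EB red)
open Pool.Agent.U62.RB (EB_add2 EM_nonneg')

variable {n k : ℕ}

/-- The exponential moment of a small centred function. -/
theorem loc_exp2 {p : ℕ} [NeZero p] (Y : (Fin n → ZMod p) → ℝ) {τ : ℝ} (hτ : 0 ≤ τ) (hY : ∀ c, |Y c| ≤ τ)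
    (h0 : EM p Y = 0) :
    EM p (fun c => Real.exp (Y c)) ≤ Real.exp (1 / 2 * EM p (fun c => Y c ^ 2) + (τ ^ 3 * Real.exp τ + τ ^ 4)) ∧
    Real.exp (1 / 2 * EM p (fun c => Y c ^ 2) - (τ ^ 3 * Real.exp τ + τ ^ 4)) ≤ EM p (fun c => Real.exp (Y c)) := by
  obtain ⟨V, hV⟩ : ∃ V : ℝ, V = EM p (fun c => Y c ^ 2) := ⟨_, rfl⟩
  obtain ⟨E, hE⟩ : ∃ E : ℝ, E = EM p (fun c => Real.exp (Y c)) := ⟨_, rfl⟩
  have hV0 : 0 ≤ V := hV ▸ EM_nonneg' p _ fun c => sq_nonneg _
  have hVb : V ≤ τ ^ 2 := by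
    rw [hV]
    have h := EM_mono2 p (fun c => Y c ^ 2) (fun _ => τ ^ 2) fun c => by
      rw [← sq_abs]
      exact pow_le_pow_left₀ (abs_nonneg _) (hY c) 2
    rwa [EM_const'] at h
  have h1 : |E - (1 + V / 2)| ≤ τ ^ 3 * Real.exp τ := by
    have h := EM_abs_sub p (fun c => Real.exp (Y c)) (fun c => 1 + (Y c + 1 / 2 * Y c ^ 2)) (fun _ => τ ^ 3 * Real.exp τ)
      (fun c => by
        have e : 1 + (Y c + 1 / 2 * Y c ^ 2) = 1 + Y c + Y c ^ 2 / 2 := by ring
        rw [e]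
        refine (exp_cubic (Y c)).trans ?_
        exact mul_le_mul (pow_le_pow_left₀ (abs_nonneg _) (hY c) 3) (Real.exp_le_exp.2 (hY c)) (Real.exp_pos _).le
          (by positivity))
    rw [EM_add2, EM_add2, EM_mul2, EM_const', EM_const', h0, ← hV, ← hE] at h
    refine le_trans (le_of_eq ?_) h
    congr 1
    ring
  have h2 : 1 ≤ E := by
    have h := EM_mono2 p (fun c => Y c + 1) (fun c => Real.exp (Y c)) fun c => Real.add_one_le_exp (Y c)
    rw [EM_add2, EM_const', h0, zero_add, ← hE] at h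
    exact h
  rw [← hV, ← hE]
  have hb3 : 0 ≤ τ ^ 3 * Real.exp τ := by positivity
  have hb4 : 0 ≤ τ ^ 4 := by positivity
  obtain ⟨h3, h4⟩ := abs_le.1 h1
  constructor
  · calc E ≤ (1 / 2 * V + (τ ^ 3 * Real.exp τ + τ ^ 4)) + 1 := by linarith
      _ ≤ _ := Real.add_one_le_exp _
  · obtain ⟨x, hx⟩ : ∃ x : ℝ, x = V / 2 - τ ^ 3 * Real.exp τ := ⟨_, rfl⟩
    have h5 : 1 + x ≤ E := by rw [hx]; linarith
    rcases le_or_gt x 0 with h6 | h6
    · refine le_trans ?_ h2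
      rw [Real.exp_le_one_iff]
      linarith
    · have h7 : x ^ 2 / 2 ≤ τ ^ 4 := by
        have h8 : x ≤ τ ^ 2 := by
          have : V / 2 ≤ V := by linarith
          linarith
        have h9 : x ^ 2 ≤ (τ ^ 2) ^ 2 := pow_le_pow_left₀ h6.le h8 2
        have e : (τ ^ 2) ^ 2 = τ ^ 4 := by ring
        rw [e] at h9
        linarith [sq_nonneg x]
      refine le_trans ?_ h5
      have h8 : Real.exp (x - x ^ 2 / 2) ≤ 1 + x := by
        have h9 := Real.le_log_one_add_of_nonneg h6.le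
        have h10 : x - x ^ 2 / 2 ≤ 2 * x / (x + 2) := by
          rw [le_div_iff₀ (by linarith)]
          nlinarith [pow_pos h6 3]
        calc Real.exp (x - x ^ 2 / 2) ≤ Real.exp (Real.log (1 + x)) := Real.exp_le_exp.2 (h10.trans h9)
          _ = 1 + x := Real.exp_log (by linarith)
      refine le_trans (Real.exp_le_exp.2 ?_) h8
      linarith

/-- The sums over a box. -/
def Xg (P : Finset ℕ) (Z : Fin k → ∀ p : ℕ, (Fin n → ZMod p) → ℝ) (j : Fin k) (c : Fin n → ℤ) : ℝ :=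
  ∑ p ∈ P, Z j p (red p c)

/-- The model. -/
def Xh (P : Finset ℕ) (Z : Fin k → ∀ p : ℕ, (Fin n → ZMod p) → ℝ) (j : Fin k) (x : Fin n → ZMod (MM P)) : ℝ :=
  ∑ p ∈ P, Z j p (cst P p x)

/-- The linear combination of the local functions. -/
def yg (Z : Fin k → ∀ p : ℕ, (Fin n → ZMod p) → ℝ) (s : Fin k → ℝ) (p : ℕ) (x : Fin n → ZMod p) : ℝ := ∑ j, s j * Z j p x

theorem lin_Xg (P : Finset ℕ) (Z : Fin k → ∀ p : ℕ, (Fin n → ZMod p) → ℝ) (s : Fin k → ℝ) (c : Fin n → ℤ) :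
    lin s (Xg P Z) c = ∑ p ∈ P, yg Z s p (red p c) := by
  unfold lin Xg yg
  rw [Finset.sum_comm]
  exact Finset.sum_congr rfl fun j _ => Finset.mul_sum _ _ _

theorem lin_Xh (P : Finset ℕ) (Z : Fin k → ∀ p : ℕ, (Fin n → ZMod p) → ℝ) (s : Fin k → ℝ) (x : Fin n → ZMod (MM P)) :
    lin s (Xh P Z) x = ∑ p ∈ P, yg Z s p (cst P p x) := by
  unfold lin Xh yg
  rw [Finset.sum_comm]
  exact Finset.sum_congr rfl fun j _ => Finset.mul_sum _ _ _

theorem yg_abs {Z : Fin k → ∀ p : ℕ, (Fin n → ZMod p) → ℝ} {s : Fin k → ℝ} {S τ : ℝ} (hS : 0 ≤ S) (hs : ∀ j, |s j| ≤ S)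
    {p : ℕ} (hZ : ∀ i x, |Z i p x| ≤ τ) (x : Fin n → ZMod p) : |yg Z s p x| ≤ k * S * τ := by
  unfold yg
  refine (Finset.abs_sum_le_sum_abs _ _).trans ?_
  calc ∑ j, |s j * Z j p x| ≤ ∑ _j : Fin k, S * τ := by
        refine Finset.sum_le_sum fun j _ => ?_
        rw [abs_mul]
        exact mul_le_mul (hs j) (hZ j x) (abs_nonneg _) hS
    _ = _ := by
        rw [Finset.sum_const, Finset.card_univ, Fintype.card_fin, nsmul_eq_mul]
        ring

theorem yg_mean {Z : Fin k → ∀ p : ℕ, (Fin n → ZMod p) → ℝ} {s : Fin k → ℝ} {p : ℕ} [NeZero p]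
    (hZ : ∀ i, lme p (Z i p) = 0) : EM p (yg Z s p) = 0 := by
  have e : yg Z s p = fun x => ∑ j, s j * Z j p x := by
    funext x
    rfl
  rw [e, EM_sum2]
  refine Finset.sum_eq_zero fun j _ => ?_
  rw [EM_mul2]
  have h := hZ j
  rw [lme_eq] at h
  have e2 : EM p (fun c => Z j p c) = EM p (Z j p) := rfl
  rw [e2, h, mul_zero]

theorem yg_sq {Z : Fin k → ∀ p : ℕ, (Fin n → ZMod p) → ℝ} {s : Fin k → ℝ} {p : ℕ} [NeZero p] :
    EM p (fun x => yg Z s p x ^ 2) = ∑ i, ∑ j, s i * s j * lme p (fun x => Z i p x * Z j p x) := by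
  have e : (fun x => yg Z s p x ^ 2) = fun x => ∑ i, ∑ j, s i * s j * (Z i p x * Z j p x) := by
    funext x
    rw [sq]
    unfold yg
    rw [Finset.sum_mul_sum]
    exact Finset.sum_congr rfl fun i _ => Finset.sum_congr rfl fun j _ => by ring
  rw [e, EM_sum2]
  refine Finset.sum_congr rfl fun i _ => ?_
  rw [EM_sum2]
  refine Finset.sum_congr rfl fun j _ => ?_
  rw [EM_mul2, lme_eq]

/-- The hypotheses of the abstract theorem. -/
theorem hyp_gen (n k : ℕ) {S A : ℝ} (hS : 0 ≤ S) (hA : 0 ≤ A) : ∃ C2 : ℝ, 0 ≤ C2 ∧ ∃ y0 : ℕ,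
    ∀ (P : Finset ℕ) (Z : Fin k → ∀ p : ℕ, (Fin n → ZMod p) → ℝ) (τ l : ℝ) (y H m : ℕ), (∀ p ∈ P, p.Prime ∧ p ≤ y) →
      0 ≤ τ → τ ≤ A → P.card * τ ^ 3 ≤ A → (∀ i, ∀ p ∈ P, ∀ x, |Z i p x| ≤ τ) → (∀ i, ∀ p ∈ P, lme p (Z i p) = 0) →
      (∀ i j, |∑ p ∈ P, lme p (fun x => Z i p x * Z j p x) - if i = j then l else 0| ≤ A) → y0 ≤ y → 1 ≤ l → l ≤ m →
      y ^ (16 * m) ≤ H → ∀ [NeZero (MM P)], Hyp (Xg P Z) (Xh P Z) H (fun _ => 1) l C2 S m := by
  obtain ⟨b, hb⟩ : ∃ b : ℝ, b = k * S * A := ⟨_, rfl⟩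
  have hb0 : 0 ≤ b := by rw [hb]; positivity
  obtain ⟨D, hD⟩ : ∃ D : ℝ, D = (k * S) ^ 3 * A * (Real.exp b + b) := ⟨_, rfl⟩
  have hD0 : 0 ≤ D := by rw [hD]; positivity
  refine ⟨D + 1 / 2 * (k * (k * (S * S * A))), by positivity, max 3 (max ⌈b⌉₊ (9 * 2 ^ n)),
    fun P Z τ l y H m hP hτ0 hτA hτ3 hZ hZ0 hcov hy hl1 hlm hH _ => ?_⟩
  have hy3 : 3 ≤ y := (le_max_left _ _).trans hy
  have hy1 := (le_max_right _ _).trans hy
  have hyb : b ≤ y := (Nat.le_ceil _).trans (by exact_mod_cast (le_max_left _ _).trans hy1)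
  have hyn : (9 : ℝ) * 2 ^ n ≤ y := by exact_mod_cast (le_max_right _ _).trans hy1
  have hyr : (3 : ℝ) ≤ y := by exact_mod_cast hy3
  have hmr : (1 : ℝ) ≤ m := hl1.trans hlm
  have hm1 : 1 ≤ m := by exact_mod_cast hmr
  have hl0 : 0 < l := by linarith
  have hPp : ∀ p ∈ P, p.Prime := fun p hp => (hP p hp).1
  have hexp : ∀ s : Fin k → ℝ, (∀ j, |s j| ≤ S) →
      EM (MM P) (fun x => Real.exp (lin s (Xh P Z) x)) ≤ Real.exp (Qf (fun _ => 1) s / 2 * l + (D + 1 / 2 * (k * (k * (S * S * A))))) ∧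
      Real.exp (Qf (fun _ => 1) s / 2 * l - (D + 1 / 2 * (k * (k * (S * S * A))))) ≤
        EM (MM P) (fun x => Real.exp (lin s (Xh P Z) x)) := by
    intro s hs
    obtain ⟨t, ht⟩ : ∃ t : ℝ, t = k * S * τ := ⟨_, rfl⟩
    have ht0 : 0 ≤ t := by rw [ht]; positivity
    have htb : t ≤ b := by
      rw [ht, hb]
      exact mul_le_mul_of_nonneg_left hτA (by positivity)
    obtain ⟨V, hV⟩ : ∃ V : ℕ → ℝ, V = fun p => lme p (fun x => yg Z s p x ^ 2) := ⟨_, rfl⟩
    have hVs : |∑ p ∈ P, V p - Qf (fun _ => 1) s * l| ≤ k * (k * (S * S * A)) := by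
      have e1 : ∑ p ∈ P, V p = ∑ i, ∑ j, s i * s j * ∑ p ∈ P, lme p (fun x => Z i p x * Z j p x) := by
        have e2 : ∀ p ∈ P, V p = ∑ i, ∑ j, s i * s j * lme p (fun x => Z i p x * Z j p x) := by
          intro p hp
          have hne : NeZero p := ⟨(hPp p hp).ne_zero⟩
          rw [hV]
          dsimp only
          rw [lme_eq, yg_sq]
        rw [Finset.sum_congr rfl e2, Finset.sum_comm]
        refine Finset.sum_congr rfl fun i _ => ?_
        rw [Finset.sum_comm]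
        exact Finset.sum_congr rfl fun j _ => (Finset.mul_sum _ _ _).symm
      have e2 : Qf (fun _ => 1) s * l = ∑ i, ∑ j, s i * s j * (if i = j then l else 0) := by
        unfold Qf
        rw [Finset.sum_mul]
        refine Finset.sum_congr rfl fun i _ => ?_
        rw [Finset.sum_eq_single i]
        · rw [if_pos rfl]
          ring
        · intro j _ hj
          rw [if_neg (Ne.symm hj), mul_zero]
        · intro h
          exact absurd (Finset.mem_univ i) h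
      rw [e1, e2, ← Finset.sum_sub_distrib]
      refine (Finset.abs_sum_le_sum_abs _ _).trans ?_
      calc ∑ i, |∑ j, s i * s j * ∑ p ∈ P, lme p (fun x => Z i p x * Z j p x) - ∑ j, s i * s j * (if i = j then l else 0)| ≤
          ∑ _i : Fin k, ∑ _j : Fin k, S * S * A := by
            refine Finset.sum_le_sum fun i _ => ?_
            rw [← Finset.sum_sub_distrib]
            refine (Finset.abs_sum_le_sum_abs _ _).trans (Finset.sum_le_sum fun j _ => ?_)
            rw [← mul_sub, abs_mul, abs_mul]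
            exact mul_le_mul (mul_le_mul (hs i) (hs j) (abs_nonneg _) hS) (hcov i j) (abs_nonneg _) (by positivity)
        _ = _ := by
            rw [Finset.sum_const, Finset.sum_const, Finset.card_univ, Fintype.card_fin, nsmul_eq_mul, nsmul_eq_mul]
    have hloc : ∀ p ∈ P, lme p (fun c => Real.exp (yg Z s p c)) ≤ Real.exp (1 / 2 * V p + (t ^ 3 * Real.exp t + t ^ 4)) ∧
        Real.exp (1 / 2 * V p - (t ^ 3 * Real.exp t + t ^ 4)) ≤ lme p (fun c => Real.exp (yg Z s p c)) := by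
      intro p hp
      have hne : NeZero p := ⟨(hPp p hp).ne_zero⟩
      have h := loc_exp2 (yg Z s p) ht0 (fun c => by
        rw [ht]
        exact yg_abs hS hs (fun i x => hZ i p hp x) c) (yg_mean fun i => hZ0 i p hp)
      rw [hV]
      dsimp only
      rw [lme_eq, lme_eq]
      exact h
    have hsum : ∑ _p ∈ P, (t ^ 3 * Real.exp t + t ^ 4) ≤ D := by
      rw [Finset.sum_const, nsmul_eq_mul]
      have h1 : (P.card : ℝ) * (t ^ 3 * Real.exp t + t ^ 4) = (k * S) ^ 3 * (P.card * τ ^ 3) * (Real.exp t + t) := by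
        have : t ^ 3 = (k * S) ^ 3 * τ ^ 3 := by rw [ht]; ring
        calc (P.card : ℝ) * (t ^ 3 * Real.exp t + t ^ 4) = P.card * t ^ 3 * (Real.exp t + t) := by ring
          _ = _ := by rw [this]; ring
      rw [h1, hD]
      refine mul_le_mul (mul_le_mul_of_nonneg_left hτ3 (by positivity)) ?_ (by positivity) (by positivity)
      exact add_le_add (Real.exp_le_exp.2 htb) htb
    have e : EM (MM P) (fun x => Real.exp (lin s (Xh P Z) x)) = ∏ p ∈ P, lme p (fun c => Real.exp (yg Z s p c)) := by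
      rw [← EM_prod hPp]
      congr 1
      funext x
      rw [lin_Xh, Real.exp_sum]
    rw [e]
    obtain ⟨h1, h2⟩ := abs_le.1 hVs
    constructor
    · calc ∏ p ∈ P, lme p (fun c => Real.exp (yg Z s p c)) ≤ ∏ p ∈ P, Real.exp (1 / 2 * V p + (t ^ 3 * Real.exp t + t ^ 4)) := by
            refine Finset.prod_le_prod (fun p hp => ?_) fun p hp => (hloc p hp).1
            exact (Real.exp_pos _).le.trans (hloc p hp).2
        _ = Real.exp (1 / 2 * ∑ p ∈ P, V p + ∑ _p ∈ P, (t ^ 3 * Real.exp t + t ^ 4)) := by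
            rw [← Real.exp_sum, Finset.sum_add_distrib, ← Finset.mul_sum]
        _ ≤ _ := by
            rw [Real.exp_le_exp]
            linarith
    · calc Real.exp (Qf (fun _ => 1) s / 2 * l - (D + 1 / 2 * (k * (k * (S * S * A))))) ≤
          Real.exp (1 / 2 * ∑ p ∈ P, V p - ∑ _p ∈ P, (t ^ 3 * Real.exp t + t ^ 4)) := by
            rw [Real.exp_le_exp]
            linarith
        _ = ∏ p ∈ P, Real.exp (1 / 2 * V p - (t ^ 3 * Real.exp t + t ^ 4)) := by
            rw [← Real.exp_sum, Finset.sum_sub_distrib, ← Finset.mul_sum]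
        _ ≤ _ := Finset.prod_le_prod (fun p _ => (Real.exp_pos _).le) fun p hp => (hloc p hp).2
  refine ⟨fun s hs i hi => ?_, fun s hs => (hexp s hs).1, fun s hs => (hexp s hs).2⟩
  have h1 := mom_big hPp (x := y) (fun p hp => (hP p hp).2) (yg Z s) (b := b) (fun p hp c => by
    have h := yg_abs hS hs (fun i x => hZ i p hp x) c
    refine h.trans ?_
    rw [hb]
    exact mul_le_mul_of_nonneg_left hτA (by positivity)) i H (by
      have h2 : y ^ i ≤ y ^ (16 * m) := Nat.pow_le_pow_right (by omega) (by omega)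
      omega)
  simp only [lin_Xg, lin_Xh]
  refine h1.trans ?_
  have hcard : ((P.card : ℕ) : ℝ) * b ≤ (y : ℝ) ^ 2 := by
    have h2 : P.card ≤ y := by
      have h3 : P ⊆ Finset.Icc 1 y := fun p hp => Finset.mem_Icc.2 ⟨(hPp p hp).pos, (hP p hp).2⟩
      have h4 := Finset.card_le_card h3
      rwa [Nat.card_Icc, Nat.add_sub_cancel] at h4
    have h3 : ((P.card : ℕ) : ℝ) ≤ y := by exact_mod_cast h2
    calc ((P.card : ℕ) : ℝ) * b ≤ y * y := mul_le_mul h3 hyb hb0 (by linarith)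
      _ = (y : ℝ) ^ 2 := by ring
  have hHr : (y : ℝ) ^ (16 * m) ≤ 2 * (H : ℝ) + 1 := by
    have h2 : (y : ℝ) ^ (16 * m) ≤ H := by exact_mod_cast hH
    have : (0 : ℝ) ≤ H := Nat.cast_nonneg H
    linarith
  have hH0 : (0 : ℝ) < 2 * (H : ℝ) + 1 := by positivity
  have hexl : Real.exp l ≤ (y : ℝ) ^ m := by
    have h2 : Real.exp 1 ≤ y := by
      have := Real.exp_one_lt_d9
      linarith
    calc Real.exp l ≤ Real.exp (m * 1) := Real.exp_le_exp.2 (by linarith)
      _ = Real.exp 1 ^ m := by rw [Real.exp_nat_mul]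
      _ ≤ (y : ℝ) ^ m := pow_le_pow_left₀ (Real.exp_pos _).le h2 m
  have he : Real.exp (-l) / 9 = 1 / (9 * Real.exp l) := by
    rw [Real.exp_neg]
    field_simp
  rw [he]
  calc 2 ^ n * ((y : ℝ) ^ i / (2 * H + 1)) * ((P.card : ℕ) * b) ^ i ≤
      2 ^ n * ((y : ℝ) ^ i / (2 * H + 1)) * ((y : ℝ) ^ 2) ^ i :=
        mul_le_mul_of_nonneg_left (pow_le_pow_left₀ (by positivity) hcard i) (by positivity)
    _ = 2 ^ n * (y : ℝ) ^ (3 * i) / (2 * H + 1) := by
        rw [← pow_mul, show 3 * i = i + 2 * i by ring, pow_add]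
        ring
    _ ≤ 1 / (9 * Real.exp l) := by
        rw [div_le_div_iff₀ hH0 (by positivity), one_mul]
        calc 2 ^ n * (y : ℝ) ^ (3 * i) * (9 * Real.exp l) = (9 * 2 ^ n) * Real.exp l * (y : ℝ) ^ (3 * i) := by ring
          _ ≤ (y : ℝ) * (y : ℝ) ^ m * (y : ℝ) ^ (12 * m) := by
              refine mul_le_mul (mul_le_mul hyn hexl (Real.exp_pos _).le (by linarith)) ?_ (by positivity) (by positivity)
              exact pow_le_pow_right₀ (by linarith) (by omega)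
          _ = (y : ℝ) ^ (13 * m + 1) := by
              rw [pow_succ, show 13 * m = m + 12 * m by ring, pow_add]
              ring
          _ ≤ (y : ℝ) ^ (16 * m) := pow_le_pow_right₀ (by linarith) (by omega)
          _ ≤ 2 * (H : ℝ) + 1 := hHr

end Pool.Agent.U62.LD
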