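import Pool.Agent.U62.LD.Abs
import Pool.Agent.U62.SC.Fam

/-!
# Large deviations: the local functions
-/

set_option autoImplicit false
set_option linter.unusedSectionVars false

namespace Pool.Agent.U62.LD

open Finset Filter Topology Pool.Agent.X280.BP Pool.Agent.U62.SC
open Pool.Agent.Y722.HS (EM EB red)
open Pool.Agent.U62.RB (EB_add2 EM_nonneg')

variable {n : ℕ} {a : ∀ p : ℕ, (Fin n → ZMod p) → ℝ} {G : ∀ p : ℕ, (Fin n → ZMod p) → Prop} {r C : ℝ}

/-- `p ^ (-3/2)`. -/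
noncomputable def w3 (p : ℕ) : ℝ := 1 / ((p : ℝ) * √p)

theorem w3_pos {p : ℕ} (hp : 0 < p) : 0 < w3 p := by
  have : (0 : ℝ) < p := by exact_mod_cast hp
  unfold w3
  positivity

theorem w3_le {p : ℕ} (hp : 0 < p) : w3 p ≤ 1 / p := by
  have hp1 : (1 : ℝ) ≤ p := by exact_mod_cast hp
  have hs : 1 ≤ √(p : ℝ) := Real.one_le_sqrt.2 hp1
  unfold w3
  apply one_div_le_one_div_of_le (by linarith)
  exact le_mul_of_one_le_right (by linarith) hs

open Classical in
/-- The local summand. -/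
noncomputable def gl (a : ∀ p : ℕ, (Fin n → ZMod p) → ℝ) (G : ∀ p : ℕ, (Fin n → ZMod p) → Prop) (t : ℝ) (p : ℕ)
    (c : Fin n → ZMod p) : ℝ :=
  if G p c then -Real.log ‖1 - (a p c : ℂ) * xx t p + (p : ℂ) * xx t p ^ 2‖ else 0

theorem lel_gl (T : ℕ) (t : ℝ) (c : Fin n → ℤ) : lel a G T t c = ∑ p ∈ PP T, gl a G t p (red p c) := by
  unfold lel gl
  rfl

/-- The centred local summand. -/
noncomputable def zl (a : ∀ p : ℕ, (Fin n → ZMod p) → ℝ) (G : ∀ p : ℕ, (Fin n → ZMod p) → Prop) (t : ℝ) (p : ℕ)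
    (c : Fin n → ZMod p) : ℝ := gl a G t p c - lme p (gl a G t p)

theorem EM_abs_sub (p : ℕ) [NeZero p] (f g w : (Fin n → ZMod p) → ℝ) (h : ∀ c, |f c - g c| ≤ w c) :
    |EM p f - EM p g| ≤ EM p w := by
  have h1 : EM p f ≤ EM p g + EM p w := by
    rw [← EM_add2]
    exact EM_mono2 p _ _ fun c => by linarith [(abs_le.1 (h c)).2]
  have h2 : EM p g ≤ EM p f + EM p w := by
    rw [← EM_add2]
    exact EM_mono2 p _ _ fun c => by linarith [(abs_le.1 (h c)).1]
  rw [abs_le]
  constructor <;> linarith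

theorem EM_abs_const (p : ℕ) [NeZero p] (f : (Fin n → ZMod p) → ℝ) {x w : ℝ} (h : ∀ c, |f c - x| ≤ w) :
    |EM p f - x| ≤ w := by
  have h1 := EM_abs_sub p f (fun _ => x) (fun _ => w) h
  rwa [EM_const', EM_const'] at h1

/-- The main part of the local summand. -/
noncomputable def hl (a : ∀ p : ℕ, (Fin n → ZMod p) → ℝ) (r t : ℝ) (p : ℕ) (c : Fin n → ZMod p) : ℝ :=
  kp t p / p * (a p c - ma a p) - r * (kp t p / p) - 1 / 2 * (kp (2 * t) p / p) +
        kp (2 * t) p / (2 * p) * ((a p c ^ 2 - ms a p) / p)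

theorem hl_mean {p : ℕ} (t : ℝ) [NeZero p] :
    EM p (hl a r t p) = -(r * (kp t p / p) + 1 / 2 * (kp (2 * t) p / p)) := by
  have e : hl a r t p = fun c => kp t p / p * (a p c) + (kp (2 * t) p / (2 * p) / p * (a p c ^ 2) +
      (-(kp t p / p * ma a p) - r * (kp t p / p) - 1 / 2 * (kp (2 * t) p / p) - kp (2 * t) p / (2 * p) / p * ms a p)) := by
    funext c
    unfold hl
    ring
  rw [e, EM_add2, EM_add2, EM_mul2, EM_mul2, EM_const', ← ma_eq, ← ms_eq]
  ring

theorem ite_mean (D : Dat a G r C) {p : ℕ} (hp : p.Prime) (h5 : 5 ≤ p) [NeZero p] [DecidablePred (G p)] :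
    EM p (fun c => if G p c then (0 : ℝ) else 1) ≤ C / √p := by
  refine le_trans (le_of_eq ?_) (D.few p hp h5)
  congr 1
  funext c
  congr

theorem gl_mean (D : Dat a G r C) {p : ℕ} (hp : p.Prime) (h5 : 5 ≤ p) (t : ℝ) :
    |lme p (gl a G t p) + (r * (kp t p / p) + 1 / 2 * (kp (2 * t) p / p))| ≤ (2 + 5 * C) * w3 p := by
  classical
  have hne : NeZero p := ⟨hp.ne_zero⟩
  have hp0 : (0 : ℝ) < p := by exact_mod_cast hp.pos
  have hs : 0 < √(p : ℝ) := Real.sqrt_pos.2 hp0
  rw [lme_eq]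
  have h1 := EM_abs_sub p (gl a G t p) (hl a r t p)
    (fun c => 3 / (p : ℝ) * (if G p c then (0 : ℝ) else 1) + (2 + 2 * C) * (1 / ((p : ℝ) * √p))) (fun c => by
      have h := near_term D hp h5 t c
      have e : gl a G t p c = if G p c then -Real.log ‖1 - (a p c : ℂ) * xx t p + (p : ℂ) * xx t p ^ 2‖ else 0 := by
        unfold gl
        congr
      rw [e]
      refine h.trans (le_of_eq ?_)
      ring)
  rw [hl_mean t, sub_neg_eq_add, EM_add2, EM_mul2, EM_const'] at h1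
  refine h1.trans ?_
  have h2 := ite_mean D hp h5
  have h3 : 3 / (p : ℝ) * EM p (fun c => if G p c then (0 : ℝ) else 1) ≤ 3 / (p : ℝ) * (C / √p) :=
    mul_le_mul_of_nonneg_left h2 (by positivity)
  have e : 3 / (p : ℝ) * (C / √p) = 3 * C * (1 / ((p : ℝ) * √p)) := by
    field_simp
  rw [e] at h3
  unfold w3
  linarith

/-- The constant. -/
noncomputable def AA (r C : ℝ) : ℝ := 20 + 10 * C + 4 * |r|

theorem ma_abs (D : Dat a G r C) {p : ℕ} (hp : p.Prime) (h5 : 5 ≤ p) : |ma a p| ≤ |r| + C := by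
  have hne : NeZero p := ⟨hp.ne_zero⟩
  have hp1 : (1 : ℝ) ≤ p := by exact_mod_cast hp.one_lt.le
  have hs1 : 1 ≤ √(p : ℝ) := Real.one_le_sqrt.2 hp1
  have h2 := D.mean p hp h5
  have hC := D.C1
  rw [← ma_eq p] at h2
  have e : ma a p = (ma a p + r) - r := by ring
  rw [e]
  refine (abs_sub _ _).trans ?_
  have : C / √(p : ℝ) ≤ C := div_le_self (by linarith) hs1
  linarith

theorem ms_bd (D : Dat a G r C) {p : ℕ} (hp : p.Prime) (h5 : 5 ≤ p) : 0 ≤ ms a p ∧ ms a p ≤ 4 * p := by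
  have hne : NeZero p := ⟨hp.ne_zero⟩
  rw [ms_eq]
  refine ⟨EM_nonneg' p _ fun c => sq_nonneg _, ?_⟩
  have h := Pool.Agent.X280.BP.EM_mono' p (fun c => a p c ^ 2) (fun _ => 4 * (p : ℝ)) fun c => sq_four D hp h5 c
  rwa [EM_const'] at h

theorem zl_near (D : Dat a G r C) {p : ℕ} (hp : p.Prime) (h5 : 5 ≤ p) (t : ℝ) (c : Fin n → ZMod p) :
    |zl a G t p c - kp t p / p * a p c| ≤ AA r C * (1 / p) := by
  classical
  have hp0 : (0 : ℝ) < p := by exact_mod_cast hp.pos
  have hC := D.C1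
  have h1 := near_term D hp h5 t c
  have h2 := gl_mean D hp h5 t
  have e : gl a G t p c = if G p c then -Real.log ‖1 - (a p c : ℂ) * xx t p + (p : ℂ) * xx t p ^ 2‖ else 0 := by
    unfold gl
    congr
  rw [← e] at h1
  have hw := w3_le hp.pos
  have hw0 := (w3_pos hp.pos).le
  have h3 : 3 * ((if G p c then (0 : ℝ) else 1) * (1 / p)) ≤ 3 * (1 / (p : ℝ)) := by
    have : (0 : ℝ) ≤ 1 / p := by positivity
    split_ifs <;> linarith
  have h4 : (2 + 2 * C) * (1 / ((p : ℝ) * √p)) ≤ (2 + 2 * C) * (1 / p) :=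
    mul_le_mul_of_nonneg_left hw (by linarith)
  have h5' : (2 + 5 * C) * w3 p ≤ (2 + 5 * C) * (1 / p) := mul_le_mul_of_nonneg_left hw (by linarith)
  have h6 : |kp t p / p * ma a p| ≤ (|r| + C) * (1 / p) := by
    rw [abs_mul, abs_div, abs_of_pos hp0]
    have h7 := ma_abs D hp h5
    calc |kp t p| / p * |ma a p| ≤ 1 / p * (|r| + C) :=
          mul_le_mul (div_le_div_of_nonneg_right (kp_abs t p) hp0.le) h7 (abs_nonneg _) (by positivity)
      _ = _ := by ring
  have h7 : |kp (2 * t) p / (2 * p) * ((a p c ^ 2 - ms a p) / p)| ≤ 2 * (1 / (p : ℝ)) := by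
    have h8 := sq_four D hp h5 c
    obtain ⟨h9, h10⟩ := ms_bd D hp h5
    have h11 : |(a p c ^ 2 - ms a p) / p| ≤ 4 := by
      rw [abs_div, abs_of_pos hp0, div_le_iff₀ hp0, abs_le]
      have := sq_nonneg (a p c)
      constructor <;> linarith
    rw [abs_mul, abs_div, abs_of_pos (by linarith : (0 : ℝ) < 2 * p)]
    calc |kp (2 * t) p| / (2 * p) * |(a p c ^ 2 - ms a p) / p| ≤ 1 / (2 * p) * 4 :=
          mul_le_mul (div_le_div_of_nonneg_right (kp_abs _ p) (by linarith)) h11 (abs_nonneg _) (by positivity)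
      _ = 2 * (1 / p) := by
          field_simp
          norm_num
  have e2 : zl a G t p c - kp t p / p * a p c =
      (gl a G t p c - (kp t p / p * (a p c - ma a p) - r * (kp t p / p) - 1 / 2 * (kp (2 * t) p / p) +
        kp (2 * t) p / (2 * p) * ((a p c ^ 2 - ms a p) / p))) -
      (lme p (gl a G t p) + (r * (kp t p / p) + 1 / 2 * (kp (2 * t) p / p))) - kp t p / p * ma a p +
      kp (2 * t) p / (2 * p) * ((a p c ^ 2 - ms a p) / p) := by
    unfold zl
    ring
  rw [e2]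
  refine (abs_add_le _ _).trans ?_
  refine (add_le_add (abs_sub _ _) h7).trans ?_
  have h8 := (abs_sub (gl a G t p c - (kp t p / p * (a p c - ma a p) - r * (kp t p / p) - 1 / 2 * (kp (2 * t) p / p) +
        kp (2 * t) p / (2 * p) * ((a p c ^ 2 - ms a p) / p)))
      (lme p (gl a G t p) + (r * (kp t p / p) + 1 / 2 * (kp (2 * t) p / p))))
  have hi : (0 : ℝ) ≤ 1 / p := by positivity
  have hr : 0 ≤ |r| * (1 / (p : ℝ)) := by positivity
  have hCi : 0 ≤ C * (1 / (p : ℝ)) := by positivity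
  unfold AA
  linarith

theorem zl_abs (D : Dat a G r C) {p : ℕ} (hp : p.Prime) (h5 : 5 ≤ p) (t : ℝ) (c : Fin n → ZMod p) :
    |zl a G t p c| ≤ (2 + AA r C) / √p := by
  have hp0 : (0 : ℝ) < p := by exact_mod_cast hp.pos
  have hp1 : (1 : ℝ) ≤ p := by exact_mod_cast hp.one_lt.le
  have hs : 0 < √(p : ℝ) := Real.sqrt_pos.2 hp0
  have hs1 : 1 ≤ √(p : ℝ) := Real.one_le_sqrt.2 hp1
  have hs2 : √(p : ℝ) * √(p : ℝ) = p := Real.mul_self_sqrt hp0.le
  have hC := D.C1
  have hA : 0 ≤ AA r C := by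
    unfold AA
    positivity
  have h1 := zl_near D hp h5 t c
  have h2 : |kp t p / p * a p c| ≤ 2 / √p := by
    rw [abs_mul, abs_div, abs_of_pos hp0]
    calc |kp t p| / p * |a p c| ≤ 1 / p * (2 * √p) :=
          mul_le_mul (div_le_div_of_nonneg_right (kp_abs t p) hp0.le) (D.hasse p hp h5 c) (abs_nonneg _) (by positivity)
      _ = 2 / √p := by
          rw [one_div, inv_mul_eq_div, div_eq_div_iff hp0.ne' hs.ne', mul_assoc, hs2]
  have h3 : (1 : ℝ) / p ≤ 1 / √p := by
    apply one_div_le_one_div_of_le hs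
    calc √(p : ℝ) ≤ √(p : ℝ) * √(p : ℝ) := le_mul_of_one_le_right hs.le hs1
      _ = p := hs2
  have h4 : AA r C * (1 / p) ≤ AA r C * (1 / √p) := mul_le_mul_of_nonneg_left h3 hA
  have e : zl a G t p c = (zl a G t p c - kp t p / p * a p c) + kp t p / p * a p c := by ring
  rw [e]
  refine (abs_add_le _ _).trans ?_
  have e2 : (2 + AA r C) / √(p : ℝ) = 2 / √p + AA r C * (1 / √p) := by ring
  rw [e2]
  linarith

theorem zl_mean {p : ℕ} [NeZero p] (t : ℝ) : EM p (zl a G t p) = 0 := by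
  have e : zl a G t p = fun c => gl a G t p c + -(lme p (gl a G t p)) := by
    funext c
    unfold zl
    ring
  rw [e, EM_add2, EM_const', lme_eq]
  ring

theorem zl_cov (D : Dat a G r C) {p : ℕ} (hp : p.Prime) (h5 : 5 ≤ p) [NeZero p] (t t' : ℝ) :
    |EM p (fun c => zl a G t p c * zl a G t' p c) - kp t p * kp t' p / p| ≤ (AA r C * (4 + AA r C) + C) * w3 p := by
  have hp0 : (0 : ℝ) < p := by exact_mod_cast hp.pos
  have hs : 0 < √(p : ℝ) := Real.sqrt_pos.2 hp0
  have hs2 : √(p : ℝ) * √(p : ℝ) = p := Real.mul_self_sqrt hp0.le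
  have hC := D.C1
  have hA : 0 ≤ AA r C := by
    unfold AA
    positivity
  have h1 := EM_abs_sub p (fun c => zl a G t p c * zl a G t' p c) (fun c => kp t p / p * (kp t' p / p) * a p c ^ 2)
    (fun _ => AA r C * (4 + AA r C) * w3 p) (fun c => by
      have u1 := zl_near D hp h5 t c
      have u2 := zl_near D hp h5 t' c
      have u3 := zl_abs D hp h5 t' c
      have u4 : |kp t p / p * a p c| ≤ 2 / √p := by
        rw [abs_mul, abs_div, abs_of_pos hp0]
        calc |kp t p| / p * |a p c| ≤ 1 / p * (2 * √p) :=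
              mul_le_mul (div_le_div_of_nonneg_right (kp_abs t p) hp0.le) (D.hasse p hp h5 c) (abs_nonneg _) (by positivity)
          _ = 2 / √p := by
              rw [one_div, inv_mul_eq_div, div_eq_div_iff hp0.ne' hs.ne', mul_assoc, hs2]
      have e : zl a G t p c * zl a G t' p c - kp t p / p * (kp t' p / p) * a p c ^ 2 =
          (zl a G t p c - kp t p / p * a p c) * zl a G t' p c + kp t p / p * a p c * (zl a G t' p c - kp t' p / p * a p c) := by
        ring
      rw [e]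
      refine (abs_add_le _ _).trans ?_
      rw [abs_mul, abs_mul (kp t p / p * a p c)]
      calc |zl a G t p c - kp t p / p * a p c| * |zl a G t' p c| + |kp t p / p * a p c| * |zl a G t' p c - kp t' p / p * a p c| ≤
          AA r C * (1 / p) * ((2 + AA r C) / √p) + 2 / √p * (AA r C * (1 / p)) :=
            add_le_add (mul_le_mul u1 u3 (abs_nonneg _) (by positivity)) (mul_le_mul u4 u2 (abs_nonneg _) (by positivity))
        _ = AA r C * (4 + AA r C) * w3 p := by
            unfold w3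
            field_simp
            ring)
  rw [EM_const', EM_mul2, ← ms_eq] at h1
  have h2 : |kp t p / p * (kp t' p / p) * ms a p - kp t p * kp t' p / p| ≤ C * w3 p := by
    have h3 := D.sq p hp h5
    rw [← ms_eq p] at h3
    have e : kp t p / p * (kp t' p / p) * ms a p - kp t p * kp t' p / p = kp t p * kp t' p / (p : ℝ) ^ 2 * (ms a p - p) := by
      field_simp
    rw [e, abs_mul, abs_div, abs_mul, abs_of_pos (by positivity : (0 : ℝ) < (p : ℝ) ^ 2)]
    have h10 : |kp t p| * |kp t' p| ≤ 1 := mul_le_one₀ (kp_abs _ _) (abs_nonneg _) (kp_abs _ _)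
    calc |kp t p| * |kp t' p| / (p : ℝ) ^ 2 * |ms a p - p| ≤ 1 / (p : ℝ) ^ 2 * (C * √p) :=
          mul_le_mul (div_le_div_of_nonneg_right h10 (by positivity)) h3 (abs_nonneg _) (by positivity)
      _ = C * w3 p := by
          unfold w3
          field_simp
          rw [sq, hs2]
  have e : EM p (fun c => zl a G t p c * zl a G t' p c) - kp t p * kp t' p / p =
      (EM p (fun c => zl a G t p c * zl a G t' p c) - kp t p / p * (kp t' p / p) * ms a p) +
      (kp t p / p * (kp t' p / p) * ms a p - kp t p * kp t' p / p) := by ring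
  rw [e]
  refine (abs_add_le _ _).trans ?_
  rw [add_mul]
  exact add_le_add h1 h2

theorem exp_cubic (y : ℝ) : |Real.exp y - (1 + y + y ^ 2 / 2)| ≤ |y| ^ 3 * Real.exp |y| := by
  have h := Complex.norm_exp_sub_sum_le_norm_mul_exp (y : ℂ) 3
  have e : Complex.exp (y : ℂ) - ∑ m ∈ Finset.range 3, (y : ℂ) ^ m / (m.factorial : ℂ) =
      ((Real.exp y - (1 + y + y ^ 2 / 2) : ℝ) : ℂ) := by
    rw [Finset.sum_range_succ, Finset.sum_range_succ, Finset.sum_range_one]
    push_cast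
    simp [Nat.factorial]
  rw [e, Complex.norm_real, Complex.norm_real] at h
  exact h

/-- The exponential moment of a small centred function. -/
theorem loc_exp {p : ℕ} [NeZero p] (hp : 0 < p) (Y : (Fin n → ZMod p) → ℝ) {b : ℝ} (hb : 0 ≤ b) (hY : ∀ c, |Y c| ≤ b / √p)
    (h0 : EM p Y = 0) :
    EM p (fun c => Real.exp (Y c)) ≤ Real.exp (1 / 2 * EM p (fun c => Y c ^ 2) + (b ^ 3 * Real.exp b + b ^ 4) * w3 p) ∧
    Real.exp (1 / 2 * EM p (fun c => Y c ^ 2) - (b ^ 3 * Real.exp b + b ^ 4) * w3 p) ≤ EM p (fun c => Real.exp (Y c)) := by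
  have hp0 : (0 : ℝ) < p := by exact_mod_cast hp
  have hp1 : (1 : ℝ) ≤ p := by exact_mod_cast hp
  have hs : 0 < √(p : ℝ) := Real.sqrt_pos.2 hp0
  have hs1 : 1 ≤ √(p : ℝ) := Real.one_le_sqrt.2 hp1
  have hs2 : √(p : ℝ) * √(p : ℝ) = p := Real.mul_self_sqrt hp0.le
  have hw := w3_pos hp
  obtain ⟨V, hV⟩ : ∃ V : ℝ, V = EM p (fun c => Y c ^ 2) := ⟨_, rfl⟩
  obtain ⟨E, hE⟩ : ∃ E : ℝ, E = EM p (fun c => Real.exp (Y c)) := ⟨_, rfl⟩
  have hV0 : 0 ≤ V := hV ▸ EM_nonneg' p _ fun c => sq_nonneg _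
  have hVb : V ≤ b ^ 2 / p := by
    rw [hV]
    have h := EM_mono2 p (fun c => Y c ^ 2) (fun _ => b ^ 2 / (p : ℝ)) fun c => by
      rw [← sq_abs]
      calc |Y c| ^ 2 ≤ (b / √p) ^ 2 := pow_le_pow_left₀ (abs_nonneg _) (hY c) 2
        _ = b ^ 2 / p := by rw [div_pow, Real.sq_sqrt hp0.le]
    rwa [EM_const'] at h
  have hb1 : b / √(p : ℝ) ≤ b := div_le_self hb hs1
  have h1 : |E - (1 + V / 2)| ≤ b ^ 3 * Real.exp b * w3 p := by
    have h := EM_abs_sub p (fun c => Real.exp (Y c)) (fun c => 1 + (Y c + 1 / 2 * Y c ^ 2)) (fun _ => b ^ 3 * Real.exp b * w3 p)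
      (fun c => by
        have e : 1 + (Y c + 1 / 2 * Y c ^ 2) = 1 + Y c + Y c ^ 2 / 2 := by ring
        rw [e]
        refine (exp_cubic (Y c)).trans ?_
        have u1 : |Y c| ^ 3 ≤ b ^ 3 * w3 p := by
          calc |Y c| ^ 3 ≤ (b / √p) ^ 3 := pow_le_pow_left₀ (abs_nonneg _) (hY c) 3
            _ = b ^ 3 * w3 p := by
                unfold w3
                rw [div_pow, show √(p : ℝ) ^ 3 = √(p : ℝ) * √(p : ℝ) * √(p : ℝ) by ring, hs2]
                ring
        have u2 : Real.exp |Y c| ≤ Real.exp b := Real.exp_le_exp.2 ((hY c).trans hb1)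
        calc |Y c| ^ 3 * Real.exp |Y c| ≤ b ^ 3 * w3 p * Real.exp b :=
              mul_le_mul u1 u2 (Real.exp_pos _).le (by positivity)
          _ = _ := by ring)
    rw [EM_add2, EM_add2, EM_mul2, EM_const', EM_const', h0, ← hV, ← hE] at h
    refine le_trans (le_of_eq ?_) h
    congr 1
    ring
  have h2 : 1 ≤ E := by
    have h := EM_mono2 p (fun c => Y c + 1) (fun c => Real.exp (Y c)) fun c => Real.add_one_le_exp (Y c)
    rw [EM_add2, EM_const', h0, zero_add, ← hE] at h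
    exact h
  rw [← hV, ← hE]
  have hb3 : 0 ≤ b ^ 3 * Real.exp b * w3 p := by positivity
  have hb4 : 0 ≤ b ^ 4 * w3 p := by positivity
  obtain ⟨h3, h4⟩ := abs_le.1 h1
  constructor
  · calc E ≤ (1 / 2 * V + (b ^ 3 * Real.exp b + b ^ 4) * w3 p) + 1 := by
          rw [add_mul]
          linarith
      _ ≤ _ := Real.add_one_le_exp _
  · obtain ⟨x, hx⟩ : ∃ x : ℝ, x = V / 2 - b ^ 3 * Real.exp b * w3 p := ⟨_, rfl⟩
    have h5 : 1 + x ≤ E := by rw [hx]; linarith
    rcases le_or_gt x 0 with h6 | h6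
    · refine le_trans ?_ h2
      rw [Real.exp_le_one_iff, add_mul]
      linarith
    · have h7 : x ^ 2 / 2 ≤ b ^ 4 * w3 p := by
        have h8 : x ≤ b ^ 2 / p := by
          have : V / 2 ≤ V := by linarith
          linarith
        have h9 : x ^ 2 ≤ (b ^ 2 / p) ^ 2 := pow_le_pow_left₀ h6.le h8 2
        have h10 : (b ^ 2 / (p : ℝ)) ^ 2 ≤ b ^ 4 * w3 p := by
          unfold w3
          rw [div_pow, ← pow_mul, mul_one_div]
          refine div_le_div_of_nonneg_left (by positivity) (by positivity) ?_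
          rw [sq]
          refine mul_le_mul_of_nonneg_left ?_ hp0.le
          calc √(p : ℝ) ≤ √(p : ℝ) * √(p : ℝ) := le_mul_of_one_le_right hs.le hs1
            _ = p := hs2
        nlinarith [sq_nonneg x]
      refine le_trans ?_ h5
      have h8 : Real.exp (x - x ^ 2 / 2) ≤ 1 + x := by
        have h9 := Real.le_log_one_add_of_nonneg h6.le
        have h10 : x - x ^ 2 / 2 ≤ 2 * x / (x + 2) := by
          rw [le_div_iff₀ (by linarith)]
          nlinarith [pow_pos h6 3]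
        calc Real.exp (x - x ^ 2 / 2) ≤ Real.exp (Real.log (1 + x)) := Real.exp_le_exp.2 (h10.trans h9)
          _ = 1 + x := Real.exp_log (by linarith)
      refine le_trans (Real.exp_le_exp.2 ?_) h8
      rw [add_mul]
      linarith

end Pool.Agent.U62.LD
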