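import Pool.Agent.U62.LD.Gen

/-!
# Moderate deviations for systems of local functions which are orthonormal up to `O(1 / p)`
-/

set_option autoImplicit false
set_option linter.unusedSectionVars false

namespace Pool.Agent.U62.LD

open Finset Filter Topology Pool.Agent.X280.BP Pool.Agent.U62.BM
open Pool.Agent.Y722.HS (EM EB red)
open Pool.Agent.U62.RB (EB_add2 EM_nonneg' prop lmean lcov PerF evF evF_red EM_evF lmean_mul sum_inv_log)

variable {n k : ℕ}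

/-- The centred local functions with weights. -/
noncomputable def zc (F : Fin k → ℕ → (Fin n → ℤ) → ℝ) (w : ℕ → ℝ) (μ : ℝ) (i : Fin k) (p : ℕ) (x : Fin n → ZMod p) : ℝ :=
  μ * w p * (evF (F i) p x + -lmean (F i p) p)

theorem zc_mean {F : Fin k → ℕ → (Fin n → ℤ) → ℝ} {w : ℕ → ℝ} {μ : ℝ} (i : Fin k) {p : ℕ} [NeZero p] :
    lme p (zc F w μ i p) = 0 := by
  rw [lme_eq]
  have e : zc F w μ i p = fun x => μ * w p * (evF (F i) p x + -lmean (F i p) p) := by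
    funext x
    rfl
  rw [e, EM_mul2, EM_add2, EM_const']
  have e2 : EM p (fun x => evF (F i) p x) = EM p (evF (F i) p) := rfl
  rw [e2, EM_evF]
  ring

theorem zc_cov {F : Fin k → ℕ → (Fin n → ℤ) → ℝ} {w : ℕ → ℝ} {μ : ℝ} (i j : Fin k) {p : ℕ} [NeZero p] :
    lme p (fun x => zc F w μ i p x * zc F w μ j p x) = μ ^ 2 * w p ^ 2 * lcov (F i p) (F j p) p := by
  rw [lme_eq]
  have e : (fun x => zc F w μ i p x * zc F w μ j p x) = fun x => μ ^ 2 * w p ^ 2 *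
      (evF (fun p c => F i p c * F j p c) p x + (-lmean (F j p) p * evF (F i) p x + (-lmean (F i p) p * evF (F j) p x +
        lmean (F i p) p * lmean (F j p) p))) := by
    funext x
    unfold zc evF
    ring
  have e2 : ∀ f : ℕ → (Fin n → ℤ) → ℝ, EM p (fun x => evF f p x) = lmean (f p) p := fun f => EM_evF f p
  rw [e, EM_mul2, EM_add2, EM_add2, EM_add2, EM_mul2, EM_mul2, EM_const', e2, e2, e2]
  unfold lcov
  ring

theorem zc_abs {F : Fin k → ℕ → (Fin n → ℤ) → ℝ} {w : ℕ → ℝ} {μ B C : ℝ} (hμ : 0 ≤ μ) (hC : 0 ≤ C) {i : Fin k} {p : ℕ}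
    (hp : p.Prime) (hw : |w p| ≤ 1) (hb : ∀ c, |F i p c| ≤ B) (hm : |lmean (F i p) p| ≤ C / p) (x : Fin n → ZMod p) :
    |zc F w μ i p x| ≤ (B + C) * μ := by
  have hp1 : (1 : ℝ) ≤ p := by exact_mod_cast hp.one_lt.le
  have h1 : |evF (F i) p x + -lmean (F i p) p| ≤ B + C := by
    refine (abs_add_le _ _).trans ?_
    rw [abs_neg]
    have h2 : C / p ≤ C := div_le_self hC hp1
    have h3 := hb (fun i => ((x i).val : ℤ))
    exact add_le_add h3 (hm.trans h2)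
  unfold zc
  rw [abs_mul, abs_mul, abs_of_nonneg hμ]
  have hB : 0 ≤ B + C := (abs_nonneg _).trans h1
  calc μ * |w p| * |evF (F i) p x + -lmean (F i p) p| ≤ μ * 1 * (B + C) :=
        mul_le_mul (mul_le_mul_of_nonneg_left hw hμ) h1 (abs_nonneg _) (by positivity)
    _ = _ := by ring

theorem Xg_zc {F : Fin k → ℕ → (Fin n → ℤ) → ℝ} {w : ℕ → ℝ} {μ : ℝ} {P : Finset ℕ} (hP : ∀ p ∈ P, p.Prime)
    (hper : ∀ i, ∀ p ∈ P, PerF (F i p) p) (i : Fin k) (c : Fin n → ℤ) :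
    Xg P (zc F w μ) i c = μ * ∑ p ∈ P, w p * F i p c - μ * ∑ p ∈ P, w p * lmean (F i p) p := by
  unfold Xg
  rw [← mul_sub, ← Finset.sum_sub_distrib, Finset.mul_sum]
  refine Finset.sum_congr rfl fun p hp => ?_
  have hne : NeZero p := ⟨(hP p hp).ne_zero⟩
  unfold zc
  rw [evF_red (hper i p hp)]
  ring

theorem log_sqrt {x : ℝ} (hx : 1 ≤ x) : 2 + Real.log x ≤ 2 * √x := by
  have hs : 0 < √x := Real.sqrt_pos.2 (by linarith)
  have h1 : Real.log x = 2 * Real.log √x := by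
    rw [Real.log_sqrt (by linarith)]
    ring
  have h2 := Real.log_le_sub_one_of_pos hs
  rw [h1]
  linarith

/-- The preparations. -/
theorem setup (n k : ℕ) {S δ B C : ℝ} (hS : 0 ≤ S) (hδ : 0 < δ) (hB : 0 < B) (hC : 0 < C) : ∃ C2 C5 : ℝ, 0 ≤ C2 ∧ 0 ≤ C5 ∧
    ∃ L : ℕ, 1 ≤ L ∧ ∀ (F : Fin k → ℕ → (Fin n → ℤ) → ℝ) (P : Finset ℕ) (w : ℕ → ℝ) (y H l m : ℕ),
    (∀ p ∈ P, p.Prime ∧ p ≤ y) → L ≤ l → l ^ 3 ≤ P.card → (∀ p ∈ P, |w p| ≤ 1) → δ * P.card ≤ ∑ p ∈ P, w p ^ 2 →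
    (∀ i, ∀ p ∈ P, PerF (F i p) p) → (∀ i, ∀ p ∈ P, ∀ c, |F i p c| ≤ B) →
    (∀ i, ∀ p ∈ P, |lmean (F i p) p| ≤ C / p) →
    (∀ i j, ∀ p ∈ P, |lcov (F i p) (F j p) p - if i = j then 1 else 0| ≤ C / p) → l ≤ m → y ^ (16 * m) ≤ H →
    ∀ [NeZero (MM P)], Hyp (Xg P (zc F w √(l / ∑ p ∈ P, w p ^ 2))) (Xh P (zc F w √(l / ∑ p ∈ P, w p ^ 2))) H (fun _ => 1) l C2 S m ∧
      ∀ i c, |√(l / ∑ p ∈ P, w p ^ 2) * ∑ p ∈ P, w p * F i p c - Xg P (zc F w √(l / ∑ p ∈ P, w p ^ 2)) i c| ≤ C5 * √(l : ℝ) := by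
  obtain ⟨μ0, hμ0⟩ : ∃ μ0 : ℝ, μ0 = √(1 / δ) := ⟨_, rfl⟩
  have hμ00 : 0 ≤ μ0 := hμ0 ▸ Real.sqrt_nonneg _
  obtain ⟨A, hA⟩ : ∃ A : ℝ, A = (B + C) * μ0 + (B + C) ^ 3 * (μ0 / δ) + 2 * C / δ := ⟨_, rfl⟩
  have a1 : 0 ≤ (B + C) * μ0 := by positivity
  have a2 : 0 ≤ (B + C) ^ 3 * (μ0 / δ) := by positivity
  have a3 : 0 ≤ 2 * C / δ := by positivity
  have hA0 : 0 ≤ A := by rw [hA]; linarith
  obtain ⟨C2, hC20, y0, hy0⟩ := hyp_gen n k hS hA0
  refine ⟨C2, 2 * C * μ0, hC20, by positivity, max 1 y0, le_max_left _ _,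
    fun F P w y H l m hP hLl hlP hw hws hper hb hmean hcov hlm hH _ => ?_⟩
  have hPp : ∀ p ∈ P, p.Prime := fun p hp => (hP p hp).1
  have hl1 : 1 ≤ l := (le_max_left _ _).trans hLl
  have hlr : (1 : ℝ) ≤ l := by exact_mod_cast hl1
  have hl0 : (0 : ℝ) < l := by linarith
  have hlPr : (l : ℝ) ^ 3 ≤ P.card := by exact_mod_cast hlP
  have hl2 : (l : ℝ) ^ 2 ≤ (l : ℝ) ^ 3 := pow_le_pow_right₀ hlr (by norm_num)
  have hll : (l : ℝ) ≤ (l : ℝ) ^ 2 := by nlinarith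
  have hc1 : (1 : ℝ) ≤ P.card := by linarith
  have hc0 : (0 : ℝ) < P.card := by linarith
  obtain ⟨V, hV⟩ : ∃ V : ℝ, V = ∑ p ∈ P, w p ^ 2 := ⟨_, rfl⟩
  rw [← hV] at hws ⊢
  have hV0 : 0 < V := lt_of_lt_of_le (by positivity) hws
  obtain ⟨μ, hμ⟩ : ∃ μ : ℝ, μ = √(l / V) := ⟨_, rfl⟩
  rw [← hμ]
  have hμp : 0 ≤ μ := hμ ▸ Real.sqrt_nonneg _
  have hμ2 : μ ^ 2 = l / V := by rw [hμ, Real.sq_sqrt (by positivity)]
  have hcV : (P.card : ℝ) / V ≤ 1 / δ := by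
    rw [div_le_div_iff₀ hV0 hδ]
    linarith
  have hμle : μ ≤ μ0 := by
    rw [hμ, hμ0]
    refine Real.sqrt_le_sqrt ?_
    refine le_trans ?_ hcV
    exact div_le_div_of_nonneg_right (by linarith) hV0.le
  have hμl : μ * l ≤ μ0 := by
    rw [hμ0]
    apply Real.le_sqrt_of_sq_le
    rw [mul_pow, hμ2]
    calc (l : ℝ) / V * (l : ℝ) ^ 2 = (l : ℝ) ^ 3 / V := by ring
      _ ≤ P.card / V := div_le_div_of_nonneg_right hlPr hV0.le
      _ ≤ 1 / δ := hcV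
  have hμ3 : P.card * μ ^ 3 ≤ μ0 / δ := by
    calc (P.card : ℝ) * μ ^ 3 = μ * (l / V) * P.card := by rw [← hμ2]; ring
      _ = μ * l * (P.card / V) := by ring
      _ ≤ μ0 * (1 / δ) := mul_le_mul hμl hcV (by positivity) hμ00
      _ = μ0 / δ := by ring
  have hinv := sum_inv_log P hPp
  have hinv2 : ∑ p ∈ P, (1 : ℝ) / p ≤ 2 * √(P.card : ℝ) := hinv.trans (log_sqrt hc1)
  have hlsq : (l : ℝ) ≤ √(P.card : ℝ) := by
    apply Real.le_sqrt_of_sq_le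
    linarith
  have hsq : √(P.card : ℝ) * √(P.card : ℝ) = P.card := Real.mul_self_sqrt hc0.le
  have hcardy : P.card ≤ y := by
    have h3 : P ⊆ Finset.Icc 1 y := fun p hp => Finset.mem_Icc.2 ⟨(hPp p hp).pos, (hP p hp).2⟩
    have h4 := Finset.card_le_card h3
    rwa [Nat.card_Icc, Nat.add_sub_cancel] at h4
  have hyy : y0 ≤ y := by
    have h1 : l ≤ l ^ 3 := Nat.le_self_pow (by norm_num) l
    exact ((le_max_right _ _).trans hLl).trans (h1.trans (hlP.trans hcardy))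
  have hw1 : ∀ p ∈ P, w p ^ 2 ≤ 1 := by
    intro p hp
    rw [← sq_abs]
    exact pow_le_one₀ (abs_nonneg _) (hw p hp)
  refine ⟨hy0 P (zc F w μ) ((B + C) * μ) l y H m hP (by positivity) ?_ ?_ ?_ ?_ ?_ hyy hlr (by exact_mod_cast hlm) hH, ?_⟩
  · rw [hA]
    have := mul_le_mul_of_nonneg_left hμle (by linarith : 0 ≤ B + C)
    linarith
  · calc (P.card : ℝ) * ((B + C) * μ) ^ 3 = (B + C) ^ 3 * (P.card * μ ^ 3) := by ring
      _ ≤ (B + C) ^ 3 * (μ0 / δ) := mul_le_mul_of_nonneg_left hμ3 (by positivity)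
      _ ≤ A := by rw [hA]; linarith
  · intro i p hp x
    exact zc_abs hμp hC.le (hPp p hp) (hw p hp) (hb i p hp) (hmean i p hp) x
  · intro i p hp
    have hne : NeZero p := ⟨(hPp p hp).ne_zero⟩
    exact zc_mean i
  · intro i j
    have e1 : ∑ p ∈ P, lme p (fun x => zc F w μ i p x * zc F w μ j p x) - (if i = j then (l : ℝ) else 0) =
        ∑ p ∈ P, μ ^ 2 * w p ^ 2 * (lcov (F i p) (F j p) p - if i = j then 1 else 0) := by
      have e2 : (if i = j then (l : ℝ) else 0) = ∑ p ∈ P, μ ^ 2 * w p ^ 2 * (if i = j then 1 else 0) := by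
        rw [← Finset.sum_mul, ← Finset.mul_sum, ← hV, hμ2, div_mul_cancel₀ _ hV0.ne']
        split_ifs <;> ring
      rw [e2, ← Finset.sum_sub_distrib]
      refine Finset.sum_congr rfl fun p hp => ?_
      have hne : NeZero p := ⟨(hPp p hp).ne_zero⟩
      rw [zc_cov]
      ring
    rw [e1]
    refine (Finset.abs_sum_le_sum_abs _ _).trans ?_
    calc ∑ p ∈ P, |μ ^ 2 * w p ^ 2 * (lcov (F i p) (F j p) p - if i = j then 1 else 0)| ≤
        ∑ p ∈ P, μ ^ 2 * C * (1 / (p : ℝ)) := by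
          refine Finset.sum_le_sum fun p hp => ?_
          rw [abs_mul, abs_of_nonneg (by positivity : 0 ≤ μ ^ 2 * w p ^ 2)]
          calc μ ^ 2 * w p ^ 2 * |lcov (F i p) (F j p) p - if i = j then 1 else 0| ≤ μ ^ 2 * 1 * (C / p) :=
                mul_le_mul (mul_le_mul_of_nonneg_left (hw1 p hp) (by positivity)) (hcov i j p hp) (abs_nonneg _) (by positivity)
            _ = _ := by ring
      _ = μ ^ 2 * C * ∑ p ∈ P, 1 / (p : ℝ) := by rw [← Finset.mul_sum]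
      _ ≤ μ ^ 2 * C * (2 * √(P.card : ℝ)) := mul_le_mul_of_nonneg_left hinv2 (by positivity)
      _ = 2 * C * (l * √(P.card : ℝ) / V) := by rw [hμ2]; ring
      _ ≤ 2 * C * (P.card / V) := by
          refine mul_le_mul_of_nonneg_left (div_le_div_of_nonneg_right ?_ hV0.le) (by positivity)
          calc (l : ℝ) * √(P.card : ℝ) ≤ √(P.card : ℝ) * √(P.card : ℝ) :=
                mul_le_mul_of_nonneg_right hlsq (Real.sqrt_nonneg _)
            _ = P.card := hsq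
      _ ≤ 2 * C * (1 / δ) := mul_le_mul_of_nonneg_left hcV (by positivity)
      _ = 2 * C / δ := by ring
      _ ≤ A := by rw [hA]; linarith
  · intro i c
    rw [Xg_zc hPp hper i c]
    have e : μ * ∑ p ∈ P, w p * F i p c - (μ * ∑ p ∈ P, w p * F i p c - μ * ∑ p ∈ P, w p * lmean (F i p) p) =
        μ * ∑ p ∈ P, w p * lmean (F i p) p := by ring
    rw [e, abs_mul, abs_of_nonneg hμp]
    have h1 : |∑ p ∈ P, w p * lmean (F i p) p| ≤ C * (2 * √(P.card : ℝ)) := by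
      refine (Finset.abs_sum_le_sum_abs _ _).trans ?_
      calc ∑ p ∈ P, |w p * lmean (F i p) p| ≤ ∑ p ∈ P, C * (1 / (p : ℝ)) := by
            refine Finset.sum_le_sum fun p hp => ?_
            rw [abs_mul]
            calc |w p| * |lmean (F i p) p| ≤ 1 * (C / p) := mul_le_mul (hw p hp) (hmean i p hp) (abs_nonneg _) (by norm_num)
              _ = _ := by ring
        _ = C * ∑ p ∈ P, 1 / (p : ℝ) := by rw [← Finset.mul_sum]
        _ ≤ _ := mul_le_mul_of_nonneg_left hinv2 hC.le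
    have h2 : μ * √(P.card : ℝ) ≤ μ0 * √(l : ℝ) := by
      rw [hμ, hμ0, ← Real.sqrt_mul (by positivity), ← Real.sqrt_mul (by positivity)]
      refine Real.sqrt_le_sqrt ?_
      calc (l : ℝ) / V * P.card = P.card / V * l := by ring
        _ ≤ 1 / δ * l := mul_le_mul_of_nonneg_right hcV hl0.le
    calc μ * |∑ p ∈ P, w p * lmean (F i p) p| ≤ μ * (C * (2 * √(P.card : ℝ))) := mul_le_mul_of_nonneg_left h1 hμp
      _ = 2 * C * (μ * √(P.card : ℝ)) := by ring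
      _ ≤ 2 * C * (μ0 * √(l : ℝ)) := mul_le_mul_of_nonneg_left h2 (by positivity)
      _ = _ := by ring

/-- The hypotheses on the local functions and the weights. -/
structure Sys (n k : ℕ) (δ B C : ℝ) (F : Fin k → ℕ → (Fin n → ℤ) → ℝ) (P : Finset ℕ) (w : ℕ → ℝ) (y : ℕ) : Prop where
  primes : ∀ p ∈ P, p.Prime ∧ p ≤ y
  wle : ∀ p ∈ P, |w p| ≤ 1
  wge : δ * P.card ≤ ∑ p ∈ P, w p ^ 2
  per : ∀ i, ∀ p ∈ P, PerF (F i p) p
  bd : ∀ i, ∀ p ∈ P, ∀ c, |F i p c| ≤ B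
  mean : ∀ i, ∀ p ∈ P, |lmean (F i p) p| ≤ C / p
  cov : ∀ i j, ∀ p ∈ P, |lcov (F i p) (F j p) p - if i = j then 1 else 0| ≤ C / p

theorem sqrt_id {l V : ℝ} (hl : 0 < l) (hV : 0 < V) : √(l / V) * √(l * V) = l := by
  rw [← Real.sqrt_mul (by positivity)]
  have e : l / V * (l * V) = l * l := by
    field_simp
  rw [e, Real.sqrt_mul_self hl.le]

open Classical in
/-- The upper bound. -/
theorem mdp_upper (n k : ℕ) {β : Fin k → ℝ} (hβ : ∀ j, 0 ≤ β j) {δ ε B C : ℝ} (hδ : 0 < δ) (hε : 0 < ε) (hB : 0 < B) (hC : 0 < C) :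
    ∃ K : ℕ, ∀ (F : Fin k → ℕ → (Fin n → ℤ) → ℝ) (P : Finset ℕ) (w : ℕ → ℝ) (y H l : ℕ), Sys n k δ B C F P w y →
    K ≤ l → l ^ 3 ≤ P.card → y ^ (K * l) ≤ H →
    EB H (fun c => if ∀ i, β i * √(l * ∑ p ∈ P, w p ^ 2) ≤ ∑ p ∈ P, w p * F i p c then (1 : ℝ) else 0) ≤
      Real.exp (-(∑ j, β j ^ 2 / 2 - ε) * l) := by
  obtain ⟨R, hR⟩ : ∃ R : ℝ, R = ∑ j, β j ^ 2 / 2 := ⟨_, rfl⟩
  have hR0 : 0 ≤ R := by
    rw [hR]
    exact Finset.sum_nonneg fun j _ => by positivity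
  have hQ : Qf (fun _ => 1) β = 2 * R := by
    unfold Qf
    rw [hR, Finset.mul_sum]
    exact Finset.sum_congr rfl fun j _ => by ring
  have hsb : ∑ j, β j * β j = 2 * R := by
    rw [hR, Finset.mul_sum]
    exact Finset.sum_congr rfl fun j _ => by ring
  obtain ⟨σ1, hσ1⟩ : ∃ σ1 : ℝ, σ1 = ∑ j, β j := ⟨_, rfl⟩
  have hσ10 : 0 ≤ σ1 := hσ1 ▸ Finset.sum_nonneg fun j _ => hβ j
  have hsσ : ∀ j, |β j| ≤ σ1 := fun j => by
    rw [abs_of_nonneg (hβ j), hσ1]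
    exact Finset.single_le_sum (f := β) (fun j _ => hβ j) (Finset.mem_univ j)
  obtain ⟨ε', hε'0, hε'1, hε'2⟩ : ∃ ε' : ℝ, 0 < ε' ∧ ε' * σ1 ≤ ε / 4 ∧ ε' * σ1 ≤ 2 * R := by
    by_cases h0 : σ1 = 0
    · exact ⟨1, one_pos, by rw [h0]; linarith, by rw [h0]; linarith⟩
    · have hpos : 0 < σ1 := lt_of_le_of_ne hσ10 (Ne.symm h0)
      have hRpos : 0 < R := by
        by_contra hneg
        have hR00 : R = 0 := le_antisymm (not_lt.1 hneg) hR0
        have hall : ∀ j ∈ Finset.univ, β j * β j = 0 := by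
          apply (Finset.sum_eq_zero_iff_of_nonneg fun j _ => mul_nonneg (hβ j) (hβ j)).1
          rw [hsb, hR00, mul_zero]
        apply h0
        rw [hσ1]
        exact Finset.sum_eq_zero fun j hj => mul_self_eq_zero.1 (hall j hj)
      refine ⟨min (ε / 4 / σ1) (2 * R / σ1), lt_min (by positivity) (by positivity), ?_, ?_⟩
      · calc min (ε / 4 / σ1) (2 * R / σ1) * σ1 ≤ ε / 4 / σ1 * σ1 := mul_le_mul_of_nonneg_right (min_le_left _ _) hσ10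
          _ = ε / 4 := div_mul_cancel₀ _ h0
      · calc min (ε / 4 / σ1) (2 * R / σ1) * σ1 ≤ 2 * R / σ1 * σ1 := mul_le_mul_of_nonneg_right (min_le_right _ _) hσ10
          _ = 2 * R := div_mul_cancel₀ _ h0
  obtain ⟨C2, C5, hC20, hC50, L, hL1, hL⟩ := setup n k (S := σ1) hσ10 hδ hB hC
  obtain ⟨K0, hK0⟩ := exists_nat_ge (1 + 16 * R ^ 2 / ε)
  have hK01 : 1 ≤ K0 := by
    have : 0 ≤ 16 * R ^ 2 / ε := by positivity
    have : (1 : ℝ) ≤ K0 := by linarith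
    exact_mod_cast this
  obtain ⟨N, hN⟩ := exists_nat_ge (4 * (C2 + Real.log 3) / ε + (C5 / ε') ^ 2)
  refine ⟨L + N + 16 * K0, fun F P w y H l sys hl hlP hH => ?_⟩
  have hLl : L ≤ l := by omega
  have hNl : (N : ℝ) ≤ l := by exact_mod_cast (by omega : N ≤ l)
  have hl1 : 1 ≤ l := hL1.trans hLl
  have hlr : (1 : ℝ) ≤ l := by exact_mod_cast hl1
  have hl0 : (0 : ℝ) < l := by linarith
  have hPp : ∀ p ∈ P, p.Prime := fun p hp => (sys.primes p hp).1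
  have hcard : 0 < P.card := lt_of_lt_of_le (pow_pos (by omega) 3) hlP
  have hy1 : 1 ≤ y := by
    obtain ⟨p, hp⟩ := Finset.card_pos.1 hcard
    have := (sys.primes p hp).1.pos
    have := (sys.primes p hp).2
    omega
  have hne : NeZero (MM P) := ⟨MM_ne hPp⟩
  have hmK : l ≤ K0 * l := Nat.le_mul_of_pos_left l (by omega)
  have hpow : y ^ (16 * (K0 * l)) ≤ H := by
    refine (Nat.pow_le_pow_right hy1 ?_).trans hH
    calc 16 * (K0 * l) = 16 * K0 * l := by ring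
      _ ≤ (L + N + 16 * K0) * l := Nat.mul_le_mul_right l (by omega)
  obtain ⟨hyp, hclose⟩ := hL F P w y H l (K0 * l) sys.primes hLl hlP sys.wle sys.wge sys.per sys.bd sys.mean sys.cov hmK hpow
  obtain ⟨V, hV⟩ : ∃ V : ℝ, V = ∑ p ∈ P, w p ^ 2 := ⟨_, rfl⟩
  rw [← hV] at hyp hclose ⊢
  have hV0 : 0 < V := by
    have h1 := sys.wge
    rw [← hV] at h1
    refine lt_of_lt_of_le ?_ h1
    have : (0 : ℝ) < P.card := by exact_mod_cast hcard
    positivity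
  obtain ⟨μ, hμ⟩ : ∃ μ : ℝ, μ = √(l / V) := ⟨_, rfl⟩
  rw [← hμ] at hyp hclose
  have hμp : 0 < μ := hμ ▸ Real.sqrt_pos.2 (by positivity)
  have hμV : μ * √(l * V) = l := by
    rw [hμ]
    exact sqrt_id hl0 hV0
  have hm0 : (0 : ℝ) < ((K0 * l : ℕ) : ℝ) := by
    have : 0 < K0 * l := by omega
    exact_mod_cast this
  obtain ⟨γ, hγ⟩ : ∃ γ : Fin k → ℝ, γ = fun j => β j - ε' := ⟨_, rfl⟩
  have hsγ : ∑ j, β j * γ j = 2 * R - ε' * σ1 := by
    rw [← hsb, hσ1, Finset.mul_sum, ← Finset.sum_sub_distrib, hγ]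
    exact Finset.sum_congr rfl fun j _ => by ring
  have hup := hyp.upper (by omega) hl0.le hC20 (fun _ => zero_le_one) hsσ hβ γ (by rw [hsγ]; linarith)
  rw [hsγ, hQ] at hup
  have q1 : 0 ≤ 4 * (C2 + Real.log 3) / ε := by
    have : 0 ≤ Real.log 3 := Real.log_nonneg (by norm_num)
    positivity
  have hC5l : C5 * √(l : ℝ) ≤ ε' * l := by
    have h1 : (C5 / ε') ^ 2 ≤ l := by linarith
    have h2 : C5 / ε' ≤ √(l : ℝ) := Real.le_sqrt_of_sq_le h1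
    rw [div_le_iff₀ hε'0] at h2
    have hs := Real.mul_self_sqrt hl0.le
    calc C5 * √(l : ℝ) ≤ √(l : ℝ) * ε' * √(l : ℝ) := mul_le_mul_of_nonneg_right h2 (Real.sqrt_nonneg _)
      _ = ε' * (√(l : ℝ) * √(l : ℝ)) := by ring
      _ = ε' * l := by rw [hs]
  have hmono : EB H (fun c => if ∀ i, β i * √(l * V) ≤ ∑ p ∈ P, w p * F i p c then (1 : ℝ) else 0) ≤
      EB H (fun c => if ∀ j, γ j * l ≤ Xg P (zc F w μ) j c then (1 : ℝ) else 0) := by
    refine Pool.Agent.X280.BP.EB_mono H _ _ fun c => ?_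
    by_cases hc : ∀ i, β i * √(l * V) ≤ ∑ p ∈ P, w p * F i p c
    · rw [if_pos hc, if_pos]
      intro j
      have h1 := mul_le_mul_of_nonneg_left (hc j) hμp.le
      have h2 : μ * (β j * √(l * V)) = β j * l := by
        calc μ * (β j * √(l * V)) = β j * (μ * √(l * V)) := by ring
          _ = β j * l := by rw [hμV]
      rw [h2] at h1
      have h3 := (abs_le.1 (hclose j c)).2
      rw [hγ]
      dsimp only
      linarith
    · rw [if_neg hc]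
      split_ifs <;> norm_num
  refine (hmono.trans hup).trans ?_
  have h1 : ((2 * R - ε' * σ1) * l) ^ 2 / ((K0 * l : ℕ) : ℝ) ≤ ε / 4 * l := by
    rw [div_le_iff₀ hm0]
    have h2 : (2 * R - ε' * σ1) ^ 2 ≤ 4 * R ^ 2 := by
      have h3 : 0 ≤ 2 * R - ε' * σ1 := by linarith
      have h4 : 2 * R - ε' * σ1 ≤ 2 * R := by
        have : 0 ≤ ε' * σ1 := by positivity
        linarith
      calc (2 * R - ε' * σ1) ^ 2 ≤ (2 * R) ^ 2 := pow_le_pow_left₀ h3 h4 2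
        _ = 4 * R ^ 2 := by ring
    have h3 : 16 * R ^ 2 / ε * l ≤ ((K0 * l : ℕ) : ℝ) := by
      push_cast
      exact mul_le_mul_of_nonneg_right (by linarith) hl0.le
    calc ((2 * R - ε' * σ1) * l) ^ 2 = (2 * R - ε' * σ1) ^ 2 * (l : ℝ) ^ 2 := by ring
      _ ≤ 4 * R ^ 2 * (l : ℝ) ^ 2 := mul_le_mul_of_nonneg_right h2 (by positivity)
      _ = ε / 4 * l * (16 * R ^ 2 / ε * l) := by
          field_simp
          ring
      _ ≤ ε / 4 * l * ((K0 * l : ℕ) : ℝ) := mul_le_mul_of_nonneg_left h3 (by positivity)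
  have h2 : C2 + Real.log 3 ≤ ε / 4 * l := by
    have h4 : 0 ≤ (C5 / ε') ^ 2 := sq_nonneg _
    have h3 : 4 * (C2 + Real.log 3) / ε ≤ l := by linarith
    rw [div_le_iff₀ hε] at h3
    linarith
  have h3 : ε' * σ1 * l ≤ ε / 4 * l := mul_le_mul_of_nonneg_right hε'1 hl0.le
  have h4 := mul_pos hε hl0
  calc 3 * Real.exp (2 * R / 2 * l + C2) * Real.exp (-((2 * R - ε' * σ1) * l) + ((2 * R - ε' * σ1) * l) ^ 2 / ((K0 * l : ℕ) : ℝ)) =
      Real.exp (Real.log 3 + (2 * R / 2 * l + C2) + (-((2 * R - ε' * σ1) * l) +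
        ((2 * R - ε' * σ1) * l) ^ 2 / ((K0 * l : ℕ) : ℝ))) := by
        rw [Real.exp_add (Real.log 3 + (2 * R / 2 * l + C2)), Real.exp_add (Real.log 3), Real.exp_log (by norm_num)]
    _ ≤ Real.exp (-(R - ε) * l) := by
        rw [Real.exp_le_exp]
        linarith
    _ = _ := by rw [← hR]

open Classical in
/-- The lower bound. -/
theorem mdp_lower (n k : ℕ) {β : Fin k → ℝ} (hβ : ∀ j, 0 ≤ β j) {δ ε B C : ℝ} (hδ : 0 < δ) (hε : 0 < ε) (hB : 0 < B) (hC : 0 < C) :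
    ∃ K : ℕ, ∀ (F : Fin k → ℕ → (Fin n → ℤ) → ℝ) (P : Finset ℕ) (w : ℕ → ℝ) (y H l : ℕ), Sys n k δ B C F P w y →
    K ≤ l → l ^ 3 ≤ P.card → y ^ (K * l) ≤ H →
    Real.exp (-(∑ j, β j ^ 2 / 2 + ε) * l) ≤
      EB H (fun c => if ∀ i, β i * √(l * ∑ p ∈ P, w p ^ 2) ≤ ∑ p ∈ P, w p * F i p c then (1 : ℝ) else 0) := by
  obtain ⟨σ1, hσ1⟩ : ∃ σ1 : ℝ, σ1 = ∑ j, β j := ⟨_, rfl⟩
  have hσ10 : 0 ≤ σ1 := hσ1 ▸ Finset.sum_nonneg fun j _ => hβ j
  obtain ⟨Q, hQ⟩ : ∃ Q : ℝ, Q = 3 * σ1 + 4 * k + 1 := ⟨_, rfl⟩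
  have hk0 : (0 : ℝ) ≤ k := Nat.cast_nonneg k
  have hQ1 : 1 ≤ Q := by rw [hQ]; linarith
  obtain ⟨d, hd0, hd1, hd2⟩ : ∃ d : ℝ, 0 < d ∧ d ≤ 1 ∧ d * Q ≤ ε := by
    refine ⟨min 1 (ε / Q), lt_min one_pos (by positivity), min_le_left _ _, ?_⟩
    calc min 1 (ε / Q) * Q ≤ ε / Q * Q := mul_le_mul_of_nonneg_right (min_le_right _ _) (by linarith)
      _ = ε := div_mul_cancel₀ _ (by linarith)
  obtain ⟨β', hβ'⟩ : ∃ β' : Fin k → ℝ, β' = fun j => β j + 2 * d := ⟨_, rfl⟩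
  have hβ'0 : ∀ j, 0 ≤ β' j := fun j => by
    rw [hβ']
    have := hβ j
    dsimp only
    linarith
  have hrate : ∑ j, β' j ^ 2 / (2 * 1) + d * ∑ j, β' j / 1 + d ≤ ∑ j, β j ^ 2 / 2 + ε := by
    have e1 : ∑ j, β' j ^ 2 / (2 * 1) = ∑ j, β j ^ 2 / 2 + (2 * d * σ1 + 2 * d ^ 2 * k) := by
      have e0 : (k : ℝ) = ∑ _j : Fin k, (1 : ℝ) := by simp
      rw [hσ1, e0, Finset.mul_sum, Finset.mul_sum, ← Finset.sum_add_distrib, ← Finset.sum_add_distrib, hβ']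
      refine Finset.sum_congr rfl fun j _ => ?_
      ring
    have e2 : ∑ j, β' j / 1 = σ1 + 2 * d * k := by
      have e0 : (k : ℝ) = ∑ _j : Fin k, (1 : ℝ) := by simp
      rw [hσ1, e0, Finset.mul_sum, ← Finset.sum_add_distrib, hβ']
      refine Finset.sum_congr rfl fun j _ => ?_
      ring
    rw [e1, e2]
    have h1 : d ^ 2 * k ≤ d * k := by
      refine mul_le_mul_of_nonneg_right ?_ hk0
      rw [sq]
      exact mul_le_of_le_one_left hd0.le hd1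
    have e3 : d * Q = 3 * d * σ1 + 4 * (d * k) + d := by rw [hQ]; ring
    have e4 : ∑ j, β j ^ 2 / 2 + (2 * d * σ1 + 2 * d ^ 2 * k) + d * (σ1 + 2 * d * k) + d =
        ∑ j, β j ^ 2 / 2 + (3 * d * σ1 + 4 * (d ^ 2 * k) + d) := by ring
    rw [e4]
    linarith
  obtain ⟨K0', S, hK01, hS1, hlow⟩ := low_final (v := fun _ : Fin k => (1 : ℝ)) (fun _ => one_pos) (fun _ => le_rfl) hβ'0 hd0 hd1
  obtain ⟨C2, C5, hC20, hC50, L, hL1, hL⟩ := setup n k (S := S) (by linarith) hδ hB hC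
  obtain ⟨l0, hl01, hl0'⟩ := hlow C2 hC20
  obtain ⟨K0, hK0⟩ := exists_nat_ge K0'
  have hK01' : 1 ≤ K0 := by
    have : (1 : ℝ) ≤ K0 := by linarith
    exact_mod_cast this
  obtain ⟨N, hN⟩ := exists_nat_ge (l0 + (C5 / d) ^ 2)
  refine ⟨L + N + 16 * K0, fun F P w y H l sys hl hlP hH => ?_⟩
  have hLl : L ≤ l := by omega
  have hNl : (N : ℝ) ≤ l := by exact_mod_cast (by omega : N ≤ l)
  have hl1 : 1 ≤ l := hL1.trans hLl
  have hlr : (1 : ℝ) ≤ l := by exact_mod_cast hl1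
  have hl0 : (0 : ℝ) < l := by linarith
  have hPp : ∀ p ∈ P, p.Prime := fun p hp => (sys.primes p hp).1
  have hcard : 0 < P.card := lt_of_lt_of_le (pow_pos (by omega) 3) hlP
  have hy1 : 1 ≤ y := by
    obtain ⟨p, hp⟩ := Finset.card_pos.1 hcard
    have := (sys.primes p hp).1.pos
    have := (sys.primes p hp).2
    omega
  have hne : NeZero (MM P) := ⟨MM_ne hPp⟩
  have hmK : l ≤ K0 * l := Nat.le_mul_of_pos_left l (by omega)
  have hpow : y ^ (16 * (K0 * l)) ≤ H := by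
    refine (Nat.pow_le_pow_right hy1 ?_).trans hH
    calc 16 * (K0 * l) = 16 * K0 * l := by ring
      _ ≤ (L + N + 16 * K0) * l := Nat.mul_le_mul_right l (by omega)
  obtain ⟨hyp, hclose⟩ := hL F P w y H l (K0 * l) sys.primes hLl hlP sys.wle sys.wge sys.per sys.bd sys.mean sys.cov hmK hpow
  obtain ⟨V, hV⟩ : ∃ V : ℝ, V = ∑ p ∈ P, w p ^ 2 := ⟨_, rfl⟩
  rw [← hV] at hyp hclose ⊢
  have hV0 : 0 < V := by
    have h1 := sys.wge
    rw [← hV] at h1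
    refine lt_of_lt_of_le ?_ h1
    have : (0 : ℝ) < P.card := by exact_mod_cast hcard
    positivity
  obtain ⟨μ, hμ⟩ : ∃ μ : ℝ, μ = √(l / V) := ⟨_, rfl⟩
  rw [← hμ] at hyp hclose
  have hμp : 0 < μ := hμ ▸ Real.sqrt_pos.2 (by positivity)
  have hμV : μ * √(l * V) = l := by
    rw [hμ]
    exact sqrt_id hl0 hV0
  have q2 : 0 ≤ (C5 / d) ^ 2 := sq_nonneg _
  have hres := hl0' n (MM P) (Xg P (zc F w μ)) (Xh P (zc F w μ)) H (K0 * l) l hyp (by linarith) (by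
    push_cast
    exact mul_le_mul_of_nonneg_right hK0 hl0.le)
  have hC5l : C5 * √(l : ℝ) ≤ d * l := by
    have h1 : (C5 / d) ^ 2 ≤ l := by linarith
    have h2 : C5 / d ≤ √(l : ℝ) := Real.le_sqrt_of_sq_le h1
    rw [div_le_iff₀ hd0] at h2
    have hs := Real.mul_self_sqrt hl0.le
    calc C5 * √(l : ℝ) ≤ √(l : ℝ) * d * √(l : ℝ) := mul_le_mul_of_nonneg_right h2 (Real.sqrt_nonneg _)
      _ = d * (√(l : ℝ) * √(l : ℝ)) := by ring
      _ = d * l := by rw [hs]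
  have hmono : EB H (fun c => if ∀ j, |Xg P (zc F w μ) j c - β' j * l| ≤ d * l then (1 : ℝ) else 0) ≤
      EB H (fun c => if ∀ i, β i * √(l * V) ≤ ∑ p ∈ P, w p * F i p c then (1 : ℝ) else 0) := by
    refine Pool.Agent.X280.BP.EB_mono H _ _ fun c => ?_
    by_cases hc : ∀ j, |Xg P (zc F w μ) j c - β' j * l| ≤ d * l
    · rw [if_pos hc, if_pos]
      intro j
      have h1 := (abs_le.1 (hc j)).1
      have h3 := (abs_le.1 (hclose j c)).1
      rw [hβ'] at h1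
      dsimp only at h1
      have h2 : μ * (β j * √(l * V)) = β j * l := by
        calc μ * (β j * √(l * V)) = β j * (μ * √(l * V)) := by ring
          _ = β j * l := by rw [hμV]
      have h4 : μ * (β j * √(l * V)) ≤ μ * ∑ p ∈ P, w p * F j p c := by
        rw [h2]
        linarith
      exact le_of_mul_le_mul_left h4 hμp
    · rw [if_neg hc]
      split_ifs <;> norm_num
  refine le_trans ?_ (hres.trans hmono)
  rw [Real.exp_le_exp]
  have := mul_le_mul_of_nonneg_right hrate hl0.le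
  linarith

/-- **Moderate deviations for systems of local functions which are orthonormal up to `O(1 / p)`.** -/
theorem mdp_std (n k : ℕ) {β : Fin k → ℝ} (hβ : ∀ j, 0 ≤ β j) {δ ε B C : ℝ} (hδ : 0 < δ) (hε : 0 < ε) (hB : 0 < B) (hC : 0 < C) :
    ∃ K : ℕ, ∀ (F : Fin k → ℕ → (Fin n → ℤ) → ℝ) (P : Finset ℕ) (w : ℕ → ℝ) (y H l : ℕ), Sys n k δ B C F P w y →
    K ≤ l → l ^ 3 ≤ P.card → y ^ (K * l) ≤ H →
    Real.exp (-(∑ j, β j ^ 2 / 2 + ε) * l) ≤ prop H (fun c => ∀ i, β i * √(l * ∑ p ∈ P, w p ^ 2) ≤ ∑ p ∈ P, w p * F i p c) ∧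
    prop H (fun c => ∀ i, β i * √(l * ∑ p ∈ P, w p ^ 2) ≤ ∑ p ∈ P, w p * F i p c) ≤ Real.exp (-(∑ j, β j ^ 2 / 2 - ε) * l) := by
  classical
  obtain ⟨K1, hK1⟩ := mdp_upper n k hβ hδ hε hB hC
  obtain ⟨K2, hK2⟩ := mdp_lower n k hβ hδ hε hB hC
  refine ⟨K1 + K2 + 1, fun F P w y H l sys hl hlP hH => ?_⟩
  have hy1 : 1 ≤ y := by
    have hcard : 0 < P.card := lt_of_lt_of_le (pow_pos (by omega) 3) hlP
    obtain ⟨p, hp⟩ := Finset.card_pos.1 hcard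
    have := (sys.primes p hp).1.pos
    have := (sys.primes p hp).2
    omega
  have e : prop H (fun c => ∀ i, β i * √(l * ∑ p ∈ P, w p ^ 2) ≤ ∑ p ∈ P, w p * F i p c) =
      EB H (fun c => if ∀ i, β i * √(l * ∑ p ∈ P, w p ^ 2) ≤ ∑ p ∈ P, w p * F i p c then (1 : ℝ) else 0) := by
    rw [Pool.Agent.U62.RB.prop_eq]
    refine congrArg (EB H) (funext fun c => ?_)
    by_cases hc : ∀ i, β i * √(l * ∑ p ∈ P, w p ^ 2) ≤ ∑ p ∈ P, w p * F i p c
    · rw [if_pos hc, if_pos hc]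
    · rw [if_neg hc, if_neg hc]
  rw [e]
  exact ⟨hK2 F P w y H l sys (by omega) hlP ((Nat.pow_le_pow_right hy1 (Nat.mul_le_mul_right l (by omega))).trans hH),
    hK1 F P w y H l sys (by omega) hlP ((Nat.pow_le_pow_right hy1 (Nat.mul_le_mul_right l (by omega))).trans hH)⟩

end Pool.Agent.U62.LD
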