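import Pool.Agent.U62.LD.Loc

/-!
# Large deviations: the hypotheses of the abstract theorem
-/

set_option autoImplicit false
set_option linter.unusedSectionVars false

namespace Pool.Agent.U62.LD

open Finset Filter Topology Pool.Agent.X280.BP Pool.Agent.U62.SC
open Pool.Agent.Y722.HS (EM EB red)
open Pool.Agent.U62.RB (EB_add2 EM_nonneg')

variable {n k : ℕ} {a : ∀ p : ℕ, (Fin n → ZMod p) → ℝ} {G : ∀ p : ℕ, (Fin n → ZMod p) → Prop} {r C : ℝ}

/-- The linear combination of the centred local summands. -/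
noncomputable def yl (a : ∀ p : ℕ, (Fin n → ZMod p) → ℝ) (G : ∀ p : ℕ, (Fin n → ZMod p) → Prop) (t σ s : Fin k → ℝ) (p : ℕ)
    (c : Fin n → ZMod p) : ℝ := ∑ j, s j * (σ j * zl a G (t j) p c)

/-- The centred logarithms. -/
noncomputable def Xb (a : ∀ p : ℕ, (Fin n → ZMod p) → ℝ) (G : ∀ p : ℕ, (Fin n → ZMod p) → Prop) (t σ : Fin k → ℝ) (T : ℕ)
    (j : Fin k) (c : Fin n → ℤ) : ℝ := ∑ p ∈ PP T, σ j * zl a G (t j) p (red p c)

/-- The model. -/
noncomputable def Xm (a : ∀ p : ℕ, (Fin n → ZMod p) → ℝ) (G : ∀ p : ℕ, (Fin n → ZMod p) → Prop) (t σ : Fin k → ℝ) (T : ℕ)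
    (j : Fin k) (x : Fin n → ZMod (MM (PP T))) : ℝ := ∑ p ∈ PP T, σ j * zl a G (t j) p (cst (PP T) p x)

theorem lin_Xb (t σ s : Fin k → ℝ) (T : ℕ) (c : Fin n → ℤ) :
    lin s (Xb a G t σ T) c = ∑ p ∈ PP T, yl a G t σ s p (red p c) := by
  unfold lin Xb yl
  rw [Finset.sum_comm]
  exact Finset.sum_congr rfl fun j _ => Finset.mul_sum _ _ _

theorem lin_Xm (t σ s : Fin k → ℝ) (T : ℕ) (x : Fin n → ZMod (MM (PP T))) :
    lin s (Xm a G t σ T) x = ∑ p ∈ PP T, yl a G t σ s p (cst (PP T) p x) := by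
  unfold lin Xm yl
  rw [Finset.sum_comm]
  exact Finset.sum_congr rfl fun j _ => Finset.mul_sum _ _ _

theorem yl_abs (D : Dat a G r C) {t σ s : Fin k → ℝ} (hσ : ∀ i, |σ i| = 1) {S : ℝ} (hS : 0 ≤ S) (hs : ∀ j, |s j| ≤ S) {p : ℕ}
    (hp : p.Prime) (h5 : 5 ≤ p) (c : Fin n → ZMod p) : |yl a G t σ s p c| ≤ (k * S * (2 + AA r C)) / √p := by
  unfold yl
  refine (Finset.abs_sum_le_sum_abs _ _).trans ?_
  calc ∑ j, |s j * (σ j * zl a G (t j) p c)| ≤ ∑ _j : Fin k, S * ((2 + AA r C) / √p) := by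
        refine Finset.sum_le_sum fun j _ => ?_
        rw [abs_mul, abs_mul, hσ, one_mul]
        exact mul_le_mul (hs j) (zl_abs D hp h5 (t j) c) (abs_nonneg _) hS
    _ = _ := by
        rw [Finset.sum_const, Finset.card_univ, Fintype.card_fin, nsmul_eq_mul]
        ring

theorem yl_mean {t σ s : Fin k → ℝ} {p : ℕ} [NeZero p] : EM p (yl a G t σ s p) = 0 := by
  have e : yl a G t σ s p = fun c => ∑ j, (s j * σ j) * zl a G (t j) p c := by
    funext c
    unfold yl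
    exact Finset.sum_congr rfl fun j _ => by ring
  rw [e, EM_sum2]
  refine Finset.sum_eq_zero fun j _ => ?_
  rw [EM_mul2]
  have h := zl_mean (a := a) (G := G) (p := p) (t j)
  have e2 : EM p (fun c => zl a G (t j) p c) = EM p (zl a G (t j) p) := rfl
  rw [e2, h, mul_zero]

/-- The constant for the covariances. -/
noncomputable def A4 (r C : ℝ) : ℝ := AA r C * (4 + AA r C) + C

theorem AA_nonneg (D : Dat a G r C) : 0 ≤ AA r C := by
  have := D.C1
  unfold AA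
  positivity

theorem A4_nonneg (D : Dat a G r C) : 0 ≤ A4 r C := by
  have := D.C1
  have := AA_nonneg D
  unfold A4
  positivity

theorem yl_sq (D : Dat a G r C) {t σ s : Fin k → ℝ} (hσ : ∀ i, |σ i| = 1) {S : ℝ} (hS : 0 ≤ S) (hs : ∀ j, |s j| ≤ S) {p : ℕ}
    (hp : p.Prime) (h5 : 5 ≤ p) [NeZero p] :
    |EM p (fun c => yl a G t σ s p c ^ 2) - ∑ i, ∑ j, s i * σ i * (s j * σ j) * (kp (t i) p * kp (t j) p / p)| ≤
      k * (k * (S * S * A4 r C)) * w3 p := by
  have e : (fun c => yl a G t σ s p c ^ 2) =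
      fun c => ∑ i, ∑ j, s i * σ i * (s j * σ j) * (zl a G (t i) p c * zl a G (t j) p c) := by
    funext c
    rw [sq]
    unfold yl
    rw [Finset.sum_mul_sum]
    exact Finset.sum_congr rfl fun i _ => Finset.sum_congr rfl fun j _ => by ring
  rw [e, EM_sum2]
  have e2 : ∀ i, EM p (fun c => ∑ j, s i * σ i * (s j * σ j) * (zl a G (t i) p c * zl a G (t j) p c)) =
      ∑ j, s i * σ i * (s j * σ j) * EM p (fun c => zl a G (t i) p c * zl a G (t j) p c) := by
    intro i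
    rw [EM_sum2]
    exact Finset.sum_congr rfl fun j _ => EM_mul2 p _ _
  rw [Finset.sum_congr rfl fun i _ => e2 i, ← Finset.sum_sub_distrib]
  have hw := (w3_pos hp.pos).le
  have hA := A4_nonneg D
  refine (Finset.abs_sum_le_sum_abs _ _).trans ?_
  calc ∑ i, |∑ j, s i * σ i * (s j * σ j) * EM p (fun c => zl a G (t i) p c * zl a G (t j) p c) -
        ∑ j, s i * σ i * (s j * σ j) * (kp (t i) p * kp (t j) p / p)| ≤ ∑ _i : Fin k, ∑ _j : Fin k, S * S * (A4 r C * w3 p) := by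
        refine Finset.sum_le_sum fun i _ => ?_
        rw [← Finset.sum_sub_distrib]
        refine (Finset.abs_sum_le_sum_abs _ _).trans (Finset.sum_le_sum fun j _ => ?_)
        rw [← mul_sub, abs_mul, abs_mul, abs_mul, abs_mul, hσ, hσ, mul_one, mul_one]
        refine mul_le_mul (mul_le_mul (hs i) (hs j) (abs_nonneg _) hS) ?_ (abs_nonneg _) (by positivity)
        exact zl_cov D hp h5 (t i) (t j)
    _ = _ := by
        rw [Finset.sum_const, Finset.sum_const, Finset.card_univ, Fintype.card_fin, nsmul_eq_mul, nsmul_eq_mul]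
        ring

theorem lam_nu (t : ℝ) : lam t * lam t * nu t = 1 / 2 := by
  unfold lam nu
  split_ifs
  · have : (1 : ℝ) / √2 * (1 / √2) = 1 / 2 := by
      rw [div_mul_div_comm, Real.mul_self_sqrt (by norm_num)]
      norm_num
    rw [this, mul_one]
  · norm_num

theorem cov2 (t : Fin k → ℝ) (ht0 : ∀ i, 0 ≤ t i) (hti : Function.Injective t) (i j : Fin k) :
    ∃ B : ℝ, 0 ≤ B ∧ ∀ T : ℕ, 3 ≤ T →
      |∑ p ∈ PP T, kp (t i) p * kp (t j) p / p - if i = j then nu (t i) * Real.log (Real.log T) else 0| ≤ B := by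
  obtain ⟨B, hB0, hB⟩ := cov_sum k t ht0 hti i j
  have hl : 0 < lam (t i) * lam (t j) := mul_pos (lam_pos _) (lam_pos _)
  refine ⟨B / (lam (t i) * lam (t j)), by positivity, fun T hT => ?_⟩
  have h := hB T hT
  rw [← Finset.mul_sum] at h
  rw [le_div_iff₀ hl]
  have e : ∀ x : ℝ, |x| * (lam (t i) * lam (t j)) = |lam (t i) * lam (t j) * x| := by
    intro x
    rw [abs_mul, abs_of_pos hl]
    ring
  rw [e]
  refine le_trans (le_of_eq ?_) h
  congr 1
  rw [mul_sub]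
  congr 1
  split_ifs with hij
  · subst hij
    rw [← mul_assoc, lam_nu]
  · ring

theorem var_sum (t σ : Fin k → ℝ) (ht0 : ∀ i, 0 ≤ t i) (hti : Function.Injective t) (hσ : ∀ i, |σ i| = 1) {S : ℝ} (hS : 0 ≤ S) :
    ∃ B : ℝ, 0 ≤ B ∧ ∀ T : ℕ, 3 ≤ T → ∀ s : Fin k → ℝ, (∀ j, |s j| ≤ S) →
      |∑ p ∈ PP T, ∑ i, ∑ j, s i * σ i * (s j * σ j) * (kp (t i) p * kp (t j) p / p) -
        Qf (fun j => nu (t j)) s * Real.log (Real.log T)| ≤ B := by
  choose B hB0 hB using fun i j => cov2 t ht0 hti i j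
  refine ⟨∑ i, ∑ j, S * S * B i j, Finset.sum_nonneg fun i _ => Finset.sum_nonneg fun j _ => by
    have := hB0 i j
    positivity, fun T hT s hs => ?_⟩
  have e1 : ∑ p ∈ PP T, ∑ i, ∑ j, s i * σ i * (s j * σ j) * (kp (t i) p * kp (t j) p / p) =
      ∑ i, ∑ j, s i * σ i * (s j * σ j) * ∑ p ∈ PP T, kp (t i) p * kp (t j) p / p := by
    rw [Finset.sum_comm]
    refine Finset.sum_congr rfl fun i _ => ?_
    rw [Finset.sum_comm]
    exact Finset.sum_congr rfl fun j _ => (Finset.mul_sum _ _ _).symm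
  have e2 : Qf (fun j => nu (t j)) s * Real.log (Real.log T) =
      ∑ i, ∑ j, s i * σ i * (s j * σ j) * (if i = j then nu (t i) * Real.log (Real.log T) else 0) := by
    unfold Qf
    rw [Finset.sum_mul]
    refine Finset.sum_congr rfl fun i _ => ?_
    rw [Finset.sum_eq_single i]
    · rw [if_pos rfl]
      have h1 : σ i * σ i = 1 := by
        rw [← abs_mul_abs_self, hσ, one_mul]
      calc nu (t i) * s i ^ 2 * Real.log (Real.log T) = s i * s i * 1 * (nu (t i) * Real.log (Real.log T)) := by ring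
        _ = s i * s i * (σ i * σ i) * (nu (t i) * Real.log (Real.log T)) := by rw [h1]
        _ = _ := by ring
    · intro j _ hj
      rw [if_neg (Ne.symm hj), mul_zero]
    · intro h
      exact absurd (Finset.mem_univ i) h
  rw [e1, e2, ← Finset.sum_sub_distrib]
  refine (Finset.abs_sum_le_sum_abs _ _).trans (Finset.sum_le_sum fun i _ => ?_)
  rw [← Finset.sum_sub_distrib]
  refine (Finset.abs_sum_le_sum_abs _ _).trans (Finset.sum_le_sum fun j _ => ?_)
  rw [← mul_sub, abs_mul, abs_mul, abs_mul, abs_mul, hσ, hσ, mul_one, mul_one]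
  exact mul_le_mul (mul_le_mul (hs i) (hs j) (abs_nonneg _) hS) (hB i j T hT) (abs_nonneg _) (by positivity)

theorem PP_prime (T : ℕ) : ∀ p ∈ PP T, p.Prime := fun _ hp => (mem_PP.1 hp).2.1

/-- The exponential moments of the model. -/
theorem exp_part (D : Dat a G r C) (t σ : Fin k → ℝ) (ht0 : ∀ i, 0 ≤ t i) (hti : Function.Injective t) (hσ : ∀ i, |σ i| = 1)
    {S : ℝ} (hS : 0 ≤ S) : ∃ C2 : ℝ, 0 ≤ C2 ∧ ∀ T : ℕ, 3 ≤ T → ∀ [NeZero (MM (PP T))] (s : Fin k → ℝ), (∀ j, |s j| ≤ S) →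
      EM (MM (PP T)) (fun x => Real.exp (lin s (Xm a G t σ T) x)) ≤
        Real.exp (Qf (fun j => nu (t j)) s / 2 * Real.log (Real.log T) + C2) ∧
      Real.exp (Qf (fun j => nu (t j)) s / 2 * Real.log (Real.log T) - C2) ≤
        EM (MM (PP T)) (fun x => Real.exp (lin s (Xm a G t σ T) x)) := by
  obtain ⟨C1, hC10, hC1⟩ := sum_three_half
  obtain ⟨B, hB0, hB⟩ := var_sum t σ ht0 hti hσ hS
  obtain ⟨b, hb⟩ : ∃ b : ℝ, b = k * S * (2 + AA r C) := ⟨_, rfl⟩
  have hAA := AA_nonneg D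
  have hA4 := A4_nonneg D
  have hb0 : 0 ≤ b := by rw [hb]; positivity
  obtain ⟨C3, hC3⟩ : ∃ C3 : ℝ, C3 = b ^ 3 * Real.exp b + b ^ 4 := ⟨_, rfl⟩
  have hC30 : 0 ≤ C3 := by rw [hC3]; positivity
  obtain ⟨C4, hC4⟩ : ∃ C4 : ℝ, C4 = k * (k * (S * S * A4 r C)) := ⟨_, rfl⟩
  have hC40 : 0 ≤ C4 := by rw [hC4]; positivity
  refine ⟨C3 * C1 + 1 / 2 * (C4 * C1 + B), by positivity, fun T hT _ s hs => ?_⟩
  obtain ⟨V, hV⟩ : ∃ V : ℕ → ℝ, V = fun p => lme p (fun c => yl a G t σ s p c ^ 2) := ⟨_, rfl⟩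
  have hVs : |∑ p ∈ PP T, V p - Qf (fun j => nu (t j)) s * Real.log (Real.log T)| ≤ C4 * C1 + B := by
    have h1 : |∑ p ∈ PP T, V p - ∑ p ∈ PP T, ∑ i, ∑ j, s i * σ i * (s j * σ j) * (kp (t i) p * kp (t j) p / p)| ≤ C4 * C1 := by
      rw [← Finset.sum_sub_distrib]
      refine (Finset.abs_sum_le_sum_abs _ _).trans ?_
      refine le_trans ?_ (mul_le_mul_of_nonneg_left (hC1 (PP T)) hC40)
      rw [Finset.mul_sum]
      refine Finset.sum_le_sum fun p hp => ?_
      obtain ⟨_, hpp, h5⟩ := mem_PP.1 hp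
      have hne : NeZero p := ⟨hpp.ne_zero⟩
      have h2 := yl_sq D (t := t) hσ hS hs hpp h5
      rw [← hC4] at h2
      rw [hV]
      dsimp only
      rw [lme_eq]
      exact h2
    have h2 := hB T hT s hs
    have e : ∑ p ∈ PP T, V p - Qf (fun j => nu (t j)) s * Real.log (Real.log T) =
        (∑ p ∈ PP T, V p - ∑ p ∈ PP T, ∑ i, ∑ j, s i * σ i * (s j * σ j) * (kp (t i) p * kp (t j) p / p)) +
        (∑ p ∈ PP T, ∑ i, ∑ j, s i * σ i * (s j * σ j) * (kp (t i) p * kp (t j) p / p) -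
        Qf (fun j => nu (t j)) s * Real.log (Real.log T)) := by ring
    rw [e]
    exact (abs_add_le _ _).trans (add_le_add h1 h2)
  have hw : C3 * ∑ p ∈ PP T, w3 p ≤ C3 * C1 := mul_le_mul_of_nonneg_left (hC1 (PP T)) hC30
  have hloc : ∀ p ∈ PP T, lme p (fun c => Real.exp (yl a G t σ s p c)) ≤ Real.exp (1 / 2 * V p + C3 * w3 p) ∧
      Real.exp (1 / 2 * V p - C3 * w3 p) ≤ lme p (fun c => Real.exp (yl a G t σ s p c)) := by
    intro p hp
    obtain ⟨_, hpp, h5⟩ := mem_PP.1 hp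
    have hne : NeZero p := ⟨hpp.ne_zero⟩
    have h := loc_exp hpp.pos (yl a G t σ s p) hb0 (fun c => by
      rw [hb]
      exact yl_abs D hσ hS hs hpp h5 c) yl_mean
    rw [← hC3] at h
    rw [hV]
    dsimp only
    rw [lme_eq, lme_eq]
    exact h
  have e : EM (MM (PP T)) (fun x => Real.exp (lin s (Xm a G t σ T) x)) =
      ∏ p ∈ PP T, lme p (fun c => Real.exp (yl a G t σ s p c)) := by
    rw [← EM_prod (PP_prime T)]
    congr 1
    funext x
    rw [lin_Xm, Real.exp_sum]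
  rw [e]
  obtain ⟨h1, h2⟩ := abs_le.1 hVs
  constructor
  · calc ∏ p ∈ PP T, lme p (fun c => Real.exp (yl a G t σ s p c)) ≤ ∏ p ∈ PP T, Real.exp (1 / 2 * V p + C3 * w3 p) := by
          refine Finset.prod_le_prod (fun p hp => ?_) fun p hp => (hloc p hp).1
          exact (Real.exp_pos _).le.trans (hloc p hp).2
      _ = Real.exp (1 / 2 * ∑ p ∈ PP T, V p + C3 * ∑ p ∈ PP T, w3 p) := by
          rw [← Real.exp_sum, Finset.sum_add_distrib, ← Finset.mul_sum, ← Finset.mul_sum]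
      _ ≤ _ := by
          rw [Real.exp_le_exp]
          linarith
  · calc Real.exp (Qf (fun j => nu (t j)) s / 2 * Real.log (Real.log T) - (C3 * C1 + 1 / 2 * (C4 * C1 + B))) ≤
        Real.exp (1 / 2 * ∑ p ∈ PP T, V p - C3 * ∑ p ∈ PP T, w3 p) := by
          rw [Real.exp_le_exp]
          linarith
      _ = ∏ p ∈ PP T, Real.exp (1 / 2 * V p - C3 * w3 p) := by
          rw [← Real.exp_sum, Finset.sum_sub_distrib, ← Finset.mul_sum, ← Finset.mul_sum]
      _ ≤ _ := Finset.prod_le_prod (fun p _ => (Real.exp_pos _).le) fun p hp => (hloc p hp).2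

/-- The hypotheses of the abstract theorem. -/
theorem hyp_of (D : Dat a G r C) (t σ : Fin k → ℝ) (ht0 : ∀ i, 0 ≤ t i) (hti : Function.Injective t) (hσ : ∀ i, |σ i| = 1)
    {S : ℝ} (hS : 0 ≤ S) : ∃ C2 : ℝ, 0 ≤ C2 ∧ ∃ T0 : ℕ, 3 ≤ T0 ∧ ∀ T H m : ℕ, T0 ≤ T → 1 ≤ m → T ^ (16 * m) ≤ H →
      ∀ [NeZero (MM (PP T))], Hyp (Xb a G t σ T) (Xm a G t σ T) H (fun j => nu (t j)) (Real.log (Real.log T)) C2 S m := by
  obtain ⟨C2, hC20, hC2⟩ := exp_part D t σ ht0 hti hσ hS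
  obtain ⟨b, hb⟩ : ∃ b : ℝ, b = k * S * (2 + AA r C) := ⟨_, rfl⟩
  have hAA := AA_nonneg D
  have hb0 : 0 ≤ b := by rw [hb]; positivity
  refine ⟨C2, hC20, max 3 (max ⌈2 * b⌉₊ (9 * 2 ^ n)), le_max_left _ _, fun T H m hT hm hH _ => ?_⟩
  have hT3 : 3 ≤ T := (le_max_left _ _).trans hT
  have hT1 := (le_max_right _ _).trans hT
  have hTb : 2 * b ≤ T := (Nat.le_ceil _).trans (by exact_mod_cast (le_max_left _ _).trans hT1)
  have hTn : (9 : ℝ) * 2 ^ n ≤ T := by exact_mod_cast (le_max_right _ _).trans hT1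
  have hT0 : (3 : ℝ) ≤ T := by exact_mod_cast hT3
  refine ⟨fun s hs i hi => ?_, fun s hs => (hC2 T hT3 s hs).1, fun s hs => (hC2 T hT3 s hs).2⟩
  have h1 := mom_big (PP_prime T) (x := T) (fun p hp => (mem_PP.1 hp).1) (yl a G t σ s) (b := b) (fun p hp c => by
    obtain ⟨_, hpp, h5⟩ := mem_PP.1 hp
    have hp1 : (1 : ℝ) ≤ p := by exact_mod_cast hpp.one_lt.le
    have h := yl_abs D (t := t) hσ hS hs hpp h5 c
    rw [← hb] at h
    exact h.trans (div_le_self hb0 (Real.one_le_sqrt.2 hp1))) i H (by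
      have h2 : T ^ i ≤ T ^ (16 * m) := Nat.pow_le_pow_right (by omega) (by omega)
      omega)
  simp only [lin_Xb, lin_Xm]
  refine h1.trans ?_
  have hcard : (((PP T).card : ℕ) : ℝ) * b ≤ (T : ℝ) ^ 2 := by
    have h2 : (PP T).card ≤ T + 1 := by
      unfold PP
      refine (Finset.card_filter_le _ _).trans ?_
      rw [Finset.card_range]
    have h3 : (((PP T).card : ℕ) : ℝ) ≤ T + 1 := by exact_mod_cast h2
    calc (((PP T).card : ℕ) : ℝ) * b ≤ (T + 1) * b := mul_le_mul_of_nonneg_right h3 hb0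
      _ ≤ (2 * T) * b := mul_le_mul_of_nonneg_right (by linarith) hb0
      _ = T * (2 * b) := by ring
      _ ≤ T * T := mul_le_mul_of_nonneg_left hTb (by linarith)
      _ = (T : ℝ) ^ 2 := by ring
  have hlog0 : 0 < Real.log T := Real.log_pos (by linarith)
  have hlog1 : Real.log T ≤ T := (Real.log_le_sub_one_of_pos (by linarith)).trans (by linarith)
  have he : Real.exp (-Real.log (Real.log T)) / 9 = 1 / (9 * Real.log T) := by
    rw [Real.exp_neg, Real.exp_log hlog0]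
    field_simp
  have hHr : (T : ℝ) ^ (16 * m) ≤ 2 * (H : ℝ) + 1 := by
    have h2 : (T : ℝ) ^ (16 * m) ≤ H := by exact_mod_cast hH
    have : (0 : ℝ) ≤ H := Nat.cast_nonneg H
    linarith
  have hH0 : (0 : ℝ) < 2 * (H : ℝ) + 1 := by positivity
  rw [he]
  calc 2 ^ n * ((T : ℝ) ^ i / (2 * H + 1)) * (((PP T).card : ℕ) * b) ^ i ≤
      2 ^ n * ((T : ℝ) ^ i / (2 * H + 1)) * ((T : ℝ) ^ 2) ^ i :=
        mul_le_mul_of_nonneg_left (pow_le_pow_left₀ (by positivity) hcard i) (by positivity)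
    _ = 2 ^ n * (T : ℝ) ^ (3 * i) / (2 * H + 1) := by
        rw [← pow_mul, show 3 * i = i + 2 * i by ring, pow_add]
        ring
    _ ≤ 1 / (9 * Real.log T) := by
        rw [div_le_div_iff₀ hH0 (by positivity), one_mul]
        calc 2 ^ n * (T : ℝ) ^ (3 * i) * (9 * Real.log T) = (9 * 2 ^ n) * Real.log T * (T : ℝ) ^ (3 * i) := by ring
          _ ≤ (T : ℝ) * T * (T : ℝ) ^ (12 * m) := by
              refine mul_le_mul (mul_le_mul hTn hlog1 hlog0.le (by linarith)) ?_ (by positivity) (by positivity)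
              exact pow_le_pow_right₀ (by linarith) (by omega)
          _ = (T : ℝ) ^ (12 * m + 2) := by rw [pow_add]; ring
          _ ≤ (T : ℝ) ^ (16 * m) := pow_le_pow_right₀ (by linarith) (by omega)
          _ ≤ 2 * (H : ℝ) + 1 := hHr

end Pool.Agent.U62.LD
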