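import Pool.Agent.U62.LD.Cur2

/-!
# Several random hyperelliptic curves: products of orthonormal polynomials in the traces
-/

set_option autoImplicit false
set_option linter.unusedSectionVars false

namespace Pool.Agent.U62.LD

open Finset Filter Topology Pool.Agent.X280.BP Pool.Agent.U62.BM Polynomial
open Pool.Agent.Y722.HS (EM EB red)
open Pool.Agent.U62.RB (prop lmean lcov PerF lmean_red perF_red joint_std Lu gd gd_01 tr_poly_good poly_bound lmean_res res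
  res_nat evF EM_evF usp_vals)
open Pool.Agent.Y57.FD.HM (tr tr_le)
open Pool.Agent.Y57.FD.Mom (usp)

section Blocks

variable {N k : ℕ} {κ : Fin N → Type} [∀ b, Fintype (κ b)] [∀ b, DecidableEq (κ b)] {S : Type} [DecidableEq S]

/-- The hypotheses on the blocks. -/
structure Blk2 (B C : ℝ) (z : S) (h : ∀ b : Fin N, S → ∀ p : ℕ, (κ b → ZMod p) → ℝ) : Prop where
  B1 : 1 ≤ B
  one : ∀ b s p x, h b s p x * h b z p x = h b s p x
  bd : ∀ b s p, p.Prime → ∀ x, |h b s p x| ≤ B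
  cov2 : ∀ b s t p, p.Prime → ∀ [NeZero p], |EM p (fun x => h b s p x * h b t p x) - if s = t then 1 else 0| ≤ C / p

theorem PF_cov2 {B C : ℝ} (hC : 0 ≤ C) {z : S} {h : ∀ b : Fin N, S → ∀ p : ℕ, (κ b → ZMod p) → ℝ} (hb : Blk2 B C z h)
    (e e' : Fin N → S) {p : ℕ} (hp : p.Prime) [NeZero p] :
    |EM p (fun c => PF h e p c * PF h e' p c) - if e = e' then 1 else 0| ≤ (N * (1 + C) ^ N * C) / p := by
  classical
  have hp0 : (0 : ℝ) < p := by exact_mod_cast hp.pos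
  have hp1 : (1 : ℝ) ≤ p := by exact_mod_cast hp.one_lt.le
  have e1 : (fun c : (Σ b, κ b) → ZMod p => PF h e p c * PF h e' p c) =
      fun c => ∏ b, (fun x : κ b → ZMod p => h b (e b) p x * h b (e' b) p x) (fun j => c ⟨b, j⟩) := by
    funext c
    unfold PF
    rw [← Finset.prod_mul_distrib]
  rw [e1, Pool.Agent.X280.HG.EM_sigma p (fun b (x : κ b → ZMod p) => h b (e b) p x * h b (e' b) p x)]
  have e2 : (if e = e' then (1 : ℝ) else 0) = ∏ b, if e b = e' b then (1 : ℝ) else 0 := by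
    rw [Finset.prod_ite_zero]
    simp only [Finset.mem_univ, forall_true_left, Finset.prod_const_one]
    congr 1
    exact propext funext_iff
  rw [e2]
  have h1 := prod_close (s := (Finset.univ : Finset (Fin N))) (x := fun b => EM p (fun x : κ b → ZMod p => h b (e b) p x * h b (e' b) p x))
    (y := fun b => if e b = e' b then (1 : ℝ) else 0) (t := C / p) (C := C) (by positivity) (div_le_self hC hp1)
    (fun b _ => hb.cov2 b (e b) (e' b) p hp) (fun b _ => by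
      split_ifs <;> norm_num)
  rw [Finset.card_univ, Fintype.card_fin] at h1
  refine h1.1.trans (le_of_eq ?_)
  ring

/-- The system of the product functions. -/
theorem PF_loc2 {B C : ℝ} (hC : 0 ≤ C) {z : S} {h : ∀ b : Fin N, S → ∀ p : ℕ, (κ b → ZMod p) → ℝ} (hb : Blk2 B C z h)
    (E : Fin k → Fin N → S) (hE : Function.Injective E) (hE0 : ∀ i, E i ≠ fun _ => z) :
    Loc (ι := Σ b, κ b) k (B ^ N) (N * (1 + C) ^ N * C) (fun i => PF h (E i)) := by
  refine ⟨?_, ?_, ?_⟩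
  · intro i p hp x
    unfold PF
    rw [Finset.abs_prod]
    calc ∏ b, |h b (E i b) p (fun j => x ⟨b, j⟩)| ≤ ∏ _b : Fin N, B :=
          Finset.prod_le_prod (fun _ _ => abs_nonneg _) fun b _ => hb.bd b (E i b) p hp _
      _ = B ^ N := by rw [Finset.prod_const, Finset.card_univ, Fintype.card_fin]
  · intro i p hp _
    have h1 := PF_cov2 hC hb (E i) (fun _ => z) hp
    rw [if_neg (hE0 i), sub_zero] at h1
    have e : (fun c => PF h (E i) p c * PF h (fun _ => z) p c) = PF h (E i) p := by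
      funext c
      unfold PF
      rw [← Finset.prod_mul_distrib]
      exact Finset.prod_congr rfl fun b _ => hb.one b (E i b) p _
    rw [e] at h1
    exact h1
  · intro i j p hp _
    have h1 := PF_cov2 hC hb (E i) (E j) hp
    have e : (if E i = E j then (1 : ℝ) else 0) = if i = j then 1 else 0 := by
      by_cases hij : i = j
      · rw [if_pos hij, if_pos (by rw [hij])]
      · rw [if_neg hij, if_neg (fun h' => hij (hE h'))]
    rw [e] at h1
    exact h1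

end Blocks

variable {N k : ℕ} {S : Type} [DecidableEq S] [Fintype S]

/-- The functions of one curve. -/
noncomputable def hb2 (g : Fin N → ℕ) (φ : Fin N → S → ℝ[X]) (b : Fin N) (s : S) (p : ℕ) (x : Fin (2 * g b + 1) → ZMod p) : ℝ :=
  gd (g b) p (vl x) * (φ b s).eval (tr (g b) p (vl x))

/-- The orthonormality. -/
structure Ort2 (g : Fin N → ℕ) (φ : Fin N → S → ℝ[X]) (z : S) : Prop where
  deg : ∀ b s, (φ b s).natDegree ≤ g b + 1
  one : ∀ b, φ b z = 1
  prod : ∀ b s t, Lu (g b) (φ b s * φ b t) = if s = t then 1 else 0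

theorem blk2_of (g : Fin N → ℕ) (φ : Fin N → S → ℝ[X]) (z : S) (h : Ort2 g φ z) :
    ∃ B C : ℝ, 1 ≤ B ∧ 0 ≤ C ∧ Blk2 (κ := fun b => Fin (2 * g b + 1)) B C z (hb2 g φ) := by
  classical
  have hch2 : ∀ b s t, ∃ C : ℝ, 0 ≤ C ∧ (∀ p : ℕ, p.Prime →
      |Pool.Agent.TH894.NE.mean (2 * g b + 1) p (fun n => gd (g b) p n * (φ b s * φ b t).eval (tr (g b) p n)) -
        if s = t then 1 else 0| ≤ C / p) := by
    intro b s t
    obtain ⟨C, hC, h1⟩ := tr_poly_good (g b) (φ b s * φ b t) (by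
      have h2 := natDegree_mul_le (p := φ b s) (q := φ b t)
      have h3 := h.deg b s
      have h4 := h.deg b t
      omega)
    refine ⟨C, hC, fun p hp => ?_⟩
    have h2 := h1 p hp
    rwa [h.prod b s t] at h2
  choose C2 hC2 hc2 using hch2
  obtain ⟨S2, hS2⟩ : ∃ x : ℝ, x = ∑ b, ∑ s, ∑ t, C2 b s t := ⟨_, rfl⟩
  obtain ⟨BB, hBB⟩ : ∃ x : ℝ, x = ∑ b, ∑ s, ∑ m ∈ (φ b s).support, |(φ b s).coeff m| * (2 * g b : ℝ) ^ m := ⟨_, rfl⟩
  have hS20 : 0 ≤ S2 := hS2 ▸ Finset.sum_nonneg fun b _ => Finset.sum_nonneg fun s _ => Finset.sum_nonneg fun t _ => hC2 b s t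
  have hin : ∀ b s, 0 ≤ ∑ m ∈ (φ b s).support, |(φ b s).coeff m| * (2 * g b : ℝ) ^ m := fun b s =>
    Finset.sum_nonneg fun m _ => by positivity
  have hBB0 : 0 ≤ BB := hBB ▸ Finset.sum_nonneg fun b _ => Finset.sum_nonneg fun s _ => hin b s
  have l2 : ∀ b s t, C2 b s t ≤ S2 := by
    intro b s t
    rw [hS2]
    refine (Finset.single_le_sum (f := C2 b s) (fun t _ => hC2 b s t) (Finset.mem_univ t)).trans ?_
    refine (Finset.single_le_sum (f := fun s => ∑ t, C2 b s t) (fun s _ => Finset.sum_nonneg fun t _ => hC2 b s t)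
      (Finset.mem_univ s)).trans ?_
    exact Finset.single_le_sum (f := fun b => ∑ s, ∑ t, C2 b s t) (fun b _ => Finset.sum_nonneg fun s _ =>
      Finset.sum_nonneg fun t _ => hC2 b s t) (Finset.mem_univ b)
  have l3 : ∀ b s, ∑ m ∈ (φ b s).support, |(φ b s).coeff m| * (2 * g b : ℝ) ^ m ≤ BB := by
    intro b s
    rw [hBB]
    exact (Finset.single_le_sum (f := fun s => ∑ m ∈ (φ b s).support, |(φ b s).coeff m| * (2 * g b : ℝ) ^ m) (fun s _ => hin b s)
      (Finset.mem_univ s)).trans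
      (Finset.single_le_sum (f := fun b => ∑ s, ∑ m ∈ (φ b s).support, |(φ b s).coeff m| * (2 * g b : ℝ) ^ m)
        (fun b _ => Finset.sum_nonneg fun s _ => hin b s) (Finset.mem_univ b))
  refine ⟨BB + 1, S2, by linarith, hS20, ⟨by linarith, ?_, ?_, ?_⟩⟩
  · intro b s p x
    unfold hb2
    rw [h.one b, eval_one, mul_one]
    rcases gd_01 (g b) p (vl x) with h3 | ⟨h3, _⟩ <;> rw [h3] <;> ring
  · intro b s p hp x
    unfold hb2
    have h2 := (poly_bound (φ b s) (2 * g b) (tr_le (g b) p (vl x))).trans (l3 b s)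
    rcases gd_01 (g b) p (vl x) with h3 | ⟨h3, _⟩
    · rw [h3, one_mul]
      linarith
    · rw [h3, zero_mul, abs_zero]
      linarith
  · intro b s t p hp _
    have hp0 : (0 : ℝ) < p := by exact_mod_cast hp.pos
    have e : (fun x : Fin (2 * g b + 1) → ZMod p => hb2 g φ b s p x * hb2 g φ b t p x) =
        fun x => (fun n => gd (g b) p n * (φ b s * φ b t).eval (tr (g b) p n)) (vl x) := by
      funext x
      unfold hb2
      dsimp only
      rw [eval_mul]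
      rcases gd_01 (g b) p (vl x) with h3 | ⟨h3, _⟩ <;> rw [h3] <;> ring
    rw [e, EM_val (2 * g b + 1) p (fun n => gd (g b) p n * (φ b s * φ b t).eval (tr (g b) p n))]
    exact (hc2 b s t p hp).trans (div_le_div_of_nonneg_right (l2 b s t) hp0.le)

/-- The product functions. -/
noncomputable def prF (g : Fin N → ℕ) (φ : Fin N → S → ℝ[X]) (e : Fin N → S) (p : ℕ) (c : Ig g → ZMod p) : ℝ :=
  ∏ b, (gd (g b) p (vl fun k => c ⟨b, k⟩) * (φ b (e b)).eval (tr (g b) p (vl fun k => c ⟨b, k⟩)))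

theorem prF_loc {g : Fin N → ℕ} {φ : Fin N → S → ℝ[X]} {z : S} (h : Ort2 g φ z) (E : Fin k → Fin N → S)
    (hE : Function.Injective E) (hE0 : ∀ i, E i ≠ fun _ => z) :
    ∃ B C : ℝ, 0 < B ∧ 0 < C ∧ Loc (ι := Ig g) k B C (fun i => prF g φ (E i)) := by
  obtain ⟨B, C, hB, hC, hb⟩ := blk2_of g φ z h
  have h := PF_loc2 hC hb E hE hE0
  have hM : 0 ≤ (N : ℝ) * (1 + C) ^ N * C := by positivity
  refine ⟨B ^ N, N * (1 + C) ^ N * C + 1, by positivity, by linarith, ⟨h.bd, ?_, ?_⟩⟩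
  · intro i p hp _
    have hp0 : (0 : ℝ) < p := by exact_mod_cast hp.pos
    exact (h.mean i p hp).trans (div_le_div_of_nonneg_right (by linarith) hp0.le)
  · intro i j p hp _
    have hp0 : (0 : ℝ) < p := by exact_mod_cast hp.pos
    exact (h.cov2 i j p hp).trans (div_le_div_of_nonneg_right (by linarith) hp0.le)

/-- The joint normal law for the products. -/
theorem prF_joint {g : Fin N → ℕ} {φ : Fin N → S → ℝ[X]} {z : S} (h : Ort2 g φ z) (E : Fin k → Fin N → S)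
    (hE : Function.Injective E) (hE0 : ∀ i, E i ≠ fun _ => z) (u : Fin k → ℝ) {δ ε : ℝ} (hδ : 0 < δ) (hε : 0 < ε) :
    ∃ K : ℕ, ∀ (P : Finset ℕ) (w : ℕ → ℝ) (y H : ℕ), (∀ p ∈ P, p.Prime ∧ p ≤ y) → K ≤ P.card → (∀ p ∈ P, |w p| ≤ 1) →
    δ * P.card ≤ ∑ p ∈ P, w p ^ 2 → y ^ K ≤ H →
    |propG H (fun c : Ig g → ℤ => ∀ i, ∑ p ∈ P, w p * prF g φ (E i) p (red p c) ≤ u i * √(∑ p ∈ P, w p ^ 2)) -
      ∏ i, (ProbabilityTheory.gaussianReal 0 1).real (Set.Iic (u i))| ≤ ε := by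
  obtain ⟨B, C, hB, hC, h⟩ := prF_loc h E hE hE0
  exact joint_loc u hδ hε hB hC h

/-- The moderate deviations for the products. -/
theorem prF_mdp {g : Fin N → ℕ} {φ : Fin N → S → ℝ[X]} {z : S} (h : Ort2 g φ z) (E : Fin k → Fin N → S)
    (hE : Function.Injective E) (hE0 : ∀ i, E i ≠ fun _ => z) {β : Fin k → ℝ} (hβ : ∀ j, 0 ≤ β j) {δ ε : ℝ} (hδ : 0 < δ)
    (hε : 0 < ε) :
    ∃ K : ℕ, ∀ (P : Finset ℕ) (w : ℕ → ℝ) (y H l : ℕ) (σ : Fin k → ℝ), (∀ p ∈ P, p.Prime ∧ p ≤ y) → (∀ p ∈ P, |w p| ≤ 1) →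
    δ * P.card ≤ ∑ p ∈ P, w p ^ 2 → (∀ i, σ i = 1 ∨ σ i = -1) → K ≤ l → l ^ 3 ≤ P.card → y ^ (K * l) ≤ H →
    Real.exp (-(∑ j, β j ^ 2 / 2 + ε) * l) ≤
      propG H (fun c : Ig g → ℤ => ∀ i, β i * √(l * ∑ p ∈ P, w p ^ 2) ≤ σ i * ∑ p ∈ P, w p * prF g φ (E i) p (red p c)) ∧
    propG H (fun c : Ig g → ℤ => ∀ i, β i * √(l * ∑ p ∈ P, w p ^ 2) ≤ σ i * ∑ p ∈ P, w p * prF g φ (E i) p (red p c)) ≤
      Real.exp (-(∑ j, β j ^ 2 / 2 - ε) * l) := by
  obtain ⟨B, C, hB, hC, h⟩ := prF_loc h E hE hE0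
  exact mdp_loc hβ hδ hε hB hC h

end Pool.Agent.U62.LD
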