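import Pool.Agent.U62.LD.Mdp
import Pool.Agent.U62.RB.Hyp2

/-!
# Moderate deviations with signs; hyperelliptic curves
-/

set_option autoImplicit false
set_option linter.unusedSectionVars false

namespace Pool.Agent.U62.LD

open Finset Filter Topology Pool.Agent.X280.BP Pool.Agent.U62.BM Polynomial
open Pool.Agent.Y722.HS (EM EB red)
open Pool.Agent.U62.RB (prop lmean lcov PerF lmean_mul lcov_mul FH BH hyp_local FH_abs res_congr FP Lu gd gd_01 tr_poly_good
  poly_bound lmean_res res)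
open Pool.Agent.Y57.FD.HM (tr tr_le)

variable {n k : ℕ}

theorem Sys.signs {δ B C : ℝ} {F : Fin k → ℕ → (Fin n → ℤ) → ℝ} {P : Finset ℕ} {w : ℕ → ℝ} {y : ℕ} (h : Sys n k δ B C F P w y)
    {σ : Fin k → ℝ} (hσ : ∀ i, σ i = 1 ∨ σ i = -1) : Sys n k δ B C (fun i p c => σ i * F i p c) P w y := by
  have h1 : ∀ i, |σ i| = 1 := fun i => by rcases hσ i with h1 | h1 <;> rw [h1] <;> simp
  refine ⟨h.primes, h.wle, h.wge, ?_, ?_, ?_, ?_⟩
  · intro i p hp c c' hc
    show σ i * F i p c = σ i * F i p c'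
    rw [h.per i p hp c c' hc]
  · intro i p hp c
    rw [abs_mul, h1, one_mul]
    exact h.bd i p hp c
  · intro i p hp
    rw [lmean_mul, abs_mul, h1, one_mul]
    exact h.mean i p hp
  · intro i j p hp
    rw [lcov_mul]
    have h2 := h.cov i j p hp
    by_cases hij : i = j
    · subst hij
      rw [if_pos rfl] at h2 ⊢
      have h3 : σ i * σ i = 1 := by rw [← abs_mul_abs_self, h1, one_mul]
      rw [h3, one_mul]
      exact h2
    · rw [if_neg hij, sub_zero] at h2 ⊢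
      rw [abs_mul, abs_mul, h1, h1, one_mul, one_mul]
      exact h2

/-- **Moderate deviations with signs.** -/
theorem mdp_signs (n k : ℕ) {β : Fin k → ℝ} (hβ : ∀ j, 0 ≤ β j) {δ ε B C : ℝ} (hδ : 0 < δ) (hε : 0 < ε) (hB : 0 < B) (hC : 0 < C) :
    ∃ K : ℕ, ∀ (F : Fin k → ℕ → (Fin n → ℤ) → ℝ) (P : Finset ℕ) (w : ℕ → ℝ) (y H l : ℕ) (σ : Fin k → ℝ), Sys n k δ B C F P w y →
    (∀ i, σ i = 1 ∨ σ i = -1) → K ≤ l → l ^ 3 ≤ P.card → y ^ (K * l) ≤ H →
    Real.exp (-(∑ j, β j ^ 2 / 2 + ε) * l) ≤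
      prop H (fun c => ∀ i, β i * √(l * ∑ p ∈ P, w p ^ 2) ≤ σ i * ∑ p ∈ P, w p * F i p c) ∧
    prop H (fun c => ∀ i, β i * √(l * ∑ p ∈ P, w p ^ 2) ≤ σ i * ∑ p ∈ P, w p * F i p c) ≤
      Real.exp (-(∑ j, β j ^ 2 / 2 - ε) * l) := by
  obtain ⟨K, hK⟩ := mdp_std n k hβ hδ hε hB hC
  refine ⟨K, fun F P w y H l σ sys hσ hl hlP hH => ?_⟩
  have h := hK (fun i p c => σ i * F i p c) P w y H l (sys.signs hσ) hl hlP hH
  have e : (fun c => ∀ i, β i * √(l * ∑ p ∈ P, w p ^ 2) ≤ ∑ p ∈ P, w p * (σ i * F i p c)) =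
      fun c => ∀ i, β i * √(l * ∑ p ∈ P, w p ^ 2) ≤ σ i * ∑ p ∈ P, w p * F i p c := by
    funext c
    refine propext (forall_congr' fun i => ?_)
    have e2 : ∑ p ∈ P, w p * (σ i * F i p c) = σ i * ∑ p ∈ P, w p * F i p c := by
      rw [Finset.mul_sum]
      exact Finset.sum_congr rfl fun p _ => mul_left_comm _ _ _
    rw [e2]
  rw [e] at h
  exact h

/-- The three characters for hyperelliptic curves. -/
theorem hyp_sys {g : ℕ} (hg : 2 ≤ g) : ∃ C : ℝ, 0 < C ∧ ∀ (δ : ℝ) (P : Finset ℕ) (w : ℕ → ℝ) (y : ℕ),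
    (∀ p ∈ P, p.Prime ∧ p ≤ y) → (∀ p ∈ P, |w p| ≤ 1) → δ * P.card ≤ ∑ p ∈ P, w p ^ 2 →
    Sys (2 * g + 1) 3 δ (BH g) C (FH g) P w y := by
  obtain ⟨C, hC, hl⟩ := hyp_local hg
  refine ⟨C, hC, fun δ P w y hP hw hws => ⟨hP, hw, hws, ?_, fun i p _ c => FH_abs g i p c,
    fun i p hp => (hl p (hP p hp).1).1 i, fun i j p hp => (hl p (hP p hp).1).2 i j⟩⟩
  intro i p hp c c' hc
  unfold FH
  rw [res_congr hc]

/-- The polynomials in the trace for hyperelliptic curves. -/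
theorem poly_sys (g k : ℕ) (φ : Fin k → ℝ[X]) (hd : ∀ i, (φ i).natDegree ≤ g + 1) (h0 : ∀ i, Lu g (φ i) = 0)
    (h1 : ∀ i j, Lu g (φ i * φ j) = if i = j then 1 else 0) : ∃ B C : ℝ, 0 < B ∧ 0 < C ∧
    ∀ (δ : ℝ) (P : Finset ℕ) (w : ℕ → ℝ) (y : ℕ), (∀ p ∈ P, p.Prime ∧ p ≤ y) → (∀ p ∈ P, |w p| ≤ 1) →
    δ * P.card ≤ ∑ p ∈ P, w p ^ 2 → Sys (2 * g + 1) k δ B C (FP g φ) P w y := by
  choose C1 hC1 hc1 using fun i => tr_poly_good g (φ i) ((hd i).trans (by omega))
  have hdd : ∀ i j, (φ i * φ j).natDegree ≤ 2 * g + 3 := by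
    intro i j
    refine natDegree_mul_le.trans ?_
    have := hd i
    have := hd j
    omega
  choose C2 hC2 hc2 using fun i j => tr_poly_good g (φ i * φ j) (hdd i j)
  set S1 : ℝ := ∑ i, C1 i with hS1
  have hS10 : 0 ≤ S1 := Finset.sum_nonneg fun i _ => hC1 i
  set S2 : ℝ := ∑ i, ∑ j, C2 i j with hS2
  have hS20 : 0 ≤ S2 := Finset.sum_nonneg fun i _ => Finset.sum_nonneg fun j _ => hC2 i j
  have hle1 : ∀ i, C1 i ≤ S1 := fun i => Finset.single_le_sum (f := C1) (fun i _ => hC1 i) (Finset.mem_univ i)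
  have hle2 : ∀ i j, C2 i j ≤ S2 := fun i j =>
    (Finset.single_le_sum (f := C2 i) (fun j _ => hC2 i j) (Finset.mem_univ j)).trans
      (Finset.single_le_sum (f := fun i => ∑ j, C2 i j) (fun i _ => Finset.sum_nonneg fun j _ => hC2 i j) (Finset.mem_univ i))
  set B : ℝ := ∑ i, (∑ m ∈ (φ i).support, |(φ i).coeff m| * (2 * g : ℝ) ^ m) + 1 with hB
  have hB0 : 0 < B := by
    have : 0 ≤ ∑ i, (∑ m ∈ (φ i).support, |(φ i).coeff m| * (2 * g : ℝ) ^ m) :=
      Finset.sum_nonneg fun i _ => Finset.sum_nonneg fun m _ => by positivity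
    linarith
  refine ⟨B, S1 + S1 ^ 2 + S2 + 1, hB0, by positivity, fun δ P w y hP hw hws => ?_⟩
  have hm : ∀ i, ∀ p ∈ P, |lmean (FP g φ i p) p| ≤ S1 / p := by
    intro i p hp
    have hp0 : (0 : ℝ) < p := by exact_mod_cast (hP p hp).1.pos
    have h2 := hc1 i p (hP p hp).1
    rw [h0 i, sub_zero] at h2
    have e := lmean_res (fun n => gd g p n * (φ i).eval (tr g p n)) p
    unfold FP
    rw [e]
    exact h2.trans (div_le_div_of_nonneg_right (hle1 i) hp0.le)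
  refine ⟨hP, hw, hws, ?_, ?_, ?_, ?_⟩
  · intro i p _ c c' hc
    unfold FP
    rw [res_congr hc]
  · intro i p _ c
    unfold FP
    have h2 := poly_bound (φ i) (2 * g) (tr_le g p (res p c))
    have h3 : ∑ m ∈ (φ i).support, |(φ i).coeff m| * (2 * g : ℝ) ^ m ≤
        ∑ i, (∑ m ∈ (φ i).support, |(φ i).coeff m| * (2 * g : ℝ) ^ m) :=
      Finset.single_le_sum (f := fun i => ∑ m ∈ (φ i).support, |(φ i).coeff m| * (2 * g : ℝ) ^ m)
        (fun i _ => Finset.sum_nonneg fun m _ => by positivity) (Finset.mem_univ i)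
    rcases gd_01 g p (res p c) with h | ⟨h, _⟩
    · rw [h, one_mul]
      linarith
    · rw [h, zero_mul, abs_zero]
      exact hB0.le
  · intro i p hp
    have hp0 : (0 : ℝ) < p := by exact_mod_cast (hP p hp).1.pos
    refine (hm i p hp).trans (div_le_div_of_nonneg_right ?_ hp0.le)
    nlinarith [sq_nonneg S1]
  · intro i j p hp
    have hp0 : (0 : ℝ) < p := by exact_mod_cast (hP p hp).1.pos
    have hp1 : (1 : ℝ) ≤ p := by exact_mod_cast (hP p hp).1.one_lt.le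
    have e : lmean (fun c => FP g φ i p c * FP g φ j p c) p =
        Pool.Agent.TH894.NE.mean (2 * g + 1) p (fun n => gd g p n * (φ i * φ j).eval (tr g p n)) := by
      rw [← lmean_res]
      congr 1
      funext c
      unfold FP
      rw [eval_mul]
      rcases gd_01 g p (res p c) with h | ⟨h, _⟩ <;> rw [h] <;> ring
    have h2 := hc2 i j p (hP p hp).1
    rw [h1 i j] at h2
    unfold lcov
    rw [e]
    have h3 : |lmean (FP g φ i p) p * lmean (FP g φ j p) p| ≤ S1 ^ 2 / p := by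
      rw [abs_mul]
      have h5 : 0 ≤ S1 / p := by positivity
      calc |lmean (FP g φ i p) p| * |lmean (FP g φ j p) p| ≤ S1 / p * (S1 / p) :=
            mul_le_mul (hm i p hp) (hm j p hp) (abs_nonneg _) h5
        _ = S1 ^ 2 / p * (1 / p) := by ring
        _ ≤ S1 ^ 2 / p * 1 := by
          refine mul_le_mul_of_nonneg_left ?_ (by positivity)
          rw [div_le_one hp0]
          exact hp1
        _ = S1 ^ 2 / p := mul_one _
    have h4 : C2 i j / p ≤ S2 / p := div_le_div_of_nonneg_right (hle2 i j) hp0.le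
    have e3 : Pool.Agent.TH894.NE.mean (2 * g + 1) p (fun n => gd g p n * (φ i * φ j).eval (tr g p n)) -
        lmean (FP g φ i p) p * lmean (FP g φ j p) p - (if i = j then 1 else 0) =
        (Pool.Agent.TH894.NE.mean (2 * g + 1) p (fun n => gd g p n * (φ i * φ j).eval (tr g p n)) -
          (if i = j then 1 else 0)) - lmean (FP g φ i p) p * lmean (FP g φ j p) p := by ring
    rw [e3]
    refine (abs_sub _ _).trans ?_
    have h6 : (S1 + S1 ^ 2 + S2 + 1) / (p : ℝ) = S1 / p + S1 ^ 2 / p + S2 / p + 1 / p := by ring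
    rw [h6]
    have h7 : 0 ≤ S1 / (p : ℝ) := by positivity
    have h8 : 0 ≤ 1 / (p : ℝ) := by positivity
    linarith

end Pool.Agent.U62.LD
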