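import Pool.Agent.U62.LD.Sgn
import Pool.Agent.X280.HG.Sigma

/-!
# The joint normal law and the moderate deviations for local functions on general index types; blocks
-/

set_option autoImplicit false
set_option linter.unusedSectionVars false

namespace Pool.Agent.U62.LD

open Finset Filter Topology Pool.Agent.X280.BP Pool.Agent.U62.BM
open Pool.Agent.Y722.HS (EM EB red)
open Pool.Agent.U62.RB (prop lmean lcov PerF lmean_red perF_red joint_std)

variable {ι : Type} [Fintype ι] [DecidableEq ι] {n k : ℕ}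

/-- The proportion. -/
noncomputable def propG {ι : Type} [Fintype ι] (H : ℕ) (Q : (ι → ℤ) → Prop) : ℝ :=
  ({c : ι → ℤ | (∀ i, |c i| ≤ H) ∧ Q c}.ncard : ℝ) / (2 * H + 1 : ℝ) ^ Fintype.card ι

theorem propG_eq (e : Fin n ≃ ι) (H : ℕ) (Q : (ι → ℤ) → Prop) :
    propG H Q = prop H (fun c : Fin n → ℤ => Q fun i => c (e.symm i)) := by
  have hcard : Fintype.card ι = n := by rw [← Fintype.card_congr e, Fintype.card_fin]
  unfold propG prop
  rw [hcard]
  congr 2
  have h : {c : ι → ℤ | (∀ i, |c i| ≤ (H : ℤ)) ∧ Q c} =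
      (fun (c : Fin n → ℤ) (i : ι) => c (e.symm i)) '' {c : Fin n → ℤ | (∀ i, |c i| ≤ (H : ℤ)) ∧ Q fun i => c (e.symm i)} := by
    ext c
    constructor
    · rintro ⟨h1, h2⟩
      refine ⟨fun j => c (e j), ⟨fun j => h1 _, ?_⟩, ?_⟩
      · have : (fun i => c (e (e.symm i))) = c := by
          funext i
          rw [Equiv.apply_symm_apply]
        rw [this]
        exact h2
      · funext i
        show c (e (e.symm i)) = c i
        rw [Equiv.apply_symm_apply]
    · rintro ⟨c', ⟨h1, h2⟩, rfl⟩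
      exact ⟨fun i => h1 _, h2⟩
  rw [h]
  apply Set.ncard_image_of_injective
  intro c c' hc
  funext j
  have := congrFun hc (e j)
  simpa using this

theorem EM_equiv (e : Fin n ≃ ι) (p : ℕ) [NeZero p] (f : (ι → ZMod p) → ℝ) :
    EM p (fun x : Fin n → ZMod p => f fun i => x (e.symm i)) = EM p f := by
  have hcard : Fintype.card ι = n := by rw [← Fintype.card_congr e, Fintype.card_fin]
  unfold EM
  rw [hcard, Fintype.card_fin]
  congr 1
  exact Fintype.sum_equiv (Equiv.arrowCongr e (Equiv.refl (ZMod p))) _ _ fun x => rfl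

/-- The hypotheses on the local functions. -/
structure Loc (k : ℕ) (B C : ℝ) (f : Fin k → ∀ p : ℕ, (ι → ZMod p) → ℝ) : Prop where
  bd : ∀ i p, p.Prime → ∀ x, |f i p x| ≤ B
  mean : ∀ i p, p.Prime → ∀ [NeZero p], |EM p (f i p)| ≤ C / p
  cov2 : ∀ i j p, p.Prime → ∀ [NeZero p], |EM p (fun x => f i p x * f j p x) - if i = j then 1 else 0| ≤ C / p

/-- The functions on `Fin n`. -/
def FF (e : Fin n ≃ ι) (f : Fin k → ∀ p : ℕ, (ι → ZMod p) → ℝ) (i : Fin k) (p : ℕ) (c : Fin n → ℤ) : ℝ :=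
  f i p (red p fun a => c (e.symm a))

theorem FF_mean (e : Fin n ≃ ι) (f : Fin k → ∀ p : ℕ, (ι → ZMod p) → ℝ) (i : Fin k) (p : ℕ) [NeZero p] :
    lmean (FF e f i p) p = EM p (f i p) := by
  rw [← EM_equiv e]
  exact lmean_red p (fun x : Fin n → ZMod p => f i p fun a => x (e.symm a))

theorem FF_mul (e : Fin n ≃ ι) (f : Fin k → ∀ p : ℕ, (ι → ZMod p) → ℝ) (i j : Fin k) (p : ℕ) [NeZero p] :
    lmean (fun c => FF e f i p c * FF e f j p c) p = EM p (fun x => f i p x * f j p x) := by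
  rw [← EM_equiv e]
  exact lmean_red p (fun x : Fin n → ZMod p => (f i p fun a => x (e.symm a)) * f j p fun a => x (e.symm a))

theorem FF_cov {B C : ℝ} (hC : 0 ≤ C) (e : Fin n ≃ ι) {f : Fin k → ∀ p : ℕ, (ι → ZMod p) → ℝ} (h : Loc k B C f) (i j : Fin k)
    {p : ℕ} (hp : p.Prime) : |lcov (FF e f i p) (FF e f j p) p - if i = j then 1 else 0| ≤ (C + C ^ 2) / p := by
  have hne : NeZero p := ⟨hp.ne_zero⟩
  have hp0 : (0 : ℝ) < p := by exact_mod_cast hp.pos
  have hp1 : (1 : ℝ) ≤ p := by exact_mod_cast hp.one_lt.le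
  unfold lcov
  rw [FF_mul, FF_mean, FF_mean]
  have e1 : EM p (fun x => f i p x * f j p x) - EM p (f i p) * EM p (f j p) - (if i = j then (1 : ℝ) else 0) =
      (EM p (fun x => f i p x * f j p x) - if i = j then 1 else 0) - EM p (f i p) * EM p (f j p) := by ring
  rw [e1]
  refine (abs_sub _ _).trans ?_
  rw [add_div]
  refine add_le_add (h.cov2 i j p hp) ?_
  rw [abs_mul]
  have h0 : 0 ≤ C / (p : ℝ) := by positivity
  calc |EM p (f i p)| * |EM p (f j p)| ≤ C / p * (C / p) := mul_le_mul (h.mean i p hp) (h.mean j p hp) (abs_nonneg _) h0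
    _ = C ^ 2 / p * (1 / p) := by ring
    _ ≤ C ^ 2 / p * 1 := by
        refine mul_le_mul_of_nonneg_left ?_ (by positivity)
        rw [div_le_one hp0]
        exact hp1
    _ = C ^ 2 / p := mul_one _

theorem FF_sys {B C : ℝ} (hC : 0 ≤ C) (e : Fin n ≃ ι) {f : Fin k → ∀ p : ℕ, (ι → ZMod p) → ℝ} (h : Loc k B C f) {δ : ℝ}
    {P : Finset ℕ} {w : ℕ → ℝ} {y : ℕ} (hP : ∀ p ∈ P, p.Prime ∧ p ≤ y) (hw : ∀ p ∈ P, |w p| ≤ 1)
    (hws : δ * P.card ≤ ∑ p ∈ P, w p ^ 2) : Sys n k δ B (C + C ^ 2) (FF e f) P w y := by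
  refine ⟨hP, hw, hws, ?_, ?_, ?_, ?_⟩
  · intro i p _
    exact perF_red p (fun x : Fin n → ZMod p => f i p fun a => x (e.symm a))
  · intro i p hp c
    exact h.bd i p (hP p hp).1 _
  · intro i p hp
    have hne : NeZero p := ⟨(hP p hp).1.ne_zero⟩
    have hp0 : (0 : ℝ) < p := by exact_mod_cast (hP p hp).1.pos
    rw [FF_mean]
    refine (h.mean i p (hP p hp).1).trans (div_le_div_of_nonneg_right ?_ hp0.le)
    linarith [sq_nonneg C]
  · intro i j p hp
    exact FF_cov hC e h i j (hP p hp).1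

/-- **The joint normal law** on general index types. -/
theorem joint_loc (u : Fin k → ℝ) {δ ε B C : ℝ} (hδ : 0 < δ) (hε : 0 < ε) (hB : 0 < B) (hC : 0 < C)
    {f : Fin k → ∀ p : ℕ, (ι → ZMod p) → ℝ} (h : Loc k B C f) :
    ∃ K : ℕ, ∀ (P : Finset ℕ) (w : ℕ → ℝ) (y H : ℕ), (∀ p ∈ P, p.Prime ∧ p ≤ y) → K ≤ P.card → (∀ p ∈ P, |w p| ≤ 1) →
    δ * P.card ≤ ∑ p ∈ P, w p ^ 2 → y ^ K ≤ H →
    |propG H (fun c : ι → ℤ => ∀ i, ∑ p ∈ P, w p * f i p (red p c) ≤ u i * √(∑ p ∈ P, w p ^ 2)) -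
      ∏ i, (ProbabilityTheory.gaussianReal 0 1).real (Set.Iic (u i))| ≤ ε := by
  have e : Fin (Fintype.card ι) ≃ ι := (Fintype.equivFin ι).symm
  obtain ⟨K, hK⟩ := joint_std (Fintype.card ι) k u hδ hε hB (C := C + C ^ 2) (by positivity)
  refine ⟨K, fun P w y H hP hPc hw hws hH => ?_⟩
  have hs := FF_sys hC.le e h hP hw hws
  rw [propG_eq e]
  exact hK (FF e f) P w y H hP hPc hw hws hs.per hs.bd hs.mean hs.cov hH

/-- **Moderate deviations** on general index types. -/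
theorem mdp_loc {β : Fin k → ℝ} (hβ : ∀ j, 0 ≤ β j) {δ ε B C : ℝ} (hδ : 0 < δ) (hε : 0 < ε) (hB : 0 < B) (hC : 0 < C)
    {f : Fin k → ∀ p : ℕ, (ι → ZMod p) → ℝ} (h : Loc k B C f) :
    ∃ K : ℕ, ∀ (P : Finset ℕ) (w : ℕ → ℝ) (y H l : ℕ) (σ : Fin k → ℝ), (∀ p ∈ P, p.Prime ∧ p ≤ y) → (∀ p ∈ P, |w p| ≤ 1) →
    δ * P.card ≤ ∑ p ∈ P, w p ^ 2 → (∀ i, σ i = 1 ∨ σ i = -1) → K ≤ l → l ^ 3 ≤ P.card → y ^ (K * l) ≤ H →
    Real.exp (-(∑ j, β j ^ 2 / 2 + ε) * l) ≤
      propG H (fun c : ι → ℤ => ∀ i, β i * √(l * ∑ p ∈ P, w p ^ 2) ≤ σ i * ∑ p ∈ P, w p * f i p (red p c)) ∧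
    propG H (fun c : ι → ℤ => ∀ i, β i * √(l * ∑ p ∈ P, w p ^ 2) ≤ σ i * ∑ p ∈ P, w p * f i p (red p c)) ≤
      Real.exp (-(∑ j, β j ^ 2 / 2 - ε) * l) := by
  have e : Fin (Fintype.card ι) ≃ ι := (Fintype.equivFin ι).symm
  obtain ⟨K, hK⟩ := mdp_signs (Fintype.card ι) k hβ hδ hε hB (C := C + C ^ 2) (by positivity)
  refine ⟨K, fun P w y H l σ hP hw hws hσ hl hlP hH => ?_⟩
  rw [propG_eq e]
  exact hK (FF e f) P w y H l σ (FF_sys hC.le e h hP hw hws) hσ hl hlP hH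

section Blocks

variable {N : ℕ} {κ : Fin N → Type} [∀ b, Fintype (κ b)] [∀ b, DecidableEq (κ b)] {S : Type} [DecidableEq S]

theorem prod_close {s : Finset (Fin N)} {x y : Fin N → ℝ} {t C : ℝ} (ht : 0 ≤ t) (htC : t ≤ C) (hxy : ∀ b ∈ s, |x b - y b| ≤ t)
    (hy : ∀ b ∈ s, |y b| ≤ 1) :
    |∏ b ∈ s, x b - ∏ b ∈ s, y b| ≤ s.card * (1 + C) ^ s.card * t ∧ |∏ b ∈ s, x b| ≤ (1 + C) ^ s.card ∧ |∏ b ∈ s, y b| ≤ 1 := by
  classical
  have hC : 0 ≤ C := ht.trans htC
  induction s using Finset.induction_on with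
  | empty => simp
  | insert a s ha ih =>
    obtain ⟨h1, h2, h3⟩ := ih (fun b hb => hxy b (Finset.mem_insert_of_mem hb)) fun b hb => hy b (Finset.mem_insert_of_mem hb)
    have ha1 := hxy a (Finset.mem_insert_self a s)
    have ha2 := hy a (Finset.mem_insert_self a s)
    have hxa : |x a| ≤ 1 + C := by
      have e : x a = (x a - y a) + y a := by ring
      rw [e]
      refine (abs_add_le _ _).trans ?_
      linarith
    rw [Finset.prod_insert ha, Finset.prod_insert ha, Finset.card_insert_of_notMem ha]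
    refine ⟨?_, ?_, ?_⟩
    · have e : x a * ∏ b ∈ s, x b - y a * ∏ b ∈ s, y b = (x a - y a) * ∏ b ∈ s, x b + y a * (∏ b ∈ s, x b - ∏ b ∈ s, y b) := by ring
      rw [e]
      refine (abs_add_le _ _).trans ?_
      rw [abs_mul, abs_mul]
      have hp : (0 : ℝ) ≤ (1 + C) ^ s.card := by positivity
      have h4 : (1 + C) ^ s.card ≤ (1 + C) ^ (s.card + 1) := pow_le_pow_right₀ (by linarith) (by omega)
      calc |x a - y a| * |∏ b ∈ s, x b| + |y a| * |∏ b ∈ s, x b - ∏ b ∈ s, y b| ≤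
          t * (1 + C) ^ s.card + 1 * (s.card * (1 + C) ^ s.card * t) :=
            add_le_add (mul_le_mul ha1 h2 (abs_nonneg _) ht) (mul_le_mul ha2 h1 (abs_nonneg _) zero_le_one)
        _ = (s.card + 1) * (1 + C) ^ s.card * t := by ring
        _ ≤ (s.card + 1) * (1 + C) ^ (s.card + 1) * t := by
            refine mul_le_mul_of_nonneg_right (mul_le_mul_of_nonneg_left h4 (by positivity)) ht
        _ = _ := by push_cast; ring
    · rw [abs_mul, pow_succ, mul_comm ((1 + C) ^ s.card)]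
      exact mul_le_mul hxa h2 (abs_nonneg _) (by linarith)
    · rw [abs_mul]
      exact mul_le_one₀ ha2 (abs_nonneg _) h3

/-- The product functions. -/
def PF (h : ∀ b : Fin N, S → ∀ p : ℕ, (κ b → ZMod p) → ℝ) (e : Fin N → S) (p : ℕ) (c : (Σ b, κ b) → ZMod p) : ℝ :=
  ∏ b, h b (e b) p (fun j => c ⟨b, j⟩)

/-- The hypotheses on the blocks. -/
structure Blk (B C : ℝ) (z : S) (h : ∀ b : Fin N, S → ∀ p : ℕ, (κ b → ZMod p) → ℝ) : Prop where
  B1 : 1 ≤ B
  one : ∀ b p x, h b z p x = 1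
  bd : ∀ b s p, p.Prime → ∀ x, |h b s p x| ≤ B
  cov2 : ∀ b s t p, p.Prime → ∀ [NeZero p], |EM p (fun x => h b s p x * h b t p x) - if s = t then 1 else 0| ≤ C / p

theorem PF_cov {B C : ℝ} (hC : 0 ≤ C) {z : S} {h : ∀ b : Fin N, S → ∀ p : ℕ, (κ b → ZMod p) → ℝ} (hb : Blk B C z h)
    (e e' : Fin N → S) {p : ℕ} (hp : p.Prime) [NeZero p] :
    |EM p (fun c => PF h e p c * PF h e' p c) - if e = e' then 1 else 0| ≤ (N * (1 + C) ^ N * C) / p := by
  classical
  have hp0 : (0 : ℝ) < p := by exact_mod_cast hp.pos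
  have hp1 : (1 : ℝ) ≤ p := by exact_mod_cast hp.one_lt.le
  have e1 : (fun c : (Σ b, κ b) → ZMod p => PF h e p c * PF h e' p c) =
      fun c => ∏ b, (fun x : κ b → ZMod p => h b (e b) p x * h b (e' b) p x) (fun j => c ⟨b, j⟩) := by
    funext c
    unfold PF
    rw [← Finset.prod_mul_distrib]
  rw [e1, Pool.Agent.X280.HG.EM_sigma p (fun b (x : κ b → ZMod p) => h b (e b) p x * h b (e' b) p x)]
  have e2 : (if e = e' then (1 : ℝ) else 0) = ∏ b, if e b = e' b then (1 : ℝ) else 0 := by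
    rw [Finset.prod_ite_zero]
    simp only [Finset.mem_univ, forall_true_left, Finset.prod_const_one]
    congr 1
    exact propext funext_iff
  rw [e2]
  have h1 := prod_close (s := (Finset.univ : Finset (Fin N))) (x := fun b => EM p (fun x : κ b → ZMod p => h b (e b) p x * h b (e' b) p x))
    (y := fun b => if e b = e' b then (1 : ℝ) else 0) (t := C / p) (C := C) (by positivity) (div_le_self hC hp1)
    (fun b _ => hb.cov2 b (e b) (e' b) p hp) (fun b _ => by
      split_ifs <;> norm_num)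
  rw [Finset.card_univ, Fintype.card_fin] at h1
  refine h1.1.trans (le_of_eq ?_)
  ring

/-- The system of the product functions. -/
theorem PF_loc {B C : ℝ} (hC : 0 ≤ C) {z : S} {h : ∀ b : Fin N, S → ∀ p : ℕ, (κ b → ZMod p) → ℝ} (hb : Blk B C z h)
    (E : Fin k → Fin N → S) (hE : Function.Injective E) (hE0 : ∀ i, E i ≠ fun _ => z) :
    Loc (ι := Σ b, κ b) k (B ^ N) (N * (1 + C) ^ N * C) (fun i => PF h (E i)) := by
  refine ⟨?_, ?_, ?_⟩
  · intro i p hp x
    unfold PF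
    rw [Finset.abs_prod]
    calc ∏ b, |h b (E i b) p (fun j => x ⟨b, j⟩)| ≤ ∏ _b : Fin N, B :=
          Finset.prod_le_prod (fun _ _ => abs_nonneg _) fun b _ => hb.bd b (E i b) p hp _
      _ = B ^ N := by rw [Finset.prod_const, Finset.card_univ, Fintype.card_fin]
  · intro i p hp _
    have h1 := PF_cov hC hb (E i) (fun _ => z) hp
    rw [if_neg (hE0 i), sub_zero] at h1
    have e : (fun c => PF h (E i) p c * PF h (fun _ => z) p c) = PF h (E i) p := by
      funext c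
      have : PF h (fun _ => z) p c = 1 := by
        unfold PF
        exact Finset.prod_eq_one fun b _ => hb.one b p _
      rw [this, mul_one]
    rw [e] at h1
    exact h1
  · intro i j p hp _
    have h1 := PF_cov hC hb (E i) (E j) hp
    have e : (if E i = E j then (1 : ℝ) else 0) = if i = j then 1 else 0 := by
      by_cases hij : i = j
      · rw [if_pos hij, if_pos (by rw [hij])]
      · rw [if_neg hij, if_neg (fun h' => hij (hE h'))]
    rw [e] at h1
    exact h1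

end Blocks

end Pool.Agent.U62.LD
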